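import Pool.Agent.TH122.PA.Fer

/-!
The numerical dimension of the function fields of quotients of products of a Calabi-Yau variety of
Fermat type and a curve.
-/

set_option autoImplicit false
set_option linter.overlappingInstances false
set_option linter.unusedSectionVars false

open FF IntermediateField Pool.Agent.W603.LV Pool.Agent.W602.GT
open Pool.Agent.W619.PQ Pool.Agent.W619.TW Pool.Agent.W619.PL Pool.Agent.W619.Y
open MvPolynomial Pool.Agent.TH122.AB

namespace Pool.Agent.TH122.PA

/-- adjoining roots -/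
theorem exists_ext {K : Type} [Field K] [Algebra ℂ K] {m N : ℕ} (hN : 0 < N) (t : Fin m → K) :
    ∃ (L : Type) (_ : Field L) (_ : Algebra ℂ L) (_ : Algebra K L) (_ : IsScalarTower ℂ K L)
      (_ : FiniteDimensional K L) (U : Fin m → L), (∀ j, U j ^ N = algebraMap K L (t j)) ∧
      ∀ H : IntermediateField ℂ L, (∀ k : K, algebraMap K L k ∈ H) → (∀ j, U j ∈ H) → H = ⊤ := by
  classical
  have hroot : ∀ j, ∃ u : AlgebraicClosure K, u ^ N = algebraMap K (AlgebraicClosure K) (t j) :=
    fun j => IsAlgClosed.exists_pow_nat_eq _ hN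
  choose u hu using hroot
  have hfd : FiniteDimensional K (IntermediateField.adjoin K (Set.range u)) :=
    IntermediateField.finiteDimensional_adjoin fun x _ =>
      (Algebra.IsAlgebraic.isAlgebraic x).isIntegral
  refine ⟨IntermediateField.adjoin K (Set.range u), inferInstance, inferInstance, inferInstance,
    inferInstance, hfd, fun j => ⟨u j, IntermediateField.subset_adjoin K _ ⟨j, rfl⟩⟩, ?_, ?_⟩
  · intro j
    apply Subtype.ext
    exact hu j
  · intro H h1 h2
    rw [eq_top_iff]
    rintro ⟨z, hz⟩ -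
    induction hz using IntermediateField.adjoin_induction with
    | mem x hx =>
      obtain ⟨j, rfl⟩ := hx
      exact h2 j
    | algebraMap k => exact h1 k
    | add x y hx hy h3 h4 => exact add_mem h3 h4
    | inv x hx h3 => exact inv_mem h3
    | mul x y hx hy h3 h4 => exact mul_mem h3 h4

section

variable {L : Type} [Field L] [Algebra ℂ L]

theorem gen_sub (A : Set L) (H : IntermediateField ℂ (IntermediateField.adjoin ℂ A))
    (h : ∀ a (ha : a ∈ A), (⟨a, IntermediateField.subset_adjoin ℂ A ha⟩ :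
      IntermediateField.adjoin ℂ A) ∈ H) : H = ⊤ := by
  rw [eq_top_iff]
  rintro ⟨z, hz⟩ -
  induction hz using IntermediateField.adjoin_induction with
  | mem x hx => exact h x hx
  | algebraMap k => exact H.algebraMap_mem k
  | add x y hx hy h3 h4 => exact add_mem h3 h4
  | inv x hx h3 => exact inv_mem h3
  | mul x y hx hy h3 h4 => exact mul_mem h3 h4

theorem ess_adjoin {A : Set L} (hA : A.Finite) :
    Algebra.EssFiniteType ℂ (IntermediateField.adjoin ℂ A) := by
  rw [IntermediateField.essFiniteType_iff]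
  exact ⟨hA.toFinset, by simp⟩

theorem ind_sub {n : ℕ} {Z : Fin n → L} (hZ : AlgebraicIndependent ℂ Z)
    {E : IntermediateField ℂ L} {X : Fin n → E} (hX : ∀ j, (X j : L) = Z j) :
    AlgebraicIndependent ℂ X := by
  have h1 : (fun j => E.val (X j)) = Z := funext hX
  have h2 : AlgebraicIndependent ℂ (E.val ∘ X) := by
    have : E.val ∘ X = Z := h1
    rw [this]
    exact hZ
  exact h2.of_comp E.val

end

theorem numLe_mono {K : Type} [Field K] [Algebra ℂ K] {n a b : ℕ} (hab : a ≤ b)
    (h : NumLe ℂ K n (fun _ => False) a) : NumLe ℂ K n (fun _ => False) b := by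
  intro S
  obtain ⟨C, hC⟩ := h S
  exact ⟨C, fun m N hm hI => (hC m N hm hI).trans
    (Nat.mul_le_mul_left _ (Nat.pow_le_pow_right hm hab))⟩

/-- **The numerical dimension of quotients of products.** -/
theorem prod_num {n : ℕ} {K : Type} [Field K] [Algebra ℂ K] {Z : Fin (n + 1) → K} {s : K}
    (hbas : IsTranscendenceBasis ℂ (Fin.cons s Z : Fin (n + 2) → K))
    (lam : Fin (n + 3) → MvPolynomial (Fin (n + 1)) ℂ) (hlam0 : ∀ j, lam j ≠ 0)
    (hlam1 : ∀ j, (lam j).totalDegree ≤ 1) (hinf : ∃ j, (lam j).totalDegree = 0) {S : Set K}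
    (hSfin : S.Finite)
    (hgen : ∀ L : IntermediateField ℂ K, (∀ j, Z j ∈ L) → s ∈ L → S ⊆ L → L = ⊤)
    (hS : ∀ z ∈ S, ∃ (m : ℕ) (b : Fin (n + 3) → ℤ) (g : K), 0 < m ∧
      g ∈ IntermediateField.adjoin ℂ {s} ∧
      z ^ (m * (n + 3)) = (∏ j, (aeval Z (lam j)) ^ (m * b j)) * g)
    (hpsef : IsPsef ℂ K (n + 2) (fun _ => False)) :
    NumLe ℂ K (n + 2) (fun _ => False) 1 := by
  classical
  have hcK : CharZero K := charZero_of_injective_algebraMap (algebraMap ℂ K).injective
  have hindZ : AlgebraicIndependent ℂ Z := by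
    have h1 := hbas.1.comp Fin.succ (Fin.succ_injective _)
    have h2 : (Fin.cons s Z : Fin (n + 2) → K) ∘ Fin.succ = Z := by
      funext j
      simp
    rwa [h2] at h1
  have hinds : Transcendental ℂ s := by
    have h1 := hbas.1.comp (fun _ : Fin 1 => (0 : Fin (n + 2))) (fun a b _ => Subsingleton.elim a b)
    rw [algebraicIndependent_unique_type_iff] at h1
    exact h1
  have htrK := trdeg_of_basis hbas
  have ht0 : ∀ j, aeval Z (lam j) ≠ 0 := fun j h0 =>
    hlam0 j ((injective_iff_map_eq_zero _).1 hindZ _ h0)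
  obtain ⟨L, _, _, _, _, _, U, hU, hgenL⟩ := exists_ext (N := n + 3) (by omega)
    fun j => aeval Z (lam j)
  let φ : K →ₐ[ℂ] L := IsScalarTower.toAlgHom ℂ K L
  have hφ : ∀ k, φ k = algebraMap K L k := fun k => rfl
  have hφinj : Function.Injective φ := (algebraMap K L).injective
  have hU0 : ∀ j, U j ≠ 0 := by
    intro j h0
    have h1 := hU j
    rw [h0, zero_pow (by omega)] at h1
    exact ht0 j ((map_eq_zero _).1 h1.symm)
  choose! m b g hm hg hzg using hS
  obtain ⟨Wf, hWf⟩ : ∃ Wf : K → L, ∀ z, Wf z = φ z / ∏ j, U j ^ (b z j) := ⟨_, fun _ => rfl⟩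
  have hprod0 : ∀ z, ∏ j, U j ^ (b z j) ≠ 0 := fun z =>
    Finset.prod_ne_zero_iff.2 fun j _ => zpow_ne_zero _ (hU0 j)
  have hWpow : ∀ z ∈ S, Wf z ^ (m z * (n + 3)) = φ (g z) := by
    intro z hz
    have h1 : (∏ j, U j ^ (b z j)) ^ (m z * (n + 3)) =
        φ (∏ j, (aeval Z (lam j)) ^ (m z * b z j)) := by
      rw [map_prod, ← Finset.prod_pow]
      refine Finset.prod_congr rfl fun j _ => ?_
      rw [map_zpow₀, hφ, ← hU j, ← zpow_natCast, ← zpow_natCast, ← zpow_mul, ← zpow_mul]
      congr 1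
      push_cast
      ring
    rw [hWf, div_pow, ← map_pow, hzg z hz, map_mul, ← h1]
    exact mul_div_cancel_left₀ _ (pow_ne_zero _ (hprod0 z))
  -- the two fields
  let A : Set L := Set.range (fun j => φ (Z j)) ∪ Set.range U
  let B : Set L := {φ s} ∪ Wf '' S
  have hAfin : A.Finite := (Set.finite_range _).union (Set.finite_range _)
  have hBfin : B.Finite := (Set.finite_singleton _).union (hSfin.image _)
  have hZA : ∀ j, φ (Z j) ∈ A := fun j => Or.inl ⟨j, rfl⟩
  have hUA : ∀ j, U j ∈ A := fun j => Or.inr ⟨j, rfl⟩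
  have hsB : φ s ∈ B := Or.inl rfl
  have hWB : ∀ z ∈ S, Wf z ∈ B := fun z hz => Or.inr ⟨z, hz, rfl⟩
  have hsup : IntermediateField.adjoin ℂ A ⊔
      (⨆ _ : Fin 1, IntermediateField.adjoin ℂ B) = ⊤ := by
    rw [ciSup_const]
    have hA : ∀ a ∈ A, a ∈ IntermediateField.adjoin ℂ A ⊔ IntermediateField.adjoin ℂ B :=
      fun a ha => (le_sup_left : IntermediateField.adjoin ℂ A ≤ _)
        (IntermediateField.subset_adjoin ℂ A ha)
    have hB : ∀ a ∈ B, a ∈ IntermediateField.adjoin ℂ A ⊔ IntermediateField.adjoin ℂ B :=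
      fun a ha => (le_sup_right : IntermediateField.adjoin ℂ B ≤ _)
        (IntermediateField.subset_adjoin ℂ B ha)
    refine hgenL _ (fun k => ?_) fun j => hA _ (hUA j)
    have h1 := hgen ((IntermediateField.adjoin ℂ A ⊔ IntermediateField.adjoin ℂ B).comap φ)
      (fun j => hA _ (hZA j)) (hB _ hsB) (by
        intro z hz
        change φ z ∈ IntermediateField.adjoin ℂ A ⊔ IntermediateField.adjoin ℂ B
        have h2 : φ z = Wf z * ∏ j, U j ^ (b z j) := by
          rw [hWf, div_mul_cancel₀ _ (hprod0 z)]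
        rw [h2]
        exact mul_mem (hB _ (hWB z hz)) (prod_mem fun j _ => zpow_mem (hA _ (hUA j)) _))
    have h2 : k ∈ (IntermediateField.adjoin ℂ A ⊔ IntermediateField.adjoin ℂ B).comap φ := by
      rw [h1]
      trivial
    exact h2
  -- the first field
  let Z2 : Fin (n + 1) → IntermediateField.adjoin ℂ A := fun j =>
    ⟨φ (Z j), IntermediateField.subset_adjoin ℂ A (hZA j)⟩
  let U2 : Fin (n + 3) → IntermediateField.adjoin ℂ A := fun j =>
    ⟨U j, IntermediateField.subset_adjoin ℂ A (hUA j)⟩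
  have hindZ2 : AlgebraicIndependent ℂ Z2 :=
    ind_sub (Z := fun j => φ (Z j)) (hindZ.map' hφinj) fun j => rfl
  have hpow2 : ∀ j, U2 j ^ (n + 3) = aeval Z2 (lam j) := by
    intro j
    apply Subtype.ext
    change U j ^ (n + 3) = ((aeval Z2 (lam j) : IntermediateField.adjoin ℂ A) : L)
    rw [hU]
    have h1 := (MvPolynomial.aeval_algebraMap_apply L Z2 (lam j)).symm
    change _ = algebraMap (IntermediateField.adjoin ℂ A) L (aeval Z2 (lam j))
    rw [h1]
    exact (MvPolynomial.aeval_algebraMap_apply L Z (lam j)).symm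
  have hgen2 : ∀ H : IntermediateField ℂ (IntermediateField.adjoin ℂ A), (∀ j, Z2 j ∈ H) →
      Set.range U2 ⊆ H → H = ⊤ := by
    intro H h1 h2
    refine gen_sub A H ?_
    rintro a (⟨j, rfl⟩ | ⟨j, rfl⟩)
    · exact h1 j
    · exact h2 ⟨j, rfl⟩
  have hbas2 : IsTranscendenceBasis ℂ Z2 := by
    refine basis_of hindZ2 (Set.finite_range U2) ?_ hgen2
    rintro _ ⟨j, rfl⟩
    refine IsAlgebraic.of_pow (n := n + 3) (by omega) ?_
    rw [hpow2]
    have h1 : aeval Z2 (lam j) ∈ IntermediateField.adjoin ℂ (Set.range Z2) := by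
      have h2 : aeval Z2 (lam j) ∈ Algebra.adjoin ℂ (Set.range Z2) := by
        rw [Algebra.adjoin_range_eq_range_aeval]
        exact ⟨lam j, rfl⟩
      exact IntermediateField.algebra_adjoin_le_adjoin ℂ _ h2
    exact isAlgebraic_algebraMap (R := IntermediateField.adjoin ℂ (Set.range Z2))
      (⟨_, h1⟩ : IntermediateField.adjoin ℂ (Set.range Z2))
  have hnum2 : NumLe ℂ (IntermediateField.adjoin ℂ A) (n + 1) (fun _ => False) 0 := by
    refine fermat hbas2 (Set.finite_range U2) ?_ lam hlam0 hlam1 hinf ?_ hgen2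
    · rintro _ ⟨j, rfl⟩ h0
      exact hU0 j (congrArg Subtype.val h0)
    · rintro _ ⟨j, rfl⟩
      exact ⟨j, hpow2 j⟩
  -- the second field
  let s2 : Fin 1 → IntermediateField.adjoin ℂ B := fun _ =>
    ⟨φ s, IntermediateField.subset_adjoin ℂ B hsB⟩
  have hinds2 : AlgebraicIndependent ℂ s2 := by
    refine ind_sub (Z := fun _ : Fin 1 => φ s) ?_ fun j => rfl
    rw [algebraicIndependent_unique_type_iff]
    exact (transcendental_algebraMap_iff (R := ℂ) (S := K) (A := L)
      (algebraMap K L).injective).2 hinds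
  have hbasB : IsTranscendenceBasis ℂ s2 := by
    refine basis_of hinds2 (S := {w | (w : L) ∈ Wf '' S})
      (Set.Finite.preimage Subtype.val_injective.injOn (hSfin.image Wf)) ?_ ?_
    · rintro w ⟨z, hz, hzw⟩
      refine IsAlgebraic.of_pow (n := m z * (n + 3)) (Nat.mul_pos (hm z hz) (by omega)) ?_
      have h1 : w ^ (m z * (n + 3)) ∈ IntermediateField.adjoin ℂ (Set.range s2) := by
        have h2 : ((w ^ (m z * (n + 3)) : IntermediateField.adjoin ℂ B) : L) = φ (g z) := by
          rw [← hWpow z hz, hzw]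
          rfl
        have h3 : φ (g z) ∈ IntermediateField.adjoin ℂ {φ s} := by
          have h4 : φ (g z) ∈ (IntermediateField.adjoin ℂ {s}).map φ := ⟨g z, hg z hz, rfl⟩
          rw [IntermediateField.adjoin_map, Set.image_singleton] at h4
          exact h4
        have h5 : IntermediateField.adjoin ℂ {φ s} =
            (IntermediateField.adjoin ℂ (Set.range s2)).map (IntermediateField.adjoin ℂ B).val := by
          rw [IntermediateField.adjoin_map]
          congr 1
          ext y
          constructor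
          · rintro rfl
            exact ⟨s2 0, ⟨0, rfl⟩, rfl⟩
          · rintro ⟨_, ⟨_, rfl⟩, rfl⟩
            rfl
        rw [h5, ← h2] at h3
        obtain ⟨y, hy, hy2⟩ := h3
        have h6 : y = w ^ (m z * (n + 3)) := Subtype.ext hy2
        rw [← h6]
        exact hy
      exact isAlgebraic_algebraMap (R := IntermediateField.adjoin ℂ (Set.range s2))
        (⟨_, h1⟩ : IntermediateField.adjoin ℂ (Set.range s2))
    · intro H h1 h2
      refine gen_sub B H ?_
      rintro a (ha | ⟨z, hz, rfl⟩)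
      · have h3 : a = φ s := ha
        subst h3
        exact h1 0
      · exact h2 ⟨z, hz, rfl⟩
  have hFF : IsFF ℂ (IntermediateField.adjoin ℂ B) := ⟨ess_adjoin hBfin, trdeg_of_basis hbasB⟩
  have hessA : Algebra.EssFiniteType ℂ (IntermediateField.adjoin ℂ A) := ess_adjoin hAfin
  have htrL : Algebra.trdeg ℂ L = ((n + 1) + 1 : ℕ) := by
    rw [← trdeg_add_eq ℂ K (A := L), trdeg_eq_zero (R := K) (A := L), add_zero, htrK]
  have htrM : Algebra.trdeg ℂ (IntermediateField.adjoin ℂ A) = ((n + 1 : ℕ)) :=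
    trdeg_of_basis hbas2
  have hT := pTRANS ℂ K L (n + 2) (by rw [htrK]) (fun y hy => by
    have halg : Algebra.IsAlgebraic (IntermediateField.adjoin ℂ (Set.range y)) K :=
      hy.isAlgebraic_field
    refine (fin_of_gen (IntermediateField.adjoin ℂ (Set.range y))
      (S := (S ∪ {s}) ∪ Set.range Z)
      ((hSfin.union (Set.finite_singleton _)).union (Set.finite_range _)) (fun L _ hSL => ?_)
      (fun z _ => (Algebra.IsAlgebraic.isAlgebraic z).isIntegral)).1
    exact hgen L (fun j => hSL (Or.inr ⟨j, rfl⟩)) (hSL (Or.inl (Or.inr rfl)))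
      (fun z hz => hSL (Or.inl (Or.inl hz)))) (fun _ => False)
  rw [bdUp_false] at hT
  obtain ⟨hT1, -, hT3⟩ := hT
  have hirr : ∀ _ : Fin 1, ¬ ∃ t : IntermediateField.adjoin ℂ B, ℂ⟮t⟯ = ⊤ := by
    intro i hi
    obtain ⟨-, M', t', h2, h3⟩ := Pool.Agent.W318.PG.URAT.main ℂ L (n + 1) 1
      (IntermediateField.adjoin ℂ A) (fun _ => IntermediateField.adjoin ℂ B) htrM htrL hsup ⟨i, hi⟩
    exact pRULED ℂ L M' t' (n + 1 + 1) htrL h2 h3 (hT1 hpsef)
  have hmany := (pMANY ℂ L (n + 1) 1 (IntermediateField.adjoin ℂ A)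
    (fun _ => IntermediateField.adjoin ℂ B) htrM htrL hsup).2.2 0
    (fun i => canDeg_nonneg (hirr i)) hnum2
  refine hT3 1 (numLe_mono ?_ hmany)
  have h1 : ({i : Fin 1 | canDeg ℂ (IntermediateField.adjoin ℂ B) ≠ 0}).ncard ≤ 1 := by
    refine (Set.ncard_le_card _).trans ?_
    simp
  omega

end Pool.Agent.TH122.PA
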