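import Pool.Agent.TH122.PA.Exn
import Pool.Agent.TH122.PA.Prd

/-!
The numerical dimension of abelian covers of projective space over an arrangement of pencil type.
-/

set_option autoImplicit false
set_option linter.overlappingInstances false
set_option linter.unusedSectionVars false

open FF IntermediateField Pool.Agent.W603.LV Pool.Agent.W602.GT Pool.Agent.W602.Cov
open Pool.Agent.W602.Cov.Cover Pool.Agent.W602.Cov.G Pool.Agent.TH152.AC Pool.Agent.TH122.AB
open Pool.Agent.W619.TW MvPolynomial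

namespace Pool.Agent.TH122.PA

section

variable {n q : ℕ} {ℓ : Fin q → Form n} {c : Fin (n + 2) → Fin q}

theorem exists_rel (hc : Circ ℓ c) : ∃ α : Fin (n + 2) → ℂ, (∀ k, α k ≠ 0) ∧
    ∑ k, α k • ℓ (c k) = 0 := by
  classical
  have h1 : ¬ LinearIndependent ℂ fun k => ℓ (c k) := by
    intro h
    have h2 := h.fintype_card_le_finrank
    rw [finrank_form, Fintype.card_fin] at h2
    omega
  obtain ⟨α, hα, k0, hk0⟩ := Fintype.not_linearIndependent_iff.1 h1
  refine ⟨α, fun k hk => ?_, hα⟩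
  rw [Fin.sum_univ_succAbove _ k, hk, zero_smul, zero_add] at hα
  have h2 := Fintype.linearIndependent_iff.1 (hc k) (fun a => α (k.succAbove a)) hα
  apply hk0
  by_cases h3 : k0 = k
  · rw [h3, hk]
  · obtain ⟨a, ha⟩ := Fin.exists_succAbove_eq h3
    rw [← ha]
    exact h2 a

theorem not_mem_one (hn : 1 ≤ n) (hc : Circ ℓ c) {m m' : Fin (n + 2)} (hm : m ≠ m') (t : ℂ) :
    ℓ (c m) ≠ t • ℓ (c m') := by
  classical
  intro h
  refine notMem_W hc (A := {m'}) (a := m) ?_ ?_ ?_
  · apply ne_univ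
    exact (Finset.card_le_two).trans (by omega)
  · rw [Finset.mem_singleton]
    exact hm
  · rw [h]
    exact Submodule.smul_mem _ _ (Submodule.subset_span ⟨m', by simp, rfl⟩)

end

section

variable {n q r : ℕ} (X : Cover (n + 2) q r) {K : Type} [Field K] [Algebra ℂ K]
  {x : Fin (n + 2 + 1) → K} {y : Fin r → K}

/-- **The numerical dimension for arrangements of pencil type.** -/
theorem nu_pencil (hF : X.Free) (hK : X.FunctionField K x y) {c : Fin (n + 2 + 2) → Fin q}
    (hc : Circ X.ℓ c) {i j : Fin (n + 2 + 2)} (hij : i ≠ j) (hp : Pencil X.ℓ c i j)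
    (CC : Fin (n + 2 + 2) → Finset (Fin q)) (hC : ∀ m d, d ∈ CC m ↔ ∃ t : ℂ, X.ℓ d = t • X.ℓ (c m))
    (hcomp : ∀ m, m ≠ i → m ≠ j → ∀ k, X.m k ∣ (n + 3) * ∑ d ∈ CC m, X.e k d)
    (hpsef : IsPsef ℂ K (n + 2) (fun _ => False)) :
    NumLe ℂ K (n + 2) (fun _ => False) 1 := by
  classical
  have hcK : CharZero K := charZero_of_injective_algebraMap (algebraMap ℂ K).injective
  obtain ⟨hlx, hx0, hbas⟩ := coords X hK
  obtain ⟨S, hSfin, hS0, hgen, hS⟩ := exists_gens X hF hK (c 0)
  obtain ⟨α, hα0, hα⟩ := exists_rel hc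
  obtain ⟨j', hj'⟩ := Fin.exists_succAbove_eq hij.symm
  obtain ⟨κ, hκ⟩ : ∃ κ : Fin (n + 2) → Fin (n + 2 + 2),
      ∀ k, κ k = i.succAbove (j'.succAbove k) := ⟨_, fun _ => rfl⟩
  have hκi : ∀ k, κ k ≠ i := by
    intro k
    rw [hκ]
    exact Fin.succAbove_ne _ _
  have hκj : ∀ k, κ k ≠ j := by
    intro k h
    rw [hκ, ← hj'] at h
    exact Fin.succAbove_ne _ _ (Fin.succAbove_right_injective h)
  have hκs : ∀ m, m ≠ i → m ≠ j → ∃ k, κ k = m := by
    intro m hi hj
    obtain ⟨m', hm'⟩ := Fin.exists_succAbove_eq hi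
    have h1 : m' ≠ j' := by
      rintro rfl
      exact hj (hm'.symm.trans hj')
    obtain ⟨k, hk⟩ := Fin.exists_succAbove_eq h1
    exact ⟨k, by rw [hκ, hk, hm']⟩
  have hκinj : Function.Injective κ := by
    intro k k' h
    rw [hκ, hκ] at h
    exact Fin.succAbove_right_injective (Fin.succAbove_right_injective h)
  -- the diagonal form
  obtain ⟨δ, hδ⟩ : ∃ δ : Form (n + 2), δ = α i • X.ℓ (c i) + α j • X.ℓ (c j) := ⟨_, rfl⟩
  have hδ0 : δ ≠ 0 := by
    intro h0
    rw [hδ, add_eq_zero_iff_eq_neg, ← neg_smul] at h0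
    apply not_mem_one (by omega) hc hij (((α i)⁻¹) * (- α j))
    rw [← smul_smul, ← h0, smul_smul, inv_mul_cancel₀ (hα0 i), one_smul]
  obtain ⟨a, ha⟩ : ∃ a, a = lf (X.ℓ (c i)) x := ⟨_, rfl⟩
  obtain ⟨b, hb⟩ : ∃ b, b = lf (X.ℓ (c j)) x := ⟨_, rfl⟩
  obtain ⟨dd, hdd⟩ : ∃ dd, dd = lf δ x := ⟨_, rfl⟩
  have ha0 : a ≠ 0 := by rw [ha]; exact hlx _
  have hb0 : b ≠ 0 := by rw [hb]; exact hlx _
  have hdd0 : dd ≠ 0 := by rw [hdd]; exact lf_ne hx0 hbas.1 hδ0
  obtain ⟨s, hs⟩ : ∃ s, s = b / a := ⟨_, rfl⟩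
  obtain ⟨u, hu⟩ : ∃ u : Fin (n + 2) → K, ∀ k, u k = lf (X.ℓ (c (κ k))) x := ⟨_, fun _ => rfl⟩
  have hu0 : ∀ k, u k ≠ 0 := fun k => by rw [hu]; exact hlx _
  have hddab : dd = algebraMap ℂ K (α i) * a + algebraMap ℂ K (α j) * b := by
    rw [hdd, hδ, lf_add, lf_smul, lf_smul, ha, hb]
  have hdda : dd / a = algebraMap ℂ K (α i) + algebraMap ℂ K (α j) * s := by
    rw [hddab, hs]
    field_simp
  have hrel : dd + ∑ k, algebraMap ℂ K (α (κ k)) * u k = 0 := by
    have h1 := congrArg (fun φ => lf φ x) hα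
    simp only [lf_sum, lf_smul, lf_zero] at h1
    rw [Fin.sum_univ_succAbove _ i, Fin.sum_univ_succAbove _ j', hj'] at h1
    rw [hddab, ha, hb, ← h1, add_assoc]
    congr 2
    exact Finset.sum_congr rfl fun k _ => by rw [hu, hκ]
  obtain ⟨Z, hZ⟩ : ∃ Z : Fin (n + 1) → K, ∀ k, Z k = u k.castSucc / dd := ⟨_, fun _ => rfl⟩
  -- the polynomials
  obtain ⟨P, hP⟩ : ∃ P : MvPolynomial (Fin (n + 1)) ℂ, P = C (-(α (κ (Fin.last (n + 1))))⁻¹) *
      (1 + ∑ k : Fin (n + 1), C (α (κ k.castSucc)) * MvPolynomial.X k) := ⟨_, rfl⟩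
  have haP : aeval Z P = u (Fin.last (n + 1)) / dd := by
    have h1 := hrel
    rw [Fin.sum_univ_castSucc] at h1
    have h2 : algebraMap ℂ K (α (κ (Fin.last (n + 1)))) ≠ 0 := by
      rw [Ne, map_eq_zero]
      exact hα0 _
    rw [hP, map_mul, map_add, map_one, map_sum, aeval_C, map_neg, map_inv₀]
    have h3 : ∑ k : Fin (n + 1), aeval Z (C (α (κ k.castSucc)) * MvPolynomial.X k) =
        (∑ k : Fin (n + 1), algebraMap ℂ K (α (κ k.castSucc)) * u k.castSucc) / dd := by
      rw [Finset.sum_div]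
      refine Finset.sum_congr rfl fun k _ => ?_
      rw [map_mul, aeval_C, aeval_X, hZ, mul_div_assoc]
    rw [h3]
    have h4 : ∑ k : Fin (n + 1), algebraMap ℂ K (α (κ k.castSucc)) * u k.castSucc =
        - dd - algebraMap ℂ K (α (κ (Fin.last (n + 1)))) * u (Fin.last (n + 1)) := by
      linear_combination h1
    rw [h4]
    field_simp
    ring
  have hPdeg : P.totalDegree ≤ 1 := by
    rw [hP]
    refine (totalDegree_mul _ _).trans ?_
    rw [totalDegree_C, zero_add]
    refine (totalDegree_add _ _).trans (max_le (by rw [totalDegree_one]; omega) ?_)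
    refine (totalDegree_finsetSum _ _).trans (Finset.sup_le fun k _ => ?_)
    refine (totalDegree_mul _ _).trans ?_
    rw [totalDegree_C, totalDegree_X]
  obtain ⟨l1, hl1⟩ : ∃ l1 : Fin (n + 2) → MvPolynomial (Fin (n + 1)) ℂ,
      l1 = Fin.snoc (α := fun _ => MvPolynomial (Fin (n + 1)) ℂ) (fun k => MvPolynomial.X k) P :=
    ⟨_, rfl⟩
  have hl1a : ∀ k, aeval Z (l1 k) = u k / dd := by
    intro k
    refine Fin.lastCases ?_ (fun k => ?_) k
    · rw [hl1, Fin.snoc_last, haP]
    · rw [hl1, Fin.snoc_castSucc, aeval_X, hZ]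
  have hl1d : ∀ k, (l1 k).totalDegree ≤ 1 := by
    intro k
    refine Fin.lastCases ?_ (fun k => ?_) k
    · rw [hl1, Fin.snoc_last]
      exact hPdeg
    · rw [hl1, Fin.snoc_castSucc, totalDegree_X]
  obtain ⟨lam, hlam⟩ : ∃ lam : Fin (n + 3) → MvPolynomial (Fin (n + 1)) ℂ,
      lam = Fin.snoc (α := fun _ => MvPolynomial (Fin (n + 1)) ℂ) l1 1 := ⟨_, rfl⟩
  have hlast : lam (Fin.last (n + 2)) = 1 := by rw [hlam, Fin.snoc_last]
  have hcast : ∀ k : Fin (n + 2), lam k.castSucc = l1 k := by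
    intro k
    rw [hlam, Fin.snoc_castSucc]
  -- the coordinates
  have hcoord : ∀ L0 : IntermediateField ℂ K, (∀ k, Z k ∈ L0) → s ∈ L0 →
      ∀ k : Fin (n + 2), x k.succ / x 0 ∈ L0 := by
    intro L0 h1 h2 k
    refine coords_mem ha0 (T := Set.range fun m : Fin (n + 2 + 1) =>
      X.ℓ (c ((κ (Fin.last (n + 1))).succAbove m))) ?_ ?_ hx0 k
    · rw [eq_top_iff, ← (bas (⟨fun m => c ((κ (Fin.last (n + 1))).succAbove m),
        hc (κ (Fin.last (n + 1)))⟩ : Bases X.ℓ)).span_eq]
      apply Submodule.span_mono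
      rintro _ ⟨m, rfl⟩
      rw [bas_apply]
      exact ⟨m, rfl⟩
    · rintro _ ⟨m, rfl⟩
      obtain ⟨m', hm'⟩ : ∃ m', m' = (κ (Fin.last (n + 1))).succAbove m := ⟨_, rfl⟩
      have hne : m' ≠ κ (Fin.last (n + 1)) := by
        rw [hm']
        exact Fin.succAbove_ne _ _
      change lf (X.ℓ (c ((κ (Fin.last (n + 1))).succAbove m))) x / a ∈ L0
      rw [← hm']
      by_cases hi : m' = i
      · rw [hi, ← ha, div_self ha0]
        exact one_mem L0
      by_cases hj : m' = j
      · rw [hj, ← hb, ← hs]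
        exact h2
      obtain ⟨k', hk'⟩ := hκs m' hi hj
      have hk'l : k' ≠ Fin.last (n + 1) := by
        rintro rfl
        exact hne hk'.symm
      obtain ⟨k2, hk2⟩ := Fin.exists_castSucc_eq.2 hk'l
      have h3 : lf (X.ℓ (c m')) x / a = Z k2 * (dd / a) := by
        rw [hZ, hk2, hu, hk']
        field_simp
      rw [h3, hdda]
      exact mul_mem (h1 k2) (add_mem (L0.algebraMap_mem _) (mul_mem (L0.algebraMap_mem _) h2))
  have hgen' : ∀ L0 : IntermediateField ℂ K, (∀ k, Z k ∈ L0) → s ∈ L0 → S ⊆ L0 → L0 = ⊤ :=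
    fun L0 h1 h2 h3 => hgen L0 (hcoord L0 h1 h2) h3
  have hbas' : IsTranscendenceBasis ℂ (Fin.cons s Z : Fin (n + 2) → K) := by
    have hmem : ∀ k, (Fin.cons s Z : Fin (n + 2) → K) k ∈
        IntermediateField.adjoin ℂ (Set.range (Fin.cons s Z : Fin (n + 2) → K)) := fun k =>
      IntermediateField.subset_adjoin ℂ _ ⟨k, rfl⟩
    have hsm := hmem 0
    rw [Fin.cons_zero] at hsm
    have hZm : ∀ k, Z k ∈
        IntermediateField.adjoin ℂ (Set.range (Fin.cons s Z : Fin (n + 2) → K)) := by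
      intro k
      have := hmem k.succ
      rwa [Fin.cons_succ] at this
    have hpow := pow_mem_of X (hF := hF) hK (c 0) hS (L := IntermediateField.adjoin ℂ
      (Set.range (Fin.cons s Z : Fin (n + 2) → K))) (hcoord _ hZm hsm)
    have hMpos : 0 < X.d * ∏ k, X.m k :=
      Nat.mul_pos X.hd (Finset.prod_pos fun k _ => X.hm k)
    obtain ⟨h1, -⟩ := fin_of_gen (IntermediateField.adjoin ℂ
      (Set.range (Fin.cons s Z : Fin (n + 2) → K))) hSfin
      (fun L hL hSL => hgen' L (fun k => hL (hZm k)) (hL hsm) hSL) (fun z hz => by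
        refine IsIntegral.of_pow hMpos ?_
        exact isIntegral_algebraMap (R := IntermediateField.adjoin ℂ
          (Set.range (Fin.cons s Z : Fin (n + 2) → K))) (x := ⟨_, hpow z hz⟩))
    have h2 : Algebra.IsAlgebraic (IntermediateField.adjoin ℂ
      (Set.range (Fin.cons s Z : Fin (n + 2) → K))) K := Algebra.IsAlgebraic.of_finite _ _
    have h3 := Pool.Agent.W216.CG.TRB.alg_adjoin h2
    refine Algebra.IsAlgebraic.isTranscendenceBasis_of_le_trdeg_of_finite ℂ _ ?_
    rw [trdeg_of_basis hbas, Cardinal.mk_fin]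
  refine prod_num hbas' lam ?_ ?_ ⟨Fin.last (n + 2), by rw [hlast, totalDegree_one]⟩ hSfin
    hgen' ?_ hpsef
  · intro k
    refine Fin.lastCases ?_ (fun k => ?_) k
    · rw [hlast]
      exact one_ne_zero
    · rw [hcast]
      intro h0
      have h1 := hl1a k
      rw [h0, map_zero] at h1
      exact div_ne_zero (hu0 k) hdd0 h1.symm
  · intro k
    refine Fin.lastCases ?_ (fun k => ?_) k
    · rw [hlast, totalDegree_one]
      omega
    · rw [hcast]
      exact hl1d k
  · -- the generators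
    intro z hz
    obtain ⟨β, h1, h2, h3⟩ := exists_exp X hK (c 0) hS (fun k : Fin (n + 2) => CC (κ k))
      (N := n + 3) (fun k => hcomp (κ k) (hκi k) (hκj k)) z hz
    obtain ⟨M, hM⟩ : ∃ M, M = ∏ k, X.m k := ⟨_, rfl⟩
    rw [← hM] at h1 h3
    have hMpos : 0 < M := by
      rw [hM]
      exact Finset.prod_pos fun k _ => X.hm k
    choose b' hb' using h3
    -- the factors
    have hfac : ∀ d, ∃ g ∈ IntermediateField.adjoin ℂ {s}, lf (X.ℓ d) x / dd =
        g * ∏ k, (u k / dd) ^ (if d ∈ CC (κ k) then (1 : ℤ) else 0) := by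
      intro d
      have hsE : s ∈ IntermediateField.adjoin ℂ {s} :=
        IntermediateField.subset_adjoin ℂ _ (Set.mem_singleton s)
      by_cases hd : ∃ k, d ∈ CC (κ k)
      · obtain ⟨k, hk⟩ := hd
        obtain ⟨t, ht⟩ := (hC _ _).1 hk
        have ht0 : t ≠ 0 := by
          rintro rfl
          rw [zero_smul] at ht
          exact X.hℓ d ht
        refine ⟨algebraMap ℂ K t, (IntermediateField.adjoin ℂ {s}).algebraMap_mem t, ?_⟩
        rw [Finset.prod_eq_single k]
        · rw [if_pos hk, zpow_one, ht, lf_smul, hu, mul_div_assoc]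
        · intro k2 _ hk2
          rw [if_neg, zpow_zero]
          intro hd2
          obtain ⟨t2, ht2⟩ := (hC _ _).1 hd2
          apply not_mem_one (by omega) hc (m := κ k) (m' := κ k2)
            (fun h => hk2 (hκinj h).symm) (t⁻¹ * t2)
          rw [← smul_smul, ← ht2, ht, smul_smul, inv_mul_cancel₀ ht0, one_smul]
        · intro h
          exact absurd (Finset.mem_univ _) h
      · push Not at hd
        have hmem : X.ℓ d ∈ W X.ℓ c {i, j} := by
          rcases hp d with h4 | h4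
          · unfold Npar at h4
            push Not at h4
            obtain ⟨m, t, ht⟩ := h4
            rw [ht]
            refine Submodule.smul_mem _ _ (Submodule.subset_span ⟨m, ?_, rfl⟩)
            by_cases hmi : m = i
            · rw [hmi]
              simp
            by_cases hmj : m = j
            · rw [hmj]
              simp
            exfalso
            obtain ⟨k, hk⟩ := hκs m hmi hmj
            exact hd k ((hC _ _).2 ⟨t, by rw [hk]; exact ht⟩)
          · exact h4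
        obtain ⟨s1, t1, hst⟩ := mem_pair.1 hmem
        refine ⟨(algebraMap ℂ K s1 + algebraMap ℂ K t1 * s) /
          (algebraMap ℂ K (α i) + algebraMap ℂ K (α j) * s), ?_, ?_⟩
        · have hE : ∀ t : ℂ, algebraMap ℂ K t ∈ IntermediateField.adjoin ℂ {s} := fun t =>
            (IntermediateField.adjoin ℂ {s}).algebraMap_mem t
          exact div_mem (add_mem (hE _) (mul_mem (hE _) hsE))
            (add_mem (hE _) (mul_mem (hE _) hsE))
        · rw [Finset.prod_eq_one fun k _ => by rw [if_neg (hd k), zpow_zero], mul_one, ← hdda,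
            ← hst, lf_add, lf_smul, lf_smul, ← ha, ← hb, hs]
          field_simp
    choose g hg hgd using hfac
    have h4 : z ^ M = (∏ k, (u k / dd) ^ (∑ d ∈ CC (κ k), β d)) * ∏ d, g d ^ β d := by
      have h5 : ∏ d, lf (X.ℓ d) x ^ β d = ∏ d, (lf (X.ℓ d) x / dd) ^ β d := by
        have h6 : ∏ d : Fin q, dd ^ β d = 1 := by
          have h7 : ∀ T : Finset (Fin q), ∏ d ∈ T, dd ^ β d = dd ^ (∑ d ∈ T, β d) := by
            intro T
            induction T using Finset.induction_on with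
            | empty => simp
            | insert a T ha ih => rw [Finset.prod_insert ha, Finset.sum_insert ha, ih,
                zpow_add₀ hdd0]
          rw [h7, h2, zpow_zero]
        simp only [div_zpow]
        rw [Finset.prod_div_distrib, h6, div_one]
      rw [h1, h5]
      have h6 : ∀ d, (lf (X.ℓ d) x / dd) ^ β d =
          (∏ k, (u k / dd) ^ ((if d ∈ CC (κ k) then (1 : ℤ) else 0) * β d)) * g d ^ β d := by
        intro d
        rw [hgd, mul_zpow, mul_comm, ← Finset.prod_zpow]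
        congr 1
        exact Finset.prod_congr rfl fun k _ => (zpow_mul _ _ _).symm
      rw [Finset.prod_congr rfl fun d _ => h6 d, Finset.prod_mul_distrib, Finset.prod_comm]
      congr 1
      refine Finset.prod_congr rfl fun k _ => ?_
      have h7 : ∀ T : Finset (Fin q), ∏ d ∈ T, (u k / dd) ^
          ((if d ∈ CC (κ k) then (1 : ℤ) else 0) * β d) =
          (u k / dd) ^ (∑ d ∈ T, (if d ∈ CC (κ k) then (1 : ℤ) else 0) * β d) := by
        intro T
        induction T using Finset.induction_on with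
        | empty => simp
        | insert a T ha ih => rw [Finset.prod_insert ha, Finset.sum_insert ha, ih,
            zpow_add₀ (div_ne_zero (hu0 k) hdd0)]
      rw [h7]
      congr 1
      simp only [ite_mul, one_mul, zero_mul]
      rw [← Finset.sum_filter]
      congr 1
      ext d
      simp
    refine ⟨M, Fin.snoc (α := fun _ => ℤ) b' 0, (∏ d, g d ^ β d) ^ (n + 3), hMpos,
      pow_mem (prod_mem fun d _ => zpow_mem (hg d) _) _, ?_⟩
    have h6 : ∏ k, aeval Z (lam k) ^ ((M : ℤ) * (Fin.snoc (α := fun _ => ℤ) b' 0 :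
        Fin (n + 3) → ℤ) k) = ∏ k : Fin (n + 2), (u k / dd) ^ ((M : ℤ) * b' k) := by
      rw [Fin.prod_univ_castSucc, hlast, map_one, one_zpow, mul_one]
      refine Finset.prod_congr rfl fun k _ => ?_
      rw [hcast, hl1a, Fin.snoc_castSucc]
    rw [h6, pow_mul, h4, mul_pow, ← Finset.prod_pow]
    congr 1
    refine Finset.prod_congr rfl fun k _ => ?_
    rw [← zpow_natCast, ← zpow_mul]
    congr 1
    have h5 := hb' k
    rw [← h5]
    push_cast
    ring

end

end Pool.Agent.TH122.PA
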