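import Pool.Agent.TH152.AC.Dual

/-!
Systems of exchanges of minimal size for arrangements without a spanning circuit.
-/

set_option autoImplicit false

open Pool.Agent.W602.Cov Module Pool.Agent.TH152.AC

namespace Pool.Agent.TH122.PA

variable {n q : ℕ} {ℓ : Fin q → Form n} {b : Basis (Fin (n + 1)) ℂ (Form n)}
  {B : Fin (n + 1) → Fin q}

/-- the support of a form -/
noncomputable def sp (b : Basis (Fin (n + 1)) ℂ (Form n)) (φ : Form n) : Finset (Fin (n + 1)) := by
  classical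
  exact Finset.univ.filter fun a => b.repr φ a ≠ 0

theorem mem_sp {φ : Form n} {a : Fin (n + 1)} : a ∈ sp b φ ↔ b.repr φ a ≠ 0 := by
  classical
  unfold sp
  simp

/-- a system of exchanges which crosses each set -/
structure Cut (ℓ : Fin q → Form n) (b : Basis (Fin (n + 1)) ℂ (Form n))
    (T : Finset (Fin (n + 1) × Fin q)) : Prop where
  edge : ∀ p ∈ T, p.1 ∈ sp b (ℓ p.2)
  cut : ∀ J : Finset (Fin (n + 1)), J.Nonempty → J ≠ Finset.univ →
    ∃ p ∈ T, p.1 ∈ J ∧ ¬ sp b (ℓ p.2) ⊆ J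

theorem exists_cut (hr : ¬ Reducible ℓ) :
    ∃ T : Finset (Fin (n + 1) × Fin q), Cut ℓ b T ∧ T.card ≤ 2 * n := by
  classical
  have key : ∀ k : ℕ, k ≤ n → ∃ (U : Finset (Fin (n + 1))) (T : Finset (Fin (n + 1) × Fin q)),
      k + 1 ≤ U.card ∧ (∀ p ∈ T, p.1 ∈ sp b (ℓ p.2)) ∧
      (∀ J : Finset (Fin (n + 1)), (∃ a ∈ J, a ∈ U) → ¬ U ⊆ J →
        ∃ p ∈ T, p.1 ∈ J ∧ ¬ sp b (ℓ p.2) ⊆ J) ∧ T.card + 2 ≤ 2 * U.card := by
    intro k
    induction k with
    | zero =>
      intro _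
      refine ⟨{0}, ∅, by simp, by simp, ?_, by simp⟩
      rintro J ⟨a, haJ, haU⟩ hJ
      rw [Finset.mem_singleton] at haU
      subst haU
      exact absurd (Finset.singleton_subset_iff.2 haJ) hJ
    | succ k ih =>
      intro hk
      obtain ⟨U, T, h1, h2, h3, h4⟩ := ih (by omega)
      by_cases hU : U = Finset.univ
      · refine ⟨U, T, ?_, h2, h3, h4⟩
        rw [hU, Finset.card_univ, Fintype.card_fin]
        omega
      · have hne : (U : Set (Fin (n + 1))).Nonempty := by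
          have : U.Nonempty := Finset.card_pos.1 (by omega)
          exact_mod_cast this
        obtain ⟨f, ⟨a0, ha0U, ha0⟩, a1, ha1U, ha1⟩ := Pool.Agent.W392.CG.cross ℓ b hr
          (U : Set (Fin (n + 1))) hne (by
            rw [Set.nonempty_compl]
            intro hc
            apply hU
            ext a
            have : a ∈ (U : Set (Fin (n + 1))) := by rw [hc]; trivial
            simpa using this)
        have ha0U' : a0 ∈ U := by simpa using ha0U
        have ha1U' : a1 ∉ U := by simpa using ha1U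
        obtain ⟨N, hN⟩ : ∃ N, N = sp b (ℓ f) \ U := ⟨_, rfl⟩
        have ha1N : a1 ∈ N := by
          rw [hN, Finset.mem_sdiff]
          exact ⟨mem_sp.2 ha1, ha1U'⟩
        have hNsp : ∀ a ∈ N, a ∈ sp b (ℓ f) ∧ a ∉ U := by
          intro a ha
          rw [hN, Finset.mem_sdiff] at ha
          exact ha
        have hdisj : Disjoint U N := by
          rw [Finset.disjoint_left]
          intro a ha ha'
          exact (hNsp a ha').2 ha
        have hNpos : 1 ≤ N.card := Finset.card_pos.2 ⟨a1, ha1N⟩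
        obtain ⟨E, hE⟩ : ∃ E : Finset (Fin (n + 1) × Fin q),
          E = (insert a0 N).image (fun a => (a, f)) := ⟨_, rfl⟩
        have hEcard : E.card ≤ N.card + 1 := by
          rw [hE]
          exact Finset.card_image_le.trans (Finset.card_insert_le _ _)
        have hEmem : ∀ a, a = a0 ∨ a ∈ N → (a, f) ∈ E := by
          intro a ha
          rw [hE, Finset.mem_image]
          exact ⟨a, Finset.mem_insert.2 ha, rfl⟩
        refine ⟨U ∪ N, T ∪ E, ?_, ?_, ?_, ?_⟩
        · rw [Finset.card_union_of_disjoint hdisj]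
          omega
        · intro p hp
          rcases Finset.mem_union.1 hp with hp | hp
          · exact h2 p hp
          · rw [hE, Finset.mem_image] at hp
            obtain ⟨a, ha, rfl⟩ := hp
            rcases Finset.mem_insert.1 ha with rfl | ha
            · exact mem_sp.2 ha0
            · exact (hNsp a ha).1
        · rintro J ⟨a, haJ, haU⟩ hJ
          by_cases hJU : ∃ a ∈ J, a ∈ U
          · by_cases hUJ : U ⊆ J
            · refine ⟨(a0, f), Finset.mem_union_right _ (hEmem a0 (Or.inl rfl)), hUJ ha0U', ?_⟩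
              intro hsub
              apply hJ
              intro c hc
              rcases Finset.mem_union.1 hc with hc | hc
              · exact hUJ hc
              · exact hsub (hNsp c hc).1
            · obtain ⟨p, hp, hp2⟩ := h3 J hJU hUJ
              exact ⟨p, Finset.mem_union_left _ hp, hp2⟩
          · push Not at hJU
            have haN : a ∈ N := by
              rcases Finset.mem_union.1 haU with h | h
              · exact absurd h (hJU a haJ)
              · exact h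
            exact ⟨(a, f), Finset.mem_union_right _ (hEmem a (Or.inr haN)), haJ,
              fun hsub => hJU a0 (hsub (mem_sp.2 ha0)) ha0U'⟩
        · have h5 := Finset.card_union_le T E
          rw [Finset.card_union_of_disjoint hdisj]
          omega
  obtain ⟨U, T, h1, h2, h3, h4⟩ := key n le_rfl
  have hU : U = Finset.univ := by
    apply Finset.eq_univ_of_card
    have h5 := Finset.card_le_univ U
    rw [Fintype.card_fin] at h5 ⊢
    omega
  subst hU
  refine ⟨T, ⟨h2, fun J hJ hJ' => h3 J ?_ ?_⟩, ?_⟩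
  · obtain ⟨a, ha⟩ := hJ
    exact ⟨a, ha, Finset.mem_univ a⟩
  · intro h
    exact hJ' (Finset.univ_subset_iff.1 h)
  · rw [Finset.card_univ, Fintype.card_fin] at h4
    omega

theorem exists_min_cut (hr : ¬ Reducible ℓ) :
    ∃ T : Finset (Fin (n + 1) × Fin q), Cut ℓ b T ∧ T.card ≤ 2 * n ∧
      ∀ T', Cut ℓ b T' → T.card ≤ T'.card := by
  classical
  obtain ⟨T0, h1, h2⟩ := exists_cut (b := b) hr
  have hex : ∃ k, ∃ T, Cut ℓ b T ∧ T.card = k := ⟨_, T0, h1, rfl⟩
  obtain ⟨T, hT, hTk⟩ := Nat.find_spec hex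
  refine ⟨T, hT, ?_, fun T' hT' => ?_⟩
  · rw [hTk]
    exact (Nat.find_min' hex ⟨T0, h1, rfl⟩).trans h2
  · rw [hTk]
    exact Nat.find_min' hex ⟨T', hT', rfl⟩

/-- a violated set after removing exchanges -/
theorem exists_closed {T T' : Finset (Fin (n + 1) × Fin q)}
    (hmin : ∀ T', Cut ℓ b T' → T.card ≤ T'.card) (hT' : ∀ p ∈ T', p.1 ∈ sp b (ℓ p.2))
    (hcard : T'.card < T.card) : ∃ J : Finset (Fin (n + 1)), J.Nonempty ∧ J ≠ Finset.univ ∧
      ∀ p ∈ T', p.1 ∈ J → sp b (ℓ p.2) ⊆ J := by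
  by_contra hcon
  push Not at hcon
  have h1 : Cut ℓ b T' := ⟨hT', fun J h1 h2 => by
    obtain ⟨p, hp, hp1, hp2⟩ := hcon J h1 h2
    exact ⟨p, hp, hp1, hp2⟩⟩
  have := hmin T' h1
  omega

/-- the negative exchanges -/
def ng (B : Fin (n + 1) → Fin q) (T : Finset (Fin (n + 1) × Fin q)) (F : Finset (Fin q)) :
    Finset (Fin (n + 1) × Fin q) := T.filter fun p => B p.1 ∉ F ∧ p.2 ∈ F

/-- the positive exchanges -/
def ps (B : Fin (n + 1) → Fin q) (T : Finset (Fin (n + 1) × Fin q)) (F : Finset (Fin q)) :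
    Finset (Fin (n + 1) × Fin q) := T.filter fun p => B p.1 ∈ F ∧ p.2 ∉ F

theorem mem_ng {T : Finset (Fin (n + 1) × Fin q)} {F : Finset (Fin q)} {p : Fin (n + 1) × Fin q} :
    p ∈ ng B T F ↔ p ∈ T ∧ B p.1 ∉ F ∧ p.2 ∈ F := by
  unfold ng
  rw [Finset.mem_filter]

theorem mem_ps {T : Finset (Fin (n + 1) × Fin q)} {F : Finset (Fin q)} {p : Fin (n + 1) × Fin q} :
    p ∈ ps B T F ↔ p ∈ T ∧ B p.1 ∈ F ∧ p.2 ∉ F := by
  unfold ps
  rw [Finset.mem_filter]

/-- the part of the basis in `F` -/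
def bp (B : Fin (n + 1) → Fin q) (F : Finset (Fin q)) : Finset (Fin (n + 1)) :=
  Finset.univ.filter fun a => B a ∈ F

theorem mem_bp {F : Finset (Fin q)} {a : Fin (n + 1)} : a ∈ bp B F ↔ B a ∈ F := by
  unfold bp
  rw [Finset.mem_filter]
  simp

/-- the structure of a set of deficiency one -/
theorem def_one (hb : ∀ a, b a = ℓ (B a)) {F : Finset (Fin q)}
    (hdef : rk ℓ F = (bp B F).card + 1) : ∃ D : Finset (Fin (n + 1)), (∀ a ∈ D, B a ∉ F) ∧
      ∀ f ∈ F, ∀ a, B a ∉ F → a ∈ sp b (ℓ f) → D ⊆ sp b (ℓ f) ∧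
        ∀ c ∈ sp b (ℓ f), B c ∉ F → c ∈ D := by
  classical
  have h1 : finrank ℂ (Submodule.span ℂ (b '' {a | B a ∈ F})) = (bp B F).card :=
    finrank_part hb F
  have hW0 : Submodule.span ℂ (b '' {a | B a ∈ F}) ≤
      Submodule.span ℂ (ℓ '' (F : Set (Fin q))) := by
    rw [Submodule.span_le]
    rintro _ ⟨a, ha, rfl⟩
    rw [hb a]
    exact Submodule.subset_span ⟨B a, ha, rfl⟩
  have hmemW : ∀ φ : Form n, φ ∈ Submodule.span ℂ (b '' {a | B a ∈ F}) ↔
      ∀ a ∈ sp b φ, B a ∈ F := by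
    intro φ
    rw [b.mem_span_image]
    constructor
    · intro h a ha
      exact h (Finsupp.mem_support_iff.2 (mem_sp.1 ha))
    · intro h a ha
      exact h a (mem_sp.2 (Finsupp.mem_support_iff.1 ha))
  by_cases hex : ∃ f ∈ F, ∃ a, B a ∉ F ∧ a ∈ sp b (ℓ f)
  · obtain ⟨f0, hf0, a0, ha0, ha0'⟩ := hex
    have hf0W : ℓ f0 ∉ Submodule.span ℂ (b '' {a | B a ∈ F}) := by
      rw [hmemW]
      intro h
      exact ha0 (h a0 ha0')
    -- the span of `F`
    have hspan : Submodule.span ℂ (b '' {a | B a ∈ F}) ⊔ Submodule.span ℂ {ℓ f0} =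
        Submodule.span ℂ (ℓ '' (F : Set (Fin q))) := by
      apply Submodule.eq_of_le_of_finrank_le
      · refine sup_le hW0 ?_
        rw [Submodule.span_singleton_le_iff_mem]
        exact Submodule.subset_span ⟨f0, hf0, rfl⟩
      · have h2 : Submodule.span ℂ (b '' {a | B a ∈ F}) <
            Submodule.span ℂ (b '' {a | B a ∈ F}) ⊔ Submodule.span ℂ {ℓ f0} := by
          refine lt_of_le_of_ne le_sup_left fun he => hf0W ?_
          rw [he]
          exact (le_sup_right : Submodule.span ℂ {ℓ f0} ≤ _)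
            (Submodule.mem_span_singleton_self _)
        have h3 := Submodule.finrank_lt_finrank_of_lt h2
        rw [h1] at h3
        have h4 : finrank ℂ (Submodule.span ℂ (ℓ '' (F : Set (Fin q)))) = (bp B F).card + 1 := hdef
        omega
    refine ⟨(sp b (ℓ f0)).filter fun a => B a ∉ F, ?_, ?_⟩
    · intro a ha
      exact (Finset.mem_filter.1 ha).2
    · intro f hf a ha ha'
      have h2 : ℓ f ∈ Submodule.span ℂ (b '' {a | B a ∈ F}) ⊔ Submodule.span ℂ {ℓ f0} := by
        rw [hspan]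
        exact Submodule.subset_span ⟨f, hf, rfl⟩
      obtain ⟨φ1, hφ1, φ2, hφ2, hφ⟩ := Submodule.mem_sup.1 h2
      obtain ⟨t, rfl⟩ := Submodule.mem_span_singleton.1 hφ2
      rw [hmemW] at hφ1
      have hcoef : ∀ c, B c ∉ F → b.repr (ℓ f) c = t * b.repr (ℓ f0) c := by
        intro c hc
        have h3 : b.repr φ1 c = 0 := by
          by_contra h4
          exact hc (hφ1 c (mem_sp.2 h4))
        rw [← hφ, map_add, map_smul, Finsupp.add_apply, Finsupp.smul_apply, h3, zero_add,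
          smul_eq_mul]
      have ht : t ≠ 0 := by
        rintro rfl
        have h3 := hcoef a ha
        rw [zero_mul] at h3
        exact mem_sp.1 ha' h3
      refine ⟨fun c hc => ?_, fun c hc hcF => ?_⟩
      · rw [Finset.mem_filter] at hc
        rw [mem_sp, hcoef c hc.2]
        exact mul_ne_zero ht (mem_sp.1 hc.1)
      · rw [Finset.mem_filter]
        refine ⟨?_, hcF⟩
        rw [mem_sp]
        intro h0
        have h3 := mem_sp.1 hc
        rw [hcoef c hcF, h0, mul_zero] at h3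
        exact h3 rfl
  · push Not at hex
    exact ⟨∅, by simp, fun f hf a ha ha' => absurd ha' (hex f hf a ha)⟩

/-- two negative exchanges of the same element -/
theorem ng_le_bp (hb : ∀ a, b a = ℓ (B a)) {T : Finset (Fin (n + 1) × Fin q)} (hT : Cut ℓ b T)
    (hmin : ∀ T', Cut ℓ b T' → T.card ≤ T'.card) {F : Finset (Fin q)}
    (hdef : rk ℓ F = (bp B F).card + 1) {p1 p2 : Fin (n + 1) × Fin q} (hp1 : p1 ∈ ng B T F)
    (hp2 : p2 ∈ ng B T F) (hne : p1 ≠ p2) (h12 : p1.1 = p2.1) :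
    (ng B T F).card ≤ (bp B F).card := by
  classical
  obtain ⟨D, hD1, hD2⟩ := def_one hb hdef
  have hmem : ∀ p ∈ ng B T F, p ∈ T ∧ p.1 ∈ D ∧ D ⊆ sp b (ℓ p.2) ∧
      ∀ c ∈ sp b (ℓ p.2), B c ∉ F → c ∈ D := by
    intro p hp
    obtain ⟨h1, h2, h3⟩ := mem_ng.1 hp
    have h4 := hT.edge p h1
    obtain ⟨h5, h6⟩ := hD2 p.2 h3 p.1 h2 h4
    exact ⟨h1, h6 _ h4 h2, h5, h6⟩
  -- a private element
  have hfin : ∀ p ∈ ng B T F, ∀ J : Finset (Fin (n + 1)), D ⊆ J → ¬ sp b (ℓ p.2) ⊆ J →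
      (∀ p' ∈ ng B T F, p' ≠ p → sp b (ℓ p'.2) ⊆ J) →
      ∃ e ∈ bp B F, e ∈ sp b (ℓ p.2) ∧ ∀ p' ∈ ng B T F, p' ≠ p → e ∉ sp b (ℓ p'.2) := by
    intro p hp J hDJ hsub hall
    obtain ⟨e, he, heJ⟩ := Finset.not_subset.1 hsub
    refine ⟨e, ?_, he, fun p' hp' hpp he' => heJ (hall p' hp' hpp he')⟩
    rw [mem_bp]
    by_contra heF
    exact heJ (hDJ ((hmem p hp).2.2.2 e he heF))
  have hpriv : ∀ p ∈ ng B T F, ∃ e ∈ bp B F, e ∈ sp b (ℓ p.2) ∧
      ∀ p' ∈ ng B T F, p' ≠ p → e ∉ sp b (ℓ p'.2) := by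
    intro p hp
    obtain ⟨hpT, hpD, hpDs, -⟩ := hmem p hp
    by_cases hcase : ∃ p' ∈ ng B T F, p' ≠ p ∧ p'.1 = p.1
    · obtain ⟨p', hp', hpp', hp'1⟩ := hcase
      obtain ⟨J, hJ1, hJ2, hJ3⟩ := exists_closed hmin (T' := T.erase p) (fun p'' hp'' =>
        hT.edge p'' (Finset.mem_of_mem_erase hp'')) (Finset.card_erase_lt_of_mem hpT)
      obtain ⟨p'', hp''T, hp''J, hp''s⟩ := hT.cut J hJ1 hJ2
      have h1 : p'' = p := by
        by_contra h2
        exact hp''s (hJ3 p'' (Finset.mem_erase.2 ⟨h2, hp''T⟩) hp''J)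
      subst h1
      have hDJ : D ⊆ J := (hmem p' hp').2.2.1.trans (hJ3 p' (Finset.mem_erase.2
        ⟨hpp', (hmem p' hp').1⟩) (by rw [hp'1]; exact hp''J))
      refine hfin p'' hp J hDJ hp''s fun p3 hp3 hne3 => ?_
      exact hJ3 p3 (Finset.mem_erase.2 ⟨hne3, (hmem p3 hp3).1⟩) (hDJ (hmem p3 hp3).2.1)
    · push Not at hcase
      have hpne1 : p ≠ p1 := by
        rintro rfl
        exact hcase p2 hp2 hne.symm h12.symm
      have hpne2 : p ≠ p2 := by
        rintro rfl
        exact hcase p1 hp1 hne h12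
      obtain ⟨T2, hT2⟩ : ∃ T2, T2 = insert (p.1, p2.2) ((T.erase p).erase p2) := ⟨_, rfl⟩
      have hT2e : ∀ p'' ∈ T2, p''.1 ∈ sp b (ℓ p''.2) := by
        intro p'' hp''
        rw [hT2, Finset.mem_insert] at hp''
        rcases hp'' with rfl | hp''
        · exact (hmem p2 hp2).2.2.1 hpD
        · exact hT.edge p'' (Finset.mem_of_mem_erase (Finset.mem_of_mem_erase hp''))
      have hcard : T2.card < T.card := by
        have h1 : p2 ∈ T.erase p := Finset.mem_erase.2 ⟨hpne2.symm, (hmem p2 hp2).1⟩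
        have h2 := Finset.card_erase_lt_of_mem hpT
        have h3 := Finset.card_erase_lt_of_mem h1
        rw [hT2]
        exact lt_of_le_of_lt (Finset.card_insert_le _ _) (by omega)
      obtain ⟨J, hJ1, hJ2, hJ3⟩ := exists_closed hmin hT2e hcard
      obtain ⟨p'', hp''T, hp''J, hp''s⟩ := hT.cut J hJ1 hJ2
      have hin : ∀ p3 ∈ T, p3 ≠ p → p3 ≠ p2 → p3 ∈ T2 := by
        intro p3 h3 h4 h5
        rw [hT2]
        exact Finset.mem_insert_of_mem (Finset.mem_erase.2 ⟨h5, Finset.mem_erase.2 ⟨h4, h3⟩⟩)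
      have hpJ : p.1 ∈ J := by
        by_cases h1 : p'' = p
        · rw [← h1]
          exact hp''J
        by_cases h2 : p'' = p2
        · have h3 : sp b (ℓ p1.2) ⊆ J := hJ3 p1 (hin p1 (hmem p1 hp1).1 hpne1.symm hne) (by
            rw [h12, ← h2]
            exact hp''J)
          exact h3 ((hmem p1 hp1).2.2.1 hpD)
        · exact absurd (hJ3 p'' (hin p'' hp''T h1 h2) hp''J) hp''s
      have hs2 : sp b (ℓ p2.2) ⊆ J := hJ3 (p.1, p2.2) (by
        rw [hT2]
        exact Finset.mem_insert_self _ _) hpJ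
      have hDJ : D ⊆ J := (hmem p2 hp2).2.2.1.trans hs2
      have h1 : p'' = p := by
        by_contra h2
        by_cases h3 : p'' = p2
        · rw [h3] at hp''s
          exact hp''s hs2
        · exact hp''s (hJ3 p'' (hin p'' hp''T h2 h3) hp''J)
      rw [h1] at hp''s
      refine hfin p hp J hDJ hp''s fun p3 hp3 hne3 => ?_
      by_cases h4 : p3 = p2
      · rw [h4]
        exact hs2
      · exact hJ3 p3 (hin p3 (hmem p3 hp3).1 hne3 h4) (hDJ (hmem p3 hp3).2.1)
  choose! g hg1 hg2 hg3 using hpriv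
  refine Finset.card_le_card_of_injOn g (fun p hp => hg1 p hp) ?_
  intro p hp p' hp' hpp
  by_contra hne'
  have h1 := hg3 p hp p' hp' (fun h => hne' h.symm)
  apply h1
  have h2 := hg2 p' hp'
  rw [← hpp] at h2
  exact h2

end Pool.Agent.TH122.PA
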