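import Pool.Agent.TH122.PA.Sec

/-!
Arrangements which contain `n + 2` hyperplanes in general position: ranks and weights.
-/

set_option autoImplicit false

open Pool.Agent.W602.Cov Pool.Agent.TH152.AC Module

namespace Pool.Agent.TH122.PA

variable {n q : ℕ} {ℓ : Fin q → Form n}

/-- the hyperplanes `c k` are in general position -/
def Circ (ℓ : Fin q → Form n) (c : Fin (n + 2) → Fin q) : Prop :=
  ∀ j : Fin (n + 2), LinearIndependent ℂ fun a => ℓ (c (j.succAbove a))

/-- the span of a part of them -/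
def W (ℓ : Fin q → Form n) (c : Fin (n + 2) → Fin q) (A : Finset (Fin (n + 2))) :
    Submodule ℂ (Form n) := Submodule.span ℂ ((fun k => ℓ (c k)) '' (A : Set (Fin (n + 2))))

/-- the indices of the hyperplanes of the circuit in `F` -/
def CF (c : Fin (n + 2) → Fin q) (F : Finset (Fin q)) : Finset (Fin (n + 2)) :=
  Finset.univ.filter fun k => c k ∈ F

theorem mem_CF {c : Fin (n + 2) → Fin q} {F : Finset (Fin q)} {k : Fin (n + 2)} :
    k ∈ CF c F ↔ c k ∈ F := by
  unfold CF
  rw [Finset.mem_filter]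
  simp

variable {c : Fin (n + 2) → Fin q}

theorem indepOn (hc : Circ ℓ c) {A : Finset (Fin (n + 2))} (hA : A ≠ Finset.univ) :
    LinearIndepOn ℂ (fun k => ℓ (c k)) (A : Set (Fin (n + 2))) := by
  obtain ⟨j, hj⟩ : ∃ j, j ∉ A := by
    by_contra hcon
    push Not at hcon
    exact hA (Finset.eq_univ_of_forall hcon)
  have h1 : LinearIndepOn ℂ (fun k => ℓ (c k)) (Set.range j.succAbove) :=
    (linearIndepOn_range_iff Fin.succAbove_right_injective _).2 (hc j)
  refine h1.mono fun k hk => ?_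
  have hkj : k ≠ j := by
    rintro rfl
    exact hj hk
  exact Fin.exists_succAbove_eq hkj

theorem finrank_W (hc : Circ ℓ c) {A : Finset (Fin (n + 2))} (hA : A ≠ Finset.univ) :
    finrank ℂ (W ℓ c A) = A.card := by
  have h1 := indepOn hc hA
  have h2 := finrank_span_eq_card h1.linearIndependent
  unfold W
  rw [Set.image_eq_range]
  rw [h2]
  simp

theorem notMem_W (hc : Circ ℓ c) {A : Finset (Fin (n + 2))} {a : Fin (n + 2)}
    (hA : insert a A ≠ Finset.univ) (ha : a ∉ A) : ℓ (c a) ∉ W ℓ c A := by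
  have h1 := indepOn hc hA
  rw [Finset.coe_insert] at h1
  exact ((linearIndepOn_insert (by exact_mod_cast ha)).1 h1).2

theorem W_le {F : Finset (Fin q)} : W ℓ c (CF c F) ≤ Submodule.span ℂ (ℓ '' (F : Set (Fin q))) := by
  unfold W
  rw [Submodule.span_le]
  rintro _ ⟨k, hk, rfl⟩
  exact Submodule.subset_span ⟨c k, mem_CF.1 hk, rfl⟩

theorem rk_lt {F : Finset (Fin q)} (hF : Proper ℓ F) : rk ℓ F ≤ n := by
  have h1 := Submodule.finrank_lt (lt_top_iff_ne_top.2 hF.2).ne
  rw [finrank_form] at h1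
  unfold rk
  omega

theorem card_props (hc : Circ ℓ c) {F : Finset (Fin q)} (hF : Proper ℓ F) :
    (CF c F).card ≤ n ∧ (CF c F).card ≤ rk ℓ F := by
  have hne : CF c F ≠ Finset.univ := by
    intro hu
    apply hF.2
    rw [eq_top_iff]
    have h1 := finrank_W hc (A := Finset.univ.erase 0) (by
      intro h
      have : (0 : Fin (n + 2)) ∈ (Finset.univ.erase 0 : Finset (Fin (n + 2))) := by
        rw [h]
        exact Finset.mem_univ _
      simp at this)
    have h2 : W ℓ c (Finset.univ.erase 0) = ⊤ := by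
      apply Submodule.eq_top_of_finrank_eq
      rw [h1, finrank_form, Finset.card_erase_of_mem (Finset.mem_univ _), Finset.card_univ,
        Fintype.card_fin]
      rfl
    rw [← h2]
    refine le_trans ?_ (W_le (c := c))
    rw [hu]
    exact Submodule.span_mono (Set.image_mono (by simp))
  have h1 := finrank_W hc hne
  have h2 := Submodule.finrank_mono (W_le (ℓ := ℓ) (c := c) (F := F))
  rw [h1] at h2
  exact ⟨h2.trans (rk_lt hF), h2⟩

theorem ne_univ {A : Finset (Fin (n + 2))} (h : A.card ≤ n + 1) : A ≠ Finset.univ := by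
  rintro rfl
  rw [Finset.card_univ, Fintype.card_fin] at h
  omega

theorem rk_or (hc : Circ ℓ c) {F : Finset (Fin q)} (hF : Proper ℓ F) :
    (rk ℓ F = (CF c F).card ∧ Submodule.span ℂ (ℓ '' (F : Set (Fin q))) = W ℓ c (CF c F)) ∨
      (CF c F).card + 1 ≤ rk ℓ F := by
  obtain ⟨h1, h2⟩ := card_props hc hF
  have h3 := finrank_W hc (ne_univ (h1.trans (Nat.le_succ n)))
  rcases Nat.lt_or_ge (CF c F).card (rk ℓ F) with h4 | h4
  · exact Or.inr h4
  · left
    have h5 : rk ℓ F = (CF c F).card := le_antisymm h4 h2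
    refine ⟨h5, ?_⟩
    symm
    apply Submodule.eq_of_le_of_finrank_eq W_le
    rw [h3, ← h5]
    rfl

theorem rk_succ (hc : Circ ℓ c) {F : Finset (Fin q)} (hF : Proper ℓ F) {e : Fin q} (he : e ∈ F)
    (heW : ℓ e ∉ W ℓ c (CF c F)) : (CF c F).card + 1 ≤ rk ℓ F := by
  rcases rk_or hc hF with ⟨-, h⟩ | h
  · exfalso
    apply heW
    rw [← h]
    exact Submodule.subset_span ⟨e, he, rfl⟩
  · exact h

/-- not proportional to the hyperplanes of the circuit -/
def Npar (ℓ : Fin q → Form n) (c : Fin (n + 2) → Fin q) (e : Fin q) : Prop :=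
  ∀ (k : Fin (n + 2)) (t : ℂ), ℓ e ≠ t • ℓ (c k)

theorem two_le {A : Finset (Fin (n + 2))} {e : Fin q} (hℓ : ℓ e ≠ 0) (he : Npar ℓ c e)
    (heW : ℓ e ∈ W ℓ c A) : 2 ≤ A.card := by
  by_contra hcon
  have h1 : A.card ≤ 1 := by omega
  rcases Nat.lt_or_ge 0 A.card with h2 | h2
  · obtain ⟨k, hk⟩ := Finset.card_eq_one.1 (le_antisymm h1 h2)
    rw [hk] at heW
    unfold W at heW
    rw [Finset.coe_singleton, Set.image_singleton] at heW
    obtain ⟨t, ht⟩ := Submodule.mem_span_singleton.1 heW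
    exact he k t ht.symm
  · have h3 : A = ∅ := Finset.card_eq_zero.1 (by omega)
    rw [h3] at heW
    unfold W at heW
    rw [Finset.coe_empty, Set.image_empty, Submodule.span_empty, Submodule.mem_bot] at heW
    exact hℓ heW

theorem mem_pair {i j : Fin (n + 2)} {φ : Form n} :
    φ ∈ W ℓ c {i, j} ↔ ∃ s t : ℂ, s • ℓ (c i) + t • ℓ (c j) = φ := by
  unfold W
  rw [Finset.coe_insert, Finset.coe_singleton, Set.image_insert_eq, Set.image_singleton,
    Submodule.mem_span_pair]

/-- a point of the pencil lies in few spans -/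
theorem mem_W_of (hc : Circ ℓ c) {i j : Fin (n + 2)} (hij : i ≠ j) {e : Fin q}
    (he : Npar ℓ c e) (hep : ℓ e ∈ W ℓ c {i, j}) {A : Finset (Fin (n + 2))} (hA : A.card ≤ n)
    (heA : ℓ e ∈ W ℓ c A) : (i ∈ A ∧ j ∈ A) ∨ (A.card = n ∧ i ∉ A ∧ j ∉ A) := by
  classical
  obtain ⟨s, t, hst⟩ := mem_pair.1 hep
  have hs0 : s ≠ 0 := by
    rintro rfl
    rw [zero_smul, zero_add] at hst
    exact he j t hst.symm
  have ht0 : t ≠ 0 := by
    rintro rfl
    rw [zero_smul, add_zero] at hst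
    exact he i s hst.symm
  -- if one of the two is missing, the union is everything
  have key : ∀ (i j : Fin (n + 2)) (s t : ℂ), i ≠ j → s ≠ 0 → s • ℓ (c i) + t • ℓ (c j) = ℓ e →
      i ∉ A → insert i (insert j A) = Finset.univ := by
    intro i j s t hij hs hst hi
    by_contra hne
    have h1 : i ∉ insert j A := by
      rw [Finset.mem_insert, not_or]
      exact ⟨hij, hi⟩
    refine notMem_W hc hne h1 ?_
    have h2 : ℓ (c i) = s⁻¹ • (ℓ e - t • ℓ (c j)) := by
      rw [← hst, add_sub_cancel_right, smul_smul, inv_mul_cancel₀ hs, one_smul]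
    rw [h2]
    refine Submodule.smul_mem _ _ (Submodule.sub_mem _ ?_ (Submodule.smul_mem _ _ ?_))
    · refine Submodule.span_mono (Set.image_mono ?_) heA
      intro k hk
      exact Finset.mem_insert_of_mem hk
    · exact Submodule.subset_span ⟨j, Finset.mem_insert_self _ _, rfl⟩
  have hcard : ∀ i j : Fin (n + 2), i ∉ A → insert i (insert j A) = Finset.univ →
      A.card = n ∧ j ∉ A := by
    intro i j hi hu
    have h1 := congrArg Finset.card hu
    rw [Finset.card_univ, Fintype.card_fin] at h1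
    have h2 := Finset.card_insert_le i (insert j A)
    by_cases hj : j ∈ A
    · rw [Finset.insert_eq_of_mem hj] at h2 h1
      omega
    · have h3 := Finset.card_insert_of_notMem hj
      exact ⟨by omega, hj⟩
  by_cases hi : i ∈ A
  · by_cases hj : j ∈ A
    · exact Or.inl ⟨hi, hj⟩
    · exfalso
      exact (hcard j i hj (key j i t s hij.symm ht0 (by rw [add_comm]; exact hst) hj)).2 hi
  · obtain ⟨h1, h2⟩ := hcard i j hi (key i j s t hij hs0 hst hi)
    exact Or.inr ⟨h1, hi, h2⟩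

/-- weights on the circuit and on two more hyperplanes -/
def bt (c : Fin (n + 2) → Fin q) (w : Fin (n + 2) → ℕ) (e : Fin q) (γ : ℕ) (e' : Fin q)
    (γ' : ℕ) (i : Fin q) : ℕ :=
  (∑ k, if c k = i then w k else 0) + (if i = e then γ else 0) + (if i = e' then γ' else 0)

theorem bt_sum (c : Fin (n + 2) → Fin q) (w : Fin (n + 2) → ℕ) (e : Fin q) (γ : ℕ) (e' : Fin q)
    (γ' : ℕ) (F : Finset (Fin q)) : ∑ i ∈ F, bt c w e γ e' γ' i =
      (∑ k ∈ CF c F, w k) + (if e ∈ F then γ else 0) + (if e' ∈ F then γ' else 0) := by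
  classical
  unfold bt
  rw [Finset.sum_add_distrib, Finset.sum_add_distrib, Finset.sum_comm]
  congr 1
  · congr 1
    · unfold CF
      rw [Finset.sum_filter]
      refine Finset.sum_congr rfl fun k _ => ?_
      rw [Finset.sum_ite_eq]
    · rw [Finset.sum_ite_eq']
  · rw [Finset.sum_ite_eq']

theorem bt_total (c : Fin (n + 2) → Fin q) (w : Fin (n + 2) → ℕ) (e : Fin q) (γ : ℕ)
    (e' : Fin q) (γ' : ℕ) : ∑ i, bt c w e γ e' γ' i = (∑ k, w k) + γ + γ' := by
  rw [bt_sum]
  have h1 : CF c Finset.univ = Finset.univ := by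
    ext k
    rw [mem_CF]
    simp
  rw [h1, if_pos (Finset.mem_univ _), if_pos (Finset.mem_univ _)]

theorem sl_bt (T : ℕ) (c : Fin (n + 2) → Fin q) (w : Fin (n + 2) → ℕ) (e : Fin q) (γ : ℕ)
    (e' : Fin q) (γ' : ℕ) (F : Finset (Fin q)) : sl ℓ T (bt c w e γ e' γ') F =
      T * rk ℓ F - ∑ k ∈ CF c F, (w k : ℤ) - (if e ∈ F then (γ : ℤ) else 0) -
        (if e' ∈ F then (γ' : ℤ) else 0) := by
  unfold sl
  have h1 : ((∑ i ∈ F, bt c w e γ e' γ' i : ℕ) : ℤ) = _ := congrArg _ (bt_sum c w e γ e' γ' F)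
  push_cast at h1
  rw [h1]
  ring

theorem one_le_rk (hℓ : ∀ i, ℓ i ≠ 0) {F : Finset (Fin q)} (hF : F.Nonempty) : 1 ≤ rk ℓ F := by
  obtain ⟨i, hi⟩ := hF
  have h1 : Submodule.span ℂ {ℓ i} ≤ Submodule.span ℂ (ℓ '' (F : Set (Fin q))) :=
    Submodule.span_mono (Set.singleton_subset_iff.2 ⟨i, hi, rfl⟩)
  have h2 := Submodule.finrank_mono h1
  rw [finrank_span_singleton (hℓ i)] at h2
  exact h2

/-- the pencil type -/
def Pencil (ℓ : Fin q → Form n) (c : Fin (n + 2) → Fin q) (i j : Fin (n + 2)) : Prop :=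
  ∀ d, ¬ Npar ℓ c d ∨ ℓ d ∈ W ℓ c {i, j}

theorem exists_pair (hn : 3 ≤ n) (hc : Circ ℓ c) (hℓ : ∀ i, ℓ i ≠ 0) {e0 : Fin q}
    (he0 : Npar ℓ c e0) (hp : ¬ ∃ i j, i ≠ j ∧ Pencil ℓ c i j) :
    ∃ e e', Npar ℓ c e ∧ Npar ℓ c e' ∧
      ∀ a b, ¬ (ℓ e ∈ W ℓ c {a, b} ∧ ℓ e' ∈ W ℓ c {a, b}) := by
  classical
  by_contra hcon
  push Not at hcon
  obtain ⟨a, b, h1, -⟩ := hcon e0 e0 he0 he0
  have hab : a ≠ b := by
    rintro rfl
    have h2 := two_le (hℓ e0) he0 h1
    simp at h2
  refine hp ⟨a, b, hab, fun d => ?_⟩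
  by_cases hd : Npar ℓ c d
  · right
    obtain ⟨a', b', h2, h3⟩ := hcon e0 d he0 hd
    have hcard : ({a', b'} : Finset (Fin (n + 2))).card ≤ 2 := Finset.card_le_two
    rcases mem_W_of hc hab he0 h1 (by omega) h2 with ⟨h4, h5⟩ | ⟨h4, -, -⟩
    · have h6 : ({a, b} : Finset (Fin (n + 2))) = {a', b'} := by
        apply Finset.eq_of_subset_of_card_le
        · intro k hk
          rw [Finset.mem_insert, Finset.mem_singleton] at hk
          rcases hk with rfl | rfl
          · exact h4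
          · exact h5
        · rw [Finset.card_pair hab]
          exact hcard
      rw [h6]
      exact h3
    · omega
  · exact Or.inl hd

end Pool.Agent.TH122.PA
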