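import Pool.Agent.TH122.PA.Cut
import Pool.Agent.TH122.PA.Wt

/-!
Exchanges in arrangements without a spanning circuit.
-/

set_option autoImplicit false

open Pool.Agent.W602.Cov Module Pool.Agent.TH152.AC

namespace Pool.Agent.TH122.PA

variable {n q : ℕ} {ℓ : Fin q → Form n} {b : Basis (Fin (n + 1)) ℂ (Form n)}
  {B : Fin (n + 1) → Fin q}

theorem not_full (hNC : ¬ ∃ c, Circ ℓ c) (hb : ∀ a, b a = ℓ (B a)) (f : Fin q) :
    ∃ a, a ∉ sp b (ℓ f) := by
  by_contra hcon
  push Not at hcon
  apply hNC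
  refine ⟨Fin.cons f B, fun j => ?_⟩
  refine Fin.cases ?_ (fun a => ?_) j
  · have h1 : (fun a => ℓ ((Fin.cons f B : Fin (n + 2) → Fin q)
        ((0 : Fin (n + 2)).succAbove a))) = b := by
      funext a
      rw [Fin.zero_succAbove, Fin.cons_succ, hb]
    rw [h1]
    exact b.linearIndependent
  · have h1 := Pool.Agent.W392.CG.update_indep b (ℓ f) a (mem_sp.1 (hcon a))
    apply linearIndependent_of_top_le_span_of_card_eq_finrank
    · have h2 : Submodule.span ℂ (Set.range (Function.update (fun a' => b a') a (ℓ f))) = ⊤ :=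
        h1.span_eq_top_of_card_eq_finrank' (by rw [Fintype.card_fin, finrank_form])
      rw [← h2]
      apply Submodule.span_mono
      rintro _ ⟨a', rfl⟩
      by_cases h3 : a' = a
      · subst h3
        rw [Function.update_self]
        obtain ⟨k, hk⟩ := Fin.exists_succAbove_eq (x := (0 : Fin (n + 2))) (y := Fin.succ a')
          (Fin.succ_ne_zero _).symm
        refine ⟨k, ?_⟩
        simp only [hk, Fin.cons_zero]
      · rw [Function.update_of_ne h3]
        obtain ⟨k, hk⟩ := Fin.exists_succAbove_eq (x := Fin.succ a') (y := Fin.succ a)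
          (fun h => h3 (Fin.succ_injective _ h))
        refine ⟨k, ?_⟩
        simp only [hk, Fin.cons_succ, hb]
    · rw [Fintype.card_fin, finrank_form]

theorem no_twist (hNC : ¬ ∃ c, Circ ℓ c) (hb : ∀ a, b a = ℓ (B a)) {a0 a1 : Fin (n + 1)}
    (h01 : a0 ≠ a1) {g h : Fin q} (hg : ∀ d, d ∈ sp b (ℓ g) ↔ d = a0 ∨ d = a1)
    (hh : ∀ d, d ∈ sp b (ℓ h) ↔ d ≠ a0) : False := by
  classical
  have hB : LinearIndependent ℂ fun a => ℓ (B a) := by
    have : (fun a => ℓ (B a)) = b := by
      funext a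
      rw [hb]
    rw [this]
    exact b.linearIndependent
  have hg1 : b.repr (ℓ g) a1 ≠ 0 := mem_sp.1 ((hg a1).2 (Or.inr rfl))
  have h1 := Pool.Agent.W392.CG.update_indep b (ℓ g) a1 hg1
  have h2 : (fun a' => ℓ (Function.update B a1 g a')) =
      Function.update (fun a' => b a') a1 (ℓ g) := by
    funext a'
    by_cases ha : a' = a1
    · subst ha
      rw [Function.update_self, Function.update_self]
    · rw [Function.update_of_ne ha, Function.update_of_ne ha, hb]
  obtain ⟨B', hB'⟩ : ∃ B' : Bases ℓ, B'.1 = Function.update B a1 g :=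
    ⟨⟨Function.update B a1 g, by rw [h2]; exact h1⟩, rfl⟩
  obtain ⟨d, hd⟩ := not_full (b := bas B') (B := B'.1) hNC (bas_apply B') h
  apply hd
  rw [mem_sp]
  obtain ⟨r, hrdef⟩ : ∃ r : Fin (n + 1) → ℂ, ∀ c, r c = (bas B').repr (ℓ h) c := ⟨_, fun _ => rfl⟩
  have hsum : ∑ c, r c • bas B' c = ℓ h := by
    have := (bas B').sum_repr (ℓ h)
    simp only [hrdef]
    exact this
  have hb1 : bas B' a1 = ℓ g := by
    rw [bas_apply, hB', Function.update_self]
  have hb2 : ∀ c, c ≠ a1 → bas B' c = b c := by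
    intro c hc
    rw [bas_apply, hB', Function.update_of_ne hc, hb]
  have hcoord : ∀ c, b.repr (ℓ h) c = r a1 * b.repr (ℓ g) c + (if c = a1 then 0 else r c) := by
    intro c
    rw [← hsum, ← Finset.add_sum_erase _ _ (Finset.mem_univ a1), map_add, Finsupp.add_apply,
      map_smul, Finsupp.smul_apply, smul_eq_mul, hb1]
    congr 1
    rw [map_sum, Finsupp.finset_sum_apply]
    have h3 : ∀ c' ∈ Finset.univ.erase a1, (b.repr (r c' • bas B' c')) c =
        if c' = c then r c' else 0 := by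
      intro c' hc'
      rw [hb2 c' (Finset.ne_of_mem_erase hc'), map_smul, Finsupp.smul_apply, b.repr_self,
        Finsupp.single_apply, smul_eq_mul]
      split_ifs <;> simp
    rw [Finset.sum_congr rfl h3, Finset.sum_ite_eq']
    by_cases hc : c = a1
    · rw [if_pos hc, if_neg]
      rw [hc]
      simp
    · rw [if_neg hc, if_pos]
      exact Finset.mem_erase.2 ⟨hc, Finset.mem_univ _⟩
  have hra1 : r a1 ≠ 0 := by
    intro h0
    have h3 := hcoord a1
    rw [h0, zero_mul, if_pos rfl, add_zero] at h3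
    exact mem_sp.1 ((hh a1).2 h01.symm) h3
  rw [← hrdef]
  by_cases hd1 : d = a1
  · rw [hd1]
    exact hra1
  by_cases hd0 : d = a0
  · intro h0
    have h3 := hcoord d
    rw [h0, if_neg hd1, add_zero, hd0] at h3
    have h4 : b.repr (ℓ h) a0 = 0 := by
      by_contra h5
      exact (hh a0).1 (mem_sp.2 h5) rfl
    rw [h4] at h3
    exact mul_ne_zero hra1 (mem_sp.1 ((hg a0).2 (Or.inl rfl))) h3.symm
  · intro h0
    have h3 := hcoord d
    have h4 : b.repr (ℓ g) d = 0 := by
      by_contra h5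
      rcases (hg d).1 (mem_sp.2 h5) with h6 | h6
      · exact hd0 h6
      · exact hd1 h6
    rw [h0, h4, mul_zero, if_neg hd1, add_zero] at h3
    exact mem_sp.1 ((hh d).2 hd0) h3

theorem gain_zero (hℓ : ∀ i, ℓ i ≠ 0) (hb : ∀ a, b a = ℓ (B a))
    {T : Finset (Fin (n + 1) × Fin q)} (hT : Cut ℓ b T) {F : Finset (Fin q)} (hF : Proper ℓ F)
    (hd : rk ℓ F = (bp B F).card) : 1 + (ng B T F).card ≤ (ps B T F).card := by
  have hsup : ∀ f ∈ F, sp b (ℓ f) ⊆ bp B F := by
    have h1 : finrank ℂ (Submodule.span ℂ (b '' {a | B a ∈ F})) = (bp B F).card :=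
      finrank_part hb F
    have heq : Submodule.span ℂ (b '' {a | B a ∈ F}) =
        Submodule.span ℂ (ℓ '' (F : Set (Fin q))) := by
      apply Submodule.eq_of_le_of_finrank_le
      · rw [Submodule.span_le]
        rintro _ ⟨a, ha, rfl⟩
        rw [hb a]
        exact Submodule.subset_span ⟨B a, ha, rfl⟩
      · rw [h1]
        exact hd.le
    intro f hf a ha
    have h2 : ℓ f ∈ Submodule.span ℂ (b '' {a | B a ∈ F}) := by
      rw [heq]
      exact Submodule.subset_span ⟨f, hf, rfl⟩
    rw [b.mem_span_image] at h2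
    exact mem_bp.2 (h2 (Finsupp.mem_support_iff.2 (mem_sp.1 ha)))
  have hng : ng B T F = ∅ := by
    apply Finset.eq_empty_of_forall_notMem
    intro p hp
    obtain ⟨h1, h2, h3⟩ := mem_ng.1 hp
    exact h2 (mem_bp.1 (hsup p.2 h3 (hT.edge p h1)))
  obtain ⟨⟨f, hf⟩, hFt⟩ := hF
  have hne : (bp B F).Nonempty := by
    have hsf : (sp b (ℓ f)).Nonempty := by
      by_contra h
      rw [Finset.not_nonempty_iff_eq_empty] at h
      apply hℓ f
      have h1 : b.repr (ℓ f) = 0 := by
        ext a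
        by_contra h2
        have h3 : a ∈ sp b (ℓ f) := mem_sp.2 h2
        rw [h] at h3
        exact absurd h3 (Finset.notMem_empty a)
      have h2 := congrArg b.repr.symm h1
      rwa [LinearEquiv.symm_apply_apply, map_zero] at h2
    obtain ⟨a, ha⟩ := hsf
    exact ⟨a, hsup f hf ha⟩
  have hnu : bp B F ≠ Finset.univ := by
    intro h
    apply hFt
    rw [eq_top_iff, ← b.span_eq]
    apply Submodule.span_mono
    rintro _ ⟨a, rfl⟩
    rw [hb a]
    exact ⟨B a, mem_bp.1 (by rw [h]; exact Finset.mem_univ a), rfl⟩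
  obtain ⟨p, hp, hp1, hp2⟩ := hT.cut _ hne hnu
  have h3 : 0 < (ps B T F).card := Finset.card_pos.2
    ⟨p, mem_ps.2 ⟨hp, mem_bp.1 hp1, fun h => hp2 (hsup p.2 h)⟩⟩
  rw [hng, Finset.card_empty]
  omega

theorem gain_one (hn : 1 ≤ n) (hNC : ¬ ∃ c, Circ ℓ c) (hb : ∀ a, b a = ℓ (B a))
    {T : Finset (Fin (n + 1) × Fin q)} (hT : Cut ℓ b T)
    (hmin : ∀ T', Cut ℓ b T' → T.card ≤ T'.card) {F : Finset (Fin q)} (hF : Proper ℓ F)
    (hd : rk ℓ F = (bp B F).card + 1) : (ng B T F).card ≤ (ps B T F).card + (n - 1) := by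
  classical
  by_cases hpair : ∃ p1 ∈ ng B T F, ∃ p2 ∈ ng B T F, p1 ≠ p2 ∧ p1.1 = p2.1
  · obtain ⟨p1, hp1, p2, hp2, hne, h12⟩ := hpair
    have h1 := ng_le_bp hb hT hmin hd hp1 hp2 hne h12
    have h2 := rk_lt hF
    omega
  push Not at hpair
  obtain ⟨D, hD1, hD2⟩ := def_one hb hd
  have hmem : ∀ p ∈ ng B T F, p.1 ∈ D ∧ D ⊆ sp b (ℓ p.2) := by
    intro p hp
    obtain ⟨h1, h2, h3⟩ := mem_ng.1 hp
    have h4 := hT.edge p h1
    obtain ⟨h5, h6⟩ := hD2 p.2 h3 p.1 h2 h4
    exact ⟨h6 _ h4 h2, h5⟩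
  have hcard : (ng B T F).card ≤ D.card := by
    refine Finset.card_le_card_of_injOn Prod.fst (fun p hp => (hmem p hp).1) ?_
    intro p hp p' hp' hpp
    by_contra hne
    exact hpair p hp p' hp' hne hpp
  by_contra hcon
  push Not at hcon
  have hng : n ≤ (ng B T F).card := by omega
  obtain ⟨p0, hp0⟩ : (ng B T F).Nonempty := Finset.card_pos.1 (by omega)
  obtain ⟨a0, ha0⟩ := not_full hNC hb p0.2
  have ha0D : a0 ∉ D := fun h => ha0 ((hmem p0 hp0).2 h)
  have hDn : (Finset.univ.erase a0).card = n := by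
    rw [Finset.card_erase_of_mem (Finset.mem_univ _), Finset.card_univ, Fintype.card_fin]
    omega
  have hD : D = Finset.univ.erase a0 := by
    apply Finset.eq_of_subset_of_card_le
    · intro a ha
      rw [Finset.mem_erase]
      exact ⟨fun h => ha0D (h ▸ ha), Finset.mem_univ _⟩
    · rw [hDn]
      omega
  have hDmem : ∀ a, a ≠ a0 → a ∈ D := by
    intro a ha
    rw [hD]
    exact Finset.mem_erase.2 ⟨ha, Finset.mem_univ _⟩
  have hfull : ∀ f, D ⊆ sp b (ℓ f) → a0 ∉ sp b (ℓ f) := by
    intro f hf h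
    obtain ⟨a, ha⟩ := not_full hNC hb f
    apply ha
    by_cases h1 : a = a0
    · rw [h1]
      exact h
    · exact hf (hDmem a h1)
  have hone : ({a0} : Finset (Fin (n + 1))) ≠ Finset.univ := by
    intro h
    have h1 := congrArg Finset.card h
    rw [Finset.card_singleton, Finset.card_univ, Fintype.card_fin] at h1
    omega
  obtain ⟨q0, hq0T, hq0J, hq0s⟩ := hT.cut {a0} (Finset.singleton_nonempty _) hone
  rw [Finset.mem_singleton] at hq0J
  have hq0e : a0 ∈ sp b (ℓ q0.2) := hq0J ▸ hT.edge q0 hq0T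
  have hDcard : D.card = n := by rw [hD, hDn]
  by_cases ha0F : B a0 ∈ F
  · have h1 : q0.2 ∉ F := by
      intro hF2
      obtain ⟨a, ha, ha'⟩ := Finset.not_subset.1 hq0s
      rw [Finset.mem_singleton] at ha'
      exact hfull _ (hD2 q0.2 hF2 a (hD1 a (hDmem a ha')) ha).1 hq0e
    have h2 : 0 < (ps B T F).card :=
      Finset.card_pos.2 ⟨q0, mem_ps.2 ⟨hq0T, by rw [hq0J]; exact ha0F, h1⟩⟩
    omega
  · have hDne : D.Nonempty := Finset.card_pos.1 (by omega)
    have hDnu : D ≠ Finset.univ := by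
      intro h
      exact ha0D (by rw [h]; exact Finset.mem_univ _)
    obtain ⟨q1, hq1T, hq1J, hq1s⟩ := hT.cut D hDne hDnu
    have hq1a : a0 ∈ sp b (ℓ q1.2) := by
      obtain ⟨a, ha, ha'⟩ := Finset.not_subset.1 hq1s
      by_contra h
      apply ha'
      apply hDmem
      rintro rfl
      exact h ha
    have hq0n : q0 ∉ ng B T F := by
      intro h
      exact ha0D (hq0J ▸ (hmem q0 h).1)
    have hq1n : q1 ∉ ng B T F := fun h => hfull _ (hmem q1 h).2 hq1a
    have hq01 : q0 ≠ q1 := by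
      rintro rfl
      exact ha0D (hq0J ▸ hq1J)
    have hTge : n + 2 ≤ T.card := by
      have h1 : (insert q0 (insert q1 (ng B T F))).card = (ng B T F).card + 2 := by
        rw [Finset.card_insert_of_notMem, Finset.card_insert_of_notMem hq1n]
        rw [Finset.mem_insert]
        push Not
        exact ⟨hq01, hq0n⟩
      have h2 : insert q0 (insert q1 (ng B T F)) ⊆ T := by
        intro p hp
        rcases Finset.mem_insert.1 hp with rfl | hp
        · exact hq0T
        rcases Finset.mem_insert.1 hp with rfl | hp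
        · exact hq1T
        · exact (mem_ng.1 hp).1
      have h3 := Finset.card_le_card h2
      omega
    obtain ⟨T', hT'⟩ : ∃ T', T' = insert q0 (insert q1
        ((D.erase q1.1).image (fun a => (a, p0.2)))) := ⟨_, rfl⟩
    have hT'e : ∀ p ∈ T', p.1 ∈ sp b (ℓ p.2) := by
      intro p hp
      rw [hT'] at hp
      rcases Finset.mem_insert.1 hp with rfl | hp
      · exact hT.edge _ hq0T
      rcases Finset.mem_insert.1 hp with rfl | hp
      · exact hT.edge _ hq1T
      · obtain ⟨a, ha, rfl⟩ := Finset.mem_image.1 hp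
        exact (hmem p0 hp0).2 (Finset.mem_of_mem_erase ha)
    have hT'c : T'.card < T.card := by
      have h1 : ((D.erase q1.1).image (fun a => (a, p0.2))).card ≤ n - 1 := by
        refine Finset.card_image_le.trans ?_
        rw [Finset.card_erase_of_mem hq1J]
        omega
      have h2 := Finset.card_insert_le q1 ((D.erase q1.1).image (fun a => (a, p0.2)))
      have h3 := Finset.card_insert_le q0 (insert q1 ((D.erase q1.1).image (fun a => (a, p0.2))))
      rw [hT']
      omega
    obtain ⟨J, hJ1, hJ2, hJ3⟩ := exists_closed hmin hT'e hT'c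
    have hJq1 : q1.1 ∈ J → sp b (ℓ q1.2) ⊆ J := hJ3 q1 (by
      rw [hT']
      exact Finset.mem_insert_of_mem (Finset.mem_insert_self _ _))
    have hJD : ∀ c ∈ J, c ≠ a0 → c ≠ q1.1 → D ⊆ J := by
      intro c hc h1 h2
      refine (hmem p0 hp0).2.trans (hJ3 (c, p0.2) ?_ hc)
      rw [hT']
      refine Finset.mem_insert_of_mem (Finset.mem_insert_of_mem (Finset.mem_image.2
        ⟨c, Finset.mem_erase.2 ⟨h2, hDmem c h1⟩, rfl⟩))
    by_cases ha0J : a0 ∈ J
    · have hJ : ∀ c ∈ J, c = a0 ∨ c = q1.1 := by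
        intro c hc
        by_contra h
        push Not at h
        apply hJ2
        apply Finset.eq_univ_of_forall
        intro d
        by_cases hd : d = a0
        · rw [hd]
          exact ha0J
        · exact hJD c hc h.1 h.2 (hDmem d hd)
      obtain ⟨c, hc, hc'⟩ := Finset.not_subset.1 hq0s
      rw [Finset.mem_singleton] at hc'
      have hcJ : c ∈ J := hJ3 q0 (by
        rw [hT']
        exact Finset.mem_insert_self _ _) (by rw [hq0J]; exact ha0J) hc
      have hc1 : c = q1.1 := (hJ c hcJ).resolve_left hc'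
      have hq1J' : q1.1 ∈ J := hc1 ▸ hcJ
      refine no_twist (a0 := a0) (a1 := q1.1) (g := q1.2) (h := p0.2) hNC hb ?_ ?_ ?_
      · rintro rfl
        exact ha0D hq1J
      · intro d
        constructor
        · intro hd
          exact hJ d (hJq1 hq1J' hd)
        · rintro (rfl | rfl)
          · exact hq1a
          · exact hT.edge q1 hq1T
      · intro d
        constructor
        · rintro hd rfl
          exact ha0 hd
        · intro hd
          exact (hmem p0 hp0).2 (hDmem d hd)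
    · obtain ⟨c, hc⟩ := hJ1
      have hca : c ≠ a0 := by
        rintro rfl
        exact ha0J hc
      by_cases hc1 : c = q1.1
      · exact ha0J (hJq1 (hc1 ▸ hc) hq1a)
      · exact ha0J (hJq1 (hJD c hc hca hc1 hq1J) hq1a)

/-- **The exchanges.** -/
theorem gain (hn : 1 ≤ n) (hℓ : ∀ i, ℓ i ≠ 0) (hNC : ¬ ∃ c, Circ ℓ c)
    (hb : ∀ a, b a = ℓ (B a)) {T : Finset (Fin (n + 1) × Fin q)} (hT : Cut ℓ b T)
    (hTc : T.card ≤ 2 * n) (hmin : ∀ T', Cut ℓ b T' → T.card ≤ T'.card)
    {F : Finset (Fin q)} (hF : Proper ℓ F) (hle : (bp B F).card ≤ rk ℓ F) :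
    1 - ((n : ℤ) + 1) * (rk ℓ F - (bp B F).card) ≤ ((ps B T F).card : ℤ) - (ng B T F).card ∧
    ((bp B F).card < rk ℓ F → 2 - ((n : ℤ) + 1) * (rk ℓ F - (bp B F).card) ≤
      ((ps B T F).card : ℤ) - (ng B T F).card) := by
  obtain ⟨d, hd⟩ : ∃ d, rk ℓ F = (bp B F).card + d := ⟨rk ℓ F - (bp B F).card, by omega⟩
  have hdz : (rk ℓ F : ℤ) - (bp B F).card = d := by
    rw [hd]
    push_cast
    ring
  rw [hdz]
  rcases Nat.eq_zero_or_pos d with h0 | hpos
  · subst h0
    have h1 := gain_zero hℓ hb hT hF (by omega)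
    refine ⟨?_, fun h => by omega⟩
    push_cast
    omega
  · have h2 : 2 - ((n : ℤ) + 1) * d ≤ ((ps B T F).card : ℤ) - (ng B T F).card := by
      rcases Nat.lt_or_ge d 2 with h3 | h3
      · have h4 : d = 1 := by omega
        subst h4
        have h5 := gain_one hn hNC hb hT hmin hF hd
        push_cast
        omega
      · have h5 : (ng B T F).card ≤ 2 * n :=
          (Finset.card_le_card (Finset.filter_subset _ _)).trans hTc
        have h6 : ((n : ℤ) + 1) * 2 ≤ ((n : ℤ) + 1) * d := by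
          apply mul_le_mul_of_nonneg_left
          · exact_mod_cast h3
          · positivity
        have h7 : (0 : ℤ) ≤ (ps B T F).card := by positivity
        have h8 : ((ng B T F).card : ℤ) ≤ 2 * n := by exact_mod_cast h5
        linarith
    exact ⟨by linarith, fun _ => h2⟩

end Pool.Agent.TH122.PA
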