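import Pool.Agent.TH122.PA.Ec
import Pool.Agent.TH122.AB.Fin

/-!
Arrangements without a spanning circuit: weights with slack more than `1 / (n + 1)`, and general
type.
-/

set_option autoImplicit false

open FF Pool.Agent.W603.LV Pool.Agent.W602.GT Pool.Agent.W602.Cov Pool.Agent.W602.Cov.G
open Pool.Agent.W168.CG.PGR Pool.Agent.TH152.AC Module Pool.Agent.TH122.AB

namespace Pool.Agent.TH122.PA

variable {n q : ℕ} {ℓ : Fin q → Form n} {K : Type} [Field K] [Algebra ℂ K]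

/-- the payoff -/
noncomputable def pay1 (ℓ : Fin q → Form n) (B : Bases ℓ) (F : {F // Proper ℓ F}) : ℤ :=
  ((n : ℤ) + 1) * (rk ℓ F.1 - cnt B.1 F.1) - 1

theorem dual_no_circuit (hn : 1 ≤ n) (hℓ : ∀ i, ℓ i ≠ 0) (hr : ¬ Reducible ℓ)
    (hNC : ¬ ∃ c, Circ ℓ c) (y : {F // Proper ℓ F} → ℚ) (hy : ∀ F, 0 ≤ y F) (hy0 : y ≠ 0) :
    ∃ B : Bases ℓ, 0 < ∑ F, y F * (pay1 ℓ B F : ℚ) := by
  classical
  obtain ⟨B1⟩ := exists_bases (Pool.Agent.W392.CG.span_top hn ℓ hr)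
  let w : Fin q → ℚ := fun i => ∑ F : {F // Proper ℓ F}, y F * (if i ∈ F.1 then 1 else 0)
  obtain ⟨B, -, hB⟩ := Finset.exists_min_image (Finset.univ : Finset (Bases ℓ))
    (fun B => ∑ a, w (B.1 a)) ⟨B1, Finset.mem_univ _⟩
  refine ⟨B, ?_⟩
  -- the inequality for a system of exchanges
  have hkey : ∀ T : Finset (Fin (n + 1) × Fin q), (∀ p ∈ T, (bas B).repr (ℓ p.2) p.1 ≠ 0) →
      ∑ F : {F // Proper ℓ F}, y F *
      ((∑ p ∈ T, ((if B.1 p.1 ∈ F.1 then 1 else 0) - (if p.2 ∈ F.1 then 1 else 0)) : ℤ) : ℚ) ≤ 0 := by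
    intro T hT1
    have hmin : ∀ p ∈ T, w (B.1 p.1) ≤ w p.2 := by
      intro p hp
      have h1 := hB ⟨_, update_bases B (hT1 p hp)⟩ (Finset.mem_univ _)
      rw [sum_update] at h1
      rw [← Finset.add_sum_erase Finset.univ (fun a => w (B.1 a)) (Finset.mem_univ p.1)] at h1
      linarith
    have hsum : ∑ p ∈ T, (w (B.1 p.1) - w p.2) ≤ 0 :=
      Finset.sum_nonpos fun p hp => by linarith [hmin p hp]
    have heq : ∑ p ∈ T, (w (B.1 p.1) - w p.2) = ∑ F : {F // Proper ℓ F}, y F *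
        ((∑ p ∈ T, ((if B.1 p.1 ∈ F.1 then 1 else 0) - (if p.2 ∈ F.1 then 1 else 0)) : ℤ) : ℚ) := by
      simp only [w]
      simp_rw [← Finset.sum_sub_distrib, ← mul_sub]
      rw [Finset.sum_comm]
      refine Finset.sum_congr rfl fun F _ => ?_
      rw [← Finset.mul_sum]
      push_cast
      rfl
    rw [heq] at hsum
    exact hsum
  obtain ⟨T, hT, hTc, hTmin⟩ := exists_min_cut (b := bas B) hr
  have hT1 : ∀ p ∈ T, (bas B).repr (ℓ p.2) p.1 ≠ 0 := fun p hp => mem_sp.1 (hT.edge p hp)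
  have h1 := hkey T hT1
  have hgain : ∀ F : {F // Proper ℓ F}, -pay1 ℓ B F ≤
        ∑ p ∈ T, (((if B.1 p.1 ∈ F.1 then 1 else 0) : ℤ) - (if p.2 ∈ F.1 then 1 else 0)) ∧
      (cnt B.1 F.1 < rk ℓ F.1 → -pay1 ℓ B F <
        ∑ p ∈ T, (((if B.1 p.1 ∈ F.1 then 1 else 0) : ℤ) - (if p.2 ∈ F.1 then 1 else 0))) := by
    intro F
    obtain ⟨h2, h3⟩ := gain hn hℓ hNC (bas_apply B) hT hTc hTmin F.2 (cnt_le_rk B F.1)
    have h4 : ∑ p ∈ T, (((if B.1 p.1 ∈ F.1 then 1 else 0) : ℤ) - (if p.2 ∈ F.1 then 1 else 0)) =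
        ((ps B.1 T F.1).card : ℤ) - (ng B.1 T F.1).card := exch_sum T F.1
    have h5 : -pay1 ℓ B F = 1 - ((n : ℤ) + 1) * (rk ℓ F.1 - (bp B.1 F.1).card) := by
      unfold pay1
      have : ((bp B.1 F.1).card : ℤ) = cnt B.1 F.1 := rfl
      rw [this]
      ring
    rw [h4]
    refine ⟨by rw [h5]; exact h2, fun h => ?_⟩
    have h6 := h3 h
    rw [h5]
    linarith
  have hle : ∀ F : {F // Proper ℓ F}, - (y F * (pay1 ℓ B F : ℚ)) ≤ y F *
      ((∑ p ∈ T, ((if B.1 p.1 ∈ F.1 then 1 else 0) - (if p.2 ∈ F.1 then 1 else 0)) : ℤ) : ℚ) := by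
    intro F
    rw [← mul_neg]
    refine mul_le_mul_of_nonneg_left ?_ (hy F)
    exact_mod_cast (hgain F).1
  by_cases hex : ∃ F1 : {F // Proper ℓ F}, 0 < y F1 ∧ cnt B.1 F1.1 < rk ℓ F1.1
  · obtain ⟨F1, hF1, hdef⟩ := hex
    have h2 : ∑ F : {F // Proper ℓ F}, - (y F * (pay1 ℓ B F : ℚ)) < ∑ F : {F // Proper ℓ F}, y F *
      ((∑ p ∈ T, ((if B.1 p.1 ∈ F.1 then 1 else 0) - (if p.2 ∈ F.1 then 1 else 0)) : ℤ) : ℚ) := by
      refine Finset.sum_lt_sum (fun F _ => hle F) ⟨F1, Finset.mem_univ _, ?_⟩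
      rw [← mul_neg]
      refine mul_lt_mul_of_pos_left ?_ hF1
      exact_mod_cast (hgain F1).2 hdef
    rw [Finset.sum_neg_distrib] at h2
    linarith
  · exfalso
    push Not at hex
    have h2 := Finset.sum_le_sum fun F (_ : F ∈ (Finset.univ : Finset {F // Proper ℓ F})) => hle F
    have h3 : ∀ F : {F // Proper ℓ F}, - (y F * (pay1 ℓ B F : ℚ)) = y F := by
      intro F
      by_cases hF : 0 < y F
      · have h4 : pay1 ℓ B F = -1 := by
          have h5 := hex F hF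
          have h6 := cnt_le_rk B F.1
          unfold pay1
          have h7 : rk ℓ F.1 = cnt B.1 F.1 := le_antisymm h5 h6
          rw [h7]
          ring
        rw [h4]
        push_cast
        ring
      · have h4 : y F = 0 := le_antisymm (not_lt.1 hF) (hy F)
        rw [h4]
        simp
    rw [Finset.sum_congr rfl fun F _ => h3 F] at h2
    have h5 : 0 < ∑ F, y F := by
      obtain ⟨F, hF⟩ := Function.ne_iff.1 hy0
      refine Finset.sum_pos' (fun F _ => hy F) ⟨F, Finset.mem_univ _, ?_⟩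
      exact lt_of_le_of_ne (hy F) (Ne.symm hF)
    linarith

theorem weights_no_circuit (hn : 1 ≤ n) (hℓ : ∀ i, ℓ i ≠ 0) (hr : ¬ Reducible ℓ)
    (hNC : ¬ ∃ c, Circ ℓ c) :
    ∃ p : Bases ℓ → ℕ, ∀ F : Finset (Fin q), Proper ℓ F →
      (n + 1) * (∑ B, p B * cnt B.1 F) + ∑ B, p B + 1 ≤ (n + 1) * ((∑ B, p B) * rk ℓ F) := by
  classical
  obtain ⟨p, hp2⟩ := game_strict (pay1 ℓ) (dual_no_circuit hn hℓ hr hNC)
  refine ⟨p, fun F hF => ?_⟩
  have h1 := hp2 ⟨F, hF⟩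
  have h2 : ∑ B, (p B : ℤ) * pay1 ℓ B ⟨F, hF⟩ = ((n : ℤ) + 1) * ((∑ B, (p B : ℤ)) * rk ℓ F) -
      (((n : ℤ) + 1) * (∑ B, (p B : ℤ) * cnt B.1 F) + ∑ B, (p B : ℤ)) := by
    unfold pay1
    rw [Finset.sum_mul, Finset.mul_sum, Finset.mul_sum, ← Finset.sum_add_distrib,
      ← Finset.sum_sub_distrib]
    refine Finset.sum_congr rfl fun B _ => ?_
    ring
  rw [h2] at h1
  have h3 : ((n : ℤ) + 1) * (∑ B, (p B : ℤ) * cnt B.1 F) + ∑ B, (p B : ℤ) + 1 ≤
      ((n : ℤ) + 1) * ((∑ B, (p B : ℤ)) * rk ℓ F) := by linarith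
  exact_mod_cast h3

/-- the strict inequality for the orders -/
theorem orders1 (p : Bases ℓ → ℕ) (hp : ∀ F : Finset (Fin q), Proper ℓ F →
      (n + 1) * (∑ B, p B * cnt B.1 F) + ∑ B, p B + 1 ≤ (n + 1) * ((∑ B, p B) * rk ℓ F))
    (hne : Nonempty (Bases ℓ)) (v : Fin q → ℕ)
    (hv : Submodule.span ℂ (ℓ '' {i | v i ≠ 0}) ≠ ⊤) :
    ∃ B' : Bases ℓ, ∀ i, (n + 1) * (∑ B, p B * ∑ a, v (B.1 a)) + (∑ B, p B + 1) * v i ≤
      (n + 1) * ((∑ B, p B) * ∑ a, v (B'.1 a)) := by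
  classical
  obtain ⟨B1⟩ := hne
  obtain ⟨B', -, hmax⟩ := Finset.exists_max_image (Finset.univ : Finset (Bases ℓ))
    (fun B => ∑ a, v (B.1 a)) ⟨B1, Finset.mem_univ _⟩
  refine ⟨B', fun i0 => ?_⟩
  obtain ⟨T0, hT0⟩ : ∃ T0 : ℕ, ∀ i, v i ≤ T0 :=
    ⟨∑ i, v i, fun i => Finset.single_le_sum (f := v) (fun _ _ => Nat.zero_le _)
      (Finset.mem_univ i)⟩
  set N := ∑ B, p B with hN
  let F : ℕ → Finset (Fin q) := fun t => Finset.univ.filter fun i => t ≤ v i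
  have hFmem : ∀ t i, i ∈ F t ↔ t ≤ v i := by
    intro t i
    simp [F]
  have hclaim : ∀ t ∈ Finset.Icc 1 T0,
      (n + 1) * (∑ B, p B * cnt B.1 (F t)) + (N + 1) * (if t ≤ v i0 then 1 else 0) ≤
        (n + 1) * (N * cnt B'.1 (F t)) := by
    intro t ht
    have ht1 : 1 ≤ t := (Finset.mem_Icc.mp ht).1
    have hfill : rk ℓ (F t) ≤ cnt B'.1 (F t) := fill v B' (fun B => hmax B (Finset.mem_univ _)) t
    by_cases hti : t ≤ v i0
    · rw [if_pos hti, mul_one]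
      have hprop : Proper ℓ (F t) := by
        refine ⟨⟨i0, (hFmem t i0).2 hti⟩, fun htop => hv ?_⟩
        rw [eq_top_iff, ← htop]
        apply Submodule.span_mono
        apply Set.image_mono
        intro i hi
        have hi' : t ≤ v i := (hFmem t i).1 hi
        show v i ≠ 0
        omega
      have h8 := hp (F t) hprop
      have h9 : (n + 1) * (N * rk ℓ (F t)) ≤ (n + 1) * (N * cnt B'.1 (F t)) :=
        Nat.mul_le_mul_left _ (Nat.mul_le_mul_left _ hfill)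
      omega
    · rw [if_neg hti, mul_zero, add_zero]
      refine Nat.mul_le_mul_left _ ?_
      rw [hN, Finset.sum_mul]
      refine Finset.sum_le_sum fun B _ => Nat.mul_le_mul_left _ ((cnt_le_rk B _).trans hfill)
  have hsum := Finset.sum_le_sum hclaim
  have hlay : ∀ B : Bases ℓ, ∑ t ∈ Finset.Icc 1 T0, cnt B.1 (F t) = ∑ a, v (B.1 a) := by
    intro B
    have e1 : ∀ t, cnt B.1 (F t) = ∑ a, (if t ≤ v (B.1 a) then 1 else 0) := by
      intro t
      unfold cnt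
      rw [Finset.card_filter]
      refine Finset.sum_congr rfl fun a _ => ?_
      simp only [hFmem]
    rw [Finset.sum_congr rfl fun t _ => e1 t, Finset.sum_comm]
    exact Finset.sum_congr rfl fun a _ => (layer (v (B.1 a)) T0 (hT0 _)).symm
  rw [Finset.sum_add_distrib, ← Finset.mul_sum, ← Finset.mul_sum, ← Finset.mul_sum,
    ← Finset.mul_sum, hlay B', ← layer (v i0) T0 (hT0 i0), Finset.sum_comm] at hsum
  simp_rw [← Finset.mul_sum, hlay] at hsum
  exact hsum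

/-- Multiplicities at least `n + 1` along an arrangement which is not reducible and contains no
`n + 2` hyperplanes in general position imply general type. -/
theorem general_of_no_circuit (hn : 1 ≤ n) (hℓ : ∀ i, ℓ i ≠ 0) (hr : ¬ Reducible ℓ)
    (hNC : ¬ ∃ c, Circ ℓ c) {x : Fin (n + 1) → K}
    (hlx : ∀ i, lf (ℓ i) x ≠ 0) (hx0 : x 0 ≠ 0)
    (hbas : IsTranscendenceBasis ℂ (fun j : Fin n => x j.succ / x 0))
    (hP : ∀ P : Place ℂ K, Divisorial n P → HighAt ℓ x (n + 1) P) : GeneralType ℂ K n := by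
  have hspan := Pool.Agent.W392.CG.span_top hn ℓ hr
  obtain ⟨p, hp⟩ := weights_no_circuit hn hℓ hr hNC
  have hne := exists_bases hspan
  have hpos : 0 < ∑ B, p B := by
    obtain ⟨B0⟩ := hne
    have hprop : Proper ℓ {B0.1 0} := by
      refine ⟨⟨_, Finset.mem_singleton_self _⟩, fun htop => ?_⟩
      have h1 : Module.finrank ℂ (Submodule.span ℂ
          (ℓ '' (({B0.1 0} : Finset (Fin q)) : Set (Fin q)))) = n + 1 := by
        rw [htop, finrank_top, finrank_form]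
      rw [Finset.coe_singleton, Set.image_singleton, finrank_span_singleton (hℓ _)] at h1
      omega
    have h1 := hp _ hprop
    by_contra hcon
    have h2 : ∑ B, p B = 0 := by omega
    rw [h2] at h1
    simp at h1
  refine general_of_crit hspan hlx hx0 hbas (fun B => (n + 1) * p B) ?_ ?_
  · rw [← Finset.mul_sum]
    positivity
  · intro P hPd a v hv hv0 hsp
    obtain ⟨i1, hi1⟩ := hP P hPd a v hv hv0 hsp
    obtain ⟨B', hB'⟩ := orders1 p hp hne v hsp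
    have e1 : ∑ B : Bases ℓ, (n + 1) * p B * ∑ a, v (B.1 a) =
        (n + 1) * ∑ B : Bases ℓ, p B * ∑ a, v (B.1 a) := by
      rw [Finset.mul_sum]
      exact Finset.sum_congr rfl fun B _ => by ring
    refine ⟨B', ?_, fun i => ?_⟩
    · rw [e1, ← Finset.mul_sum]
      have h1 := hB' i1
      have h2 : (∑ B, p B + 1) * (n + 1) ≤ (∑ B, p B + 1) * v i1 := Nat.mul_le_mul_left _ hi1
      nlinarith
    · rw [e1, ← Finset.mul_sum]
      have h1 := hB' i
      have h2 : 1 * v i ≤ (∑ B, p B + 1) * v i := Nat.mul_le_mul_right _ (by omega)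
      nlinarith

end Pool.Agent.TH122.PA
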