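import Pool.Agent.TH122.PA.Gp
import Pool.Agent.TH122.AB.Fin

/-!
Powers of the generators of the function field of an abelian cover as products of linear forms.
-/

set_option autoImplicit false
set_option linter.overlappingInstances false
set_option linter.unusedSectionVars false

open FF IntermediateField Pool.Agent.W603.LV Pool.Agent.W602.GT Pool.Agent.W602.Cov
open Pool.Agent.W602.Cov.Cover Pool.Agent.W602.Cov.G Pool.Agent.TH152.AC Pool.Agent.TH122.AB

namespace Pool.Agent.TH122.PA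

section

variable {n q r : ℕ} (X : Cover n q r) {K : Type} [Field K] [Algebra ℂ K]
  {x : Fin (n + 1) → K} {y : Fin r → K}

theorem exists_exp (hK : X.FunctionField K x y) (i0 : Fin q) {S : Set K}
    (hS : ∀ H : ℤ → K → Prop, H 0 1 →
        (∀ t t' z z', z ≠ 0 → z' ≠ 0 → H t z → H t' z' → H (t + t') (z * z')) →
        (∀ t z, z ≠ 0 → H t z → H (-t) z⁻¹) → H X.d (lf (X.ℓ i0) x) →
        (∀ k, H (X.w k) (y k)) → ∀ z ∈ S, H 0 z) {ι : Type} (C : ι → Finset (Fin q)) {N : ℕ}
    (hC : ∀ a k, X.m k ∣ N * ∑ i ∈ C a, X.e k i) :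
    ∀ z ∈ S, ∃ β : Fin q → ℤ, z ^ (∏ k, X.m k) = ∏ i, lf (X.ℓ i) x ^ β i ∧ ∑ i, β i = 0 ∧
      ∀ a, ((∏ k, X.m k : ℕ) : ℤ) ∣ N * ∑ i ∈ C a, β i := by
  classical
  obtain ⟨h1, -, hx0, -⟩ := Pool.Agent.W352.CG.TRA.main n q r X K x y hK
  have hlx : ∀ i, lf (X.ℓ i) x ≠ 0 := fun i => h1 _ (X.hℓ i)
  obtain ⟨M, hM⟩ : ∃ M, M = ∏ k, X.m k := ⟨_, rfl⟩
  rw [← hM]
  have h2 := hS (fun t z => ∃ β : Fin q → ℤ, z ^ M = ∏ i, lf (X.ℓ i) x ^ β i ∧
      X.d * ∑ i, β i = t * M ∧ ∀ a, (M : ℤ) ∣ N * ∑ i ∈ C a, β i) ?_ ?_ ?_ ?_ ?_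
  · intro z hz
    obtain ⟨β, h3, h4, h5⟩ := h2 z hz
    refine ⟨β, h3, ?_, h5⟩
    rw [zero_mul] at h4
    rcases mul_eq_zero.1 h4 with h6 | h6
    · exact absurd h6 (by exact_mod_cast X.hd.ne')
    · exact h6
  · exact ⟨0, by simp, by simp, by simp⟩
  · rintro t t' z z' hz hz' ⟨β, h3, h4, h5⟩ ⟨β', h3', h4', h5'⟩
    refine ⟨β + β', ?_, ?_, ?_⟩
    · rw [mul_pow, h3, h3', ← Finset.prod_mul_distrib]
      exact Finset.prod_congr rfl fun i _ => (zpow_add₀ (hlx i) _ _).symm
    · simp only [Pi.add_apply, Finset.sum_add_distrib]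
      rw [mul_add, h4, h4']
      ring
    · intro a
      simp only [Pi.add_apply, Finset.sum_add_distrib]
      rw [mul_add]
      exact dvd_add (h5 a) (h5' a)
  · rintro t z hz ⟨β, h3, h4, h5⟩
    refine ⟨-β, ?_, ?_, ?_⟩
    · rw [inv_pow, h3, ← Finset.prod_inv_distrib]
      exact Finset.prod_congr rfl fun i _ => (zpow_neg _ _).symm
    · simp only [Pi.neg_apply, Finset.sum_neg_distrib]
      rw [mul_neg, h4]
      ring
    · intro a
      simp only [Pi.neg_apply, Finset.sum_neg_distrib]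
      rw [mul_neg]
      exact (h5 a).neg_right
  · refine ⟨fun i => if i = i0 then (M : ℤ) else 0, ?_, ?_, ?_⟩
    · rw [Finset.prod_eq_single i0]
      · beta_reduce
        rw [if_pos rfl, zpow_natCast]
      · intro b _ hb
        beta_reduce
        rw [if_neg hb, zpow_zero]
      · intro h
        exact absurd (Finset.mem_univ _) h
    · rw [Finset.sum_ite_eq' Finset.univ i0, if_pos (Finset.mem_univ _)]
    · intro a
      rw [Finset.sum_ite_eq']
      split_ifs
      · exact Dvd.intro_left _ rfl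
      · simp
  · intro k
    obtain ⟨m', hm'⟩ : ∃ m', M = X.m k * m' := by
      rw [hM]
      exact Finset.dvd_prod_of_mem _ (Finset.mem_univ k)
    refine ⟨fun i => ((X.e k i * m' : ℕ) : ℤ), ?_, ?_, ?_⟩
    · rw [hm', pow_mul, Pool.Agent.W337.CG.main n q r X K x y hK k, ← Finset.prod_pow]
      refine Finset.prod_congr rfl fun i _ => ?_
      rw [zpow_natCast, pow_mul]
    · have h6 := X.hom k
      have h7 : X.d * ∑ i, X.e k i * m' = X.w k * M := by
        rw [← Finset.sum_mul, ← mul_assoc, ← h6, hm']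
        ring
      beta_reduce
      exact_mod_cast h7
    · intro a
      obtain ⟨c', hc'⟩ := hC a k
      refine ⟨c', ?_⟩
      have h6 : N * ∑ i ∈ C a, X.e k i * m' = M * c' := by
        rw [← Finset.sum_mul, ← mul_assoc, hc', hm']
        ring
      beta_reduce
      exact_mod_cast h6

end

section

variable {n q : ℕ} {K : Type} [Field K] [Algebra ℂ K] {x : Fin (n + 1) → K}

theorem lf_add (φ ψ : Form n) (x : Fin (n + 1) → K) : lf (φ + ψ) x = lf φ x + lf ψ x := by
  unfold lf
  rw [← Finset.sum_add_distrib]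
  refine Finset.sum_congr rfl fun j _ => ?_
  rw [LinearMap.add_apply, map_add, add_mul]

theorem lf_zero (x : Fin (n + 1) → K) : lf (0 : Form n) x = 0 := by
  simp [lf]

theorem lf_sum {ι : Type} (s : Finset ι) (f : ι → Form n) (x : Fin (n + 1) → K) :
    lf (∑ k ∈ s, f k) x = ∑ k ∈ s, lf (f k) x := by
  classical
  induction s using Finset.induction_on with
  | empty => simp [lf_zero]
  | insert a s ha ih => rw [Finset.sum_insert ha, Finset.sum_insert ha, lf_add, ih]

/-- if the quotients of the forms of a spanning set are in `L0`, so are the coordinates -/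
theorem coords_mem {L0 : IntermediateField ℂ K} {A : K} (hA : A ≠ 0) {T : Set (Form n)}
    (hT : Submodule.span ℂ T = ⊤) (h : ∀ φ ∈ T, lf φ x / A ∈ L0) (hx0 : x 0 ≠ 0) (j : Fin n) :
    x j.succ / x 0 ∈ L0 := by
  have key : ∀ φ : Form n, lf φ x / A ∈ L0 := by
    intro φ
    have hφ : φ ∈ Submodule.span ℂ T := by
      rw [hT]
      trivial
    induction hφ using Submodule.span_induction with
    | mem φ hφ => exact h φ hφ
    | zero =>
      rw [lf_zero, zero_div]
      exact zero_mem L0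
    | add φ ψ _ _ h1 h2 =>
      rw [lf_add, add_div]
      exact add_mem h1 h2
    | smul t φ _ h1 =>
      rw [lf_smul, mul_div_assoc]
      exact mul_mem (L0.algebraMap_mem _) h1
  have h1 := key (LinearMap.proj j.succ)
  have h2 := key (LinearMap.proj 0)
  rw [Pool.Agent.W168.CG.PGR.lf_proj] at h1 h2
  have h3 : x j.succ / x 0 = (x j.succ / A) / (x 0 / A) := by
    field_simp
  rw [h3]
  exact div_mem h1 h2

end

end Pool.Agent.TH122.PA
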