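import Pool.Agent.TH122.AB.Fin
import Pool.Agent.W619.Y.Final

/-!
The numerical dimension of function fields generated by roots of linear forms.
-/

set_option autoImplicit false
set_option linter.overlappingInstances false
set_option linter.unusedSectionVars false

open FF IntermediateField Pool.Agent.W603.LV Pool.Agent.W602.GT
open Pool.Agent.W619.PQ Pool.Agent.W619.TW
open MvPolynomial Pool.Agent.TH122.AB

namespace Pool.Agent.TH122.PA

variable {K : Type} [Field K] [Algebra ℂ K]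

/-- the ramification indices of a field generated by `N`-th roots -/
theorem ram_root (G : Subgroup (K ≃ₐ[ℂ] K)) [Finite G] {S : Set K} (hS0 : ∀ z ∈ S, z ≠ 0)
    {N : ℕ} (hN : 0 < N) (t : K → fixedField G) (ht : ∀ z ∈ S, z ^ N = (t z : K))
    (hgen : ∀ L : IntermediateField ℂ K, fixedField G ≤ L → S ⊆ L → L = ⊤)
    (v : Place ℂ (fixedField G)) :
    ∃ (w : Place ℂ K) (e : ℕ), Over w v e ∧ e ∣ N ∧ ((∀ z ∈ S, v.ord (t z) = 0) → e = 1) := by
  classical
  obtain ⟨w, e, I, hwv, hIe, hI⟩ := exists_inertia G v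
  obtain ⟨g, hgI, hgord, ζ, hζ, hrot⟩ := Pool.Agent.W619.TW.exists_rot_generator w I hI
  rw [hIe] at hgord hζ
  have hord : ∀ z ∈ S, (N : ℤ) * w.ord z = e * v.ord (t z) := by
    intro z hz
    rw [← w.ord_pow, ht z hz]
    exact hwv.2 (t z)
  have key : ∀ m : ℕ, (∀ z ∈ S, (e : ℤ) ∣ m * w.ord z) → e ∣ m := by
    intro m hm
    have hfix : ∀ z ∈ S, ((g : K ≃ₐ[ℂ] K) ^ m) z = z := by
      intro z hz
      refine rot_fix w g hζ (hS0 z hz) (hrot z (hS0 z hz)) hN ?_ (hm z hz)
      rw [ht z hz]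
      exact (t z).2 g
    have htop := hgen (fixedField (Subgroup.zpowers ((g : K ≃ₐ[ℂ] K) ^ m))) (by
        intro z hz h
        have h3 : (h : K ≃ₐ[ℂ] K) ∈ G := by
          have h4 : Subgroup.zpowers ((g : K ≃ₐ[ℂ] K) ^ m) ≤ G := by
            rw [Subgroup.zpowers_le]
            exact pow_mem g.2 m
          exact h4 h.2
        exact hz ⟨h, h3⟩) (by
        intro z hz h
        have h4 : Subgroup.zpowers ((g : K ≃ₐ[ℂ] K) ^ m) ≤ MulAction.stabilizer (K ≃ₐ[ℂ] K) z := by
          rw [Subgroup.zpowers_le, MulAction.mem_stabilizer_iff]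
          exact hfix z hz
        exact h4 h.2)
    have hgN : (g : K ≃ₐ[ℂ] K) ^ m = 1 := by
      apply AlgEquiv.ext
      intro z
      have h3 : z ∈ fixedField (Subgroup.zpowers ((g : K ≃ₐ[ℂ] K) ^ m)) := by
        rw [htop]
        trivial
      exact h3 ⟨_, Subgroup.mem_zpowers _⟩
    rw [← hgord]
    exact orderOf_dvd_of_pow_eq_one hgN
  refine ⟨w, e, hwv, key N fun z hz => ⟨v.ord (t z), hord z hz⟩, fun h0 => ?_⟩
  refine Nat.dvd_one.1 (key 1 fun z hz => ?_)
  have h1 := hord z hz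
  rw [h0 z hz, mul_zero] at h1
  have h2 : w.ord z = 0 := by
    rcases mul_eq_zero.1 h1 with h3 | h3
    · exact absurd h3 (by exact_mod_cast hN.ne')
    · exact h3
  rw [h2]
  simp

/-- **The numerical dimension of the function field of a Fermat variety of Calabi-Yau type.** -/
theorem fermat {n : ℕ} {Z : Fin (n + 1) → K} (hZ : IsTranscendenceBasis ℂ Z) {S : Set K}
    (hSfin : S.Finite) (hS0 : ∀ z ∈ S, z ≠ 0) (lam : Fin (n + 3) → MvPolynomial (Fin (n + 1)) ℂ)
    (hlam0 : ∀ j, lam j ≠ 0) (hlam1 : ∀ j, (lam j).totalDegree ≤ 1)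
    (hinf : ∃ j, (lam j).totalDegree = 0)
    (hS : ∀ z ∈ S, ∃ j, z ^ (n + 3) = aeval Z (lam j))
    (hgen : ∀ L : IntermediateField ℂ K, (∀ j, Z j ∈ L) → S ⊆ L → L = ⊤) :
    NumLe ℂ K (n + 1) (fun _ => False) 0 := by
  classical
  have hcK : CharZero K := charZero_of_injective_algebraMap (algebraMap ℂ K).injective
  obtain ⟨E, hE⟩ : ∃ E, E = IntermediateField.adjoin ℂ (Set.range Z) := ⟨_, rfl⟩
  have hEmem : ∀ j, Z j ∈ E := by
    intro j
    rw [hE]
    exact IntermediateField.subset_adjoin ℂ _ ⟨j, rfl⟩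
  have haev : ∀ P : MvPolynomial (Fin (n + 1)) ℂ, aeval Z P ∈ E := by
    intro P
    induction P using MvPolynomial.induction_on with
    | C a =>
      rw [aeval_C]
      exact E.algebraMap_mem a
    | add P Q hP hQ =>
      rw [map_add]
      exact add_mem hP hQ
    | mul_X P j hP =>
      rw [map_mul, aeval_X]
      exact mul_mem hP (hEmem j)
  have hM : ∀ z ∈ S, z ^ (n + 3) ∈ E := by
    intro z hz
    obtain ⟨j, hj⟩ := hS z hz
    rw [hj]
    exact haev _
  have hgen' : ∀ L : IntermediateField ℂ K, E ≤ L → S ⊆ L → L = ⊤ := fun L hL hSL =>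
    hgen L (fun j => hL (hEmem j)) hSL
  obtain ⟨hfd, hgal⟩ := galois_of_roots E hSfin hgen' (by omega) hM
  obtain ⟨hfinG, hfix⟩ := fixing_props E
  obtain ⟨G, hG⟩ : ∃ G, G = E.fixingSubgroup := ⟨_, rfl⟩
  rw [← hG] at hfinG hfix
  have hGmem : ∀ j, Z j ∈ fixedField G := by
    intro j
    rw [hfix]
    exact hEmem j
  let X0 : Fin (n + 1) → fixedField G := fun j => ⟨Z j, hGmem j⟩
  have hX0 : Gens (k := ℂ) X0 := gens_of hZ.1 (hfix.trans hE) fun j => rfl
  have hcoe : ∀ P : MvPolynomial (Fin (n + 1)) ℂ, ((aeval X0 P : fixedField G) : K) =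
      aeval Z P := by
    intro P
    exact (MvPolynomial.aeval_algebraMap_apply K X0 P).symm
  let t : K → fixedField G := fun z => if h : z ^ (n + 3) ∈ fixedField G then ⟨z ^ (n + 3), h⟩ else 0
  have ht : ∀ z ∈ S, z ^ (n + 3) = (t z : K) := by
    intro z hz
    have h1 : z ^ (n + 3) ∈ fixedField G := by
      rw [hfix]
      exact hM z hz
    simp only [t, dif_pos h1]
  have htl : ∀ z ∈ S, ∃ j, t z = aeval X0 (lam j) := by
    intro z hz
    obtain ⟨j, hj⟩ := hS z hz
    refine ⟨j, Subtype.ext ?_⟩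
    rw [hcoe, ← ht z hz, hj]
  have hram : ∀ v : Place ℂ (fixedField G), _ := fun v => ram_root G hS0 (N := n + 3) (by omega) t
    ht (fun L hL hSL => hgen' L (by rw [← hfix]; exact hL) hSL) v
  refine numLe_zero G hX0 hZ ?_ lam hlam0 hlam1 ?_ ?_
  · intro y hy
    have halg : Algebra.IsAlgebraic (IntermediateField.adjoin ℂ (Set.range y)) K :=
      hy.isAlgebraic_field
    refine (fin_of_gen (IntermediateField.adjoin ℂ (Set.range y))
      (S := S ∪ Set.range Z) (hSfin.union (Set.finite_range _)) (fun L _ hSL => ?_)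
      (fun z _ => (Algebra.IsAlgebraic.isAlgebraic z).isIntegral)).1
    exact hgen L (fun j => hSL (Or.inr ⟨j, rfl⟩)) (fun z hz => hSL (Or.inl hz))
  · intro p hp v hvp hv
    obtain ⟨w, e, h1, h2, h3⟩ := hram v
    refine ⟨w, e, h1, ?_⟩
    by_cases h4 : ∀ z ∈ S, v.ord (t z) = 0
    · exact Or.inl (h3 h4)
    · right
      push Not at h4
      obtain ⟨z, hz, hz0⟩ := h4
      obtain ⟨j, hj⟩ := htl z hz
      refine ⟨Nat.le_of_dvd (by omega) h2, j, ?_⟩
      by_contra hnd
      rw [hj] at hz0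
      exact hz0 ((hv _ (hlam0 j)).2.2 hnd)
  · intro v _
    obtain ⟨w, e, h1, h2, -⟩ := hram v
    exact ⟨w, e, h1, Or.inr ⟨Nat.le_of_dvd (by omega) h2, hinf⟩⟩

/-- Elements which generate an algebraic extension of the field of a transcendence basis. -/
theorem basis_of {n : ℕ} {Z : Fin n → K} (hZ : AlgebraicIndependent ℂ Z) {S : Set K}
    (hSfin : S.Finite) (hS : ∀ z ∈ S, IsAlgebraic (IntermediateField.adjoin ℂ (Set.range Z)) z)
    (hgen : ∀ L : IntermediateField ℂ K, (∀ j, Z j ∈ L) → S ⊆ L → L = ⊤) :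
    IsTranscendenceBasis ℂ Z := by
  have hcK : CharZero K := charZero_of_injective_algebraMap (algebraMap ℂ K).injective
  rw [hZ.isTranscendenceBasis_iff_isAlgebraic]
  apply Pool.Agent.W216.CG.TRB.alg_adjoin
  obtain ⟨h1, -⟩ := fin_of_gen (IntermediateField.adjoin ℂ (Set.range Z)) hSfin
    (fun L hL hSL => hgen L (fun j => hL (IntermediateField.subset_adjoin ℂ _ ⟨j, rfl⟩)) hSL)
    (fun z hz => (hS z hz).isIntegral)
  exact Algebra.IsAlgebraic.of_finite _ _

end Pool.Agent.TH122.PA
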