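import Pool.Agent.TH122.PA.Cor

/-!
The final statement.
-/

set_option autoImplicit false
set_option linter.overlappingInstances false

open FF Pool.Agent.W603.LV Pool.Agent.W602.GT Pool.Agent.W602.Cov
open Pool.Agent.W602.Cov.Cover Pool.Agent.W602.Cov.G Pool.Agent.TH152.AC Pool.Agent.TH122.AB

namespace Pool.Agent.TH122.PA

theorem psef_of_kod {K : Type} [Field K] [Algebra ℂ K] {n a : ℕ}
    (h : KodGe ℂ K n (fun _ => False) a) :
    Pool.Agent.W619.TW.IsPsef ℂ K n (fun _ => False) := by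
  obtain ⟨N, hN, ω, hω, D, hD, -⟩ := h
  apply Pool.Agent.W619.TW.psef_of_eff
  refine ⟨N, hN, ω 0, ⟨(hω 0).1, fun v hv _ D hD => ?_, fun v _ h => h.elim⟩, D, hD⟩
  rcases (hω 0).2.2 v hv (fun h => h) D hD with h1 | h1
  · exact Or.inl h1
  · exact Or.inr ⟨1, by simp, one_ne_zero, by simpa using h1⟩

variable {n q r : ℕ}

theorem dichotomy (hn : 3 ≤ n) (X : Cover n q r) (hF : X.Free) {K : Type} [Field K] [Algebra ℂ K]
    {x : Fin (n + 1) → K} {y : Fin r → K} (hK : X.FunctionField K x y) (h : Mult X (n + 1))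
    {c : Fin (n + 2) → Fin q} (hc : Circ X.ℓ c) {e : Fin q} (he : Npar X.ℓ c e)
    (CC : Fin (n + 2) → Finset (Fin q)) (hC : ∀ m d, d ∈ CC m ↔ ∃ t : ℂ, X.ℓ d = t • X.ℓ (c m)) :
    ((∃ i j, i ≠ j ∧ Pencil X.ℓ c i j ∧ ∀ m, m ≠ i → m ≠ j → ∀ k,
        X.m k ∣ (n + 1) * ∑ d ∈ CC m, X.e k d) ∧
      KodGe ℂ K n (fun _ => False) 1 ∧
      Pool.Agent.W619.TW.NumLe ℂ K n (fun _ => False) 1) ∨
    ((¬ ∃ i j, i ≠ j ∧ Pencil X.ℓ c i j ∧ ∀ m, m ≠ i → m ≠ j → ∀ k,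
        X.m k ∣ (n + 1) * ∑ d ∈ CC m, X.e k d) ∧ GeneralType ℂ K n) := by
  classical
  obtain ⟨h1, h2, h3⟩ := coords X hK
  have hP : ∀ P : Place ℂ K, Divisorial n P → HighAt X.ℓ x (n + 1) P := fun P _ =>
    highAt_of_mult X hF hK h P
  have hmem : ∀ {i j}, Pencil X.ℓ c i j → X.ℓ e ∈ W X.ℓ c {i, j} := fun hp =>
    (hp e).resolve_left fun h4 => h4 he
  by_cases hcase : ∃ i j, i ≠ j ∧ Pencil X.ℓ c i j ∧ ∀ m, m ≠ i → m ≠ j → ∀ k,
        X.m k ∣ (n + 1) * ∑ d ∈ CC m, X.e k d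
  · left
    refine ⟨hcase, ?_⟩
    obtain ⟨i, j, hij, hp, hcomp⟩ := hcase
    have hkod := kod_of_pencil hn X.hℓ hc he hij (hmem hp) h1 h2 h3 hP
    refine ⟨hkod, ?_⟩
    obtain ⟨n, rfl⟩ : ∃ n', n = n' + 2 := ⟨n - 2, by omega⟩
    exact nu_pencil X hF hK hc hij hp CC hC hcomp (psef_of_kod hkod)
  · right
    refine ⟨hcase, ?_⟩
    by_cases hp : ∃ i j, i ≠ j ∧ Pencil X.ℓ c i j
    · obtain ⟨i, j, hij, hp⟩ := hp
      have h4 : ∃ m, m ≠ i ∧ m ≠ j ∧ ∃ k, ¬ X.m k ∣ (n + 1) * ∑ d ∈ CC m, X.e k d := by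
        by_contra hcon
        push Not at hcon
        exact hcase ⟨i, j, hij, hp, hcon⟩
      obtain ⟨m, hmi, hmj, k, hk⟩ := h4
      refine general_of_pencil hn X.hℓ hc he hij (hmem hp) h1 h2 h3 hP
        (Or.inl ⟨m, hmi, hmj, ?_⟩)
      rintro ⟨P, hPd, a, v, hord, hsp, hv1, hv2⟩
      apply hk
      obtain ⟨-, h5⟩ := compat X hF hK h1 P a v hord hsp
      have h6 : (n + 1) * ∑ d ∈ CC m, X.e k d = ∑ d, X.e k d * v d := by
        rw [Finset.mul_sum, ← Finset.sum_subset (Finset.subset_univ (CC m))]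
        · refine Finset.sum_congr rfl fun d hd => ?_
          obtain ⟨t, ht⟩ := (hC m d).1 hd
          rw [hv1 d (by
            rw [ht]
            exact Submodule.smul_mem _ _ (Submodule.subset_span ⟨m, by simp, rfl⟩)), mul_comm]
        · intro d _ hd
          rw [hv2 d (fun hdW => hd ?_), mul_zero]
          unfold W at hdW
          rw [Finset.coe_singleton, Set.image_singleton] at hdW
          obtain ⟨t, ht⟩ := Submodule.mem_span_singleton.1 hdW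
          exact (hC m d).2 ⟨t, ht.symm⟩
      rw [h6]
      exact h5 k
    · exact general_of_not_pencil hn X.hℓ hc he hp h1 h2 h3 hP

end Pool.Agent.TH122.PA
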