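import Pool.Agent.TH122.PA.Tri

/-!
Multiplicities of germs of curves.
-/

set_option autoImplicit false
set_option linter.overlappingInstances false

open FF Pool.Agent.W603.LV Pool.Agent.W602.GT Pool.Agent.W602.Cov
open Pool.Agent.W602.Cov.Cover Pool.Agent.W602.Cov.G Pool.Agent.TH152.AC Pool.Agent.TH122.AB
open Pool.Agent.W168.CG.PGR

namespace Pool.Agent.TH122.PA

variable {n q r : ℕ}

/-- The curve `x (t)` meets the hyperplane `φ = 0` with multiplicity `k` at `t = 0`. -/
def Meets (x : Fin (n + 1) → Polynomial ℂ) (φ : Form n) (k : ℕ) : Prop :=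
  ∃ g : Polynomial ℂ, ∑ j, Polynomial.C (φ (Pi.single j 1)) * x j = Polynomial.X ^ k * g ∧
    g.eval 0 ≠ 0

/-- multiplicities of germs of curves -/
def MultG (X : Cover n q r) (m : ℕ) : Prop :=
  ∀ (x : Fin (n + 1) → Polynomial ℂ) (v : Fin q → ℕ), (∃ j, (x j).eval 0 ≠ 0) →
    (∀ i, Meets x (X.ℓ i) (v i)) → v ≠ 0 → (∀ k, X.m k ∣ ∑ i, X.e k i * v i) → ∃ i, m ≤ v i

theorem exists_arc {ℓ : Fin q → Form n} (v : Fin q → ℕ)
    (hflat : ∀ t i, 1 ≤ t → ℓ i ∈ Submodule.span ℂ (ℓ '' {j | t ≤ v j}) → t ≤ v i) {i0 : Fin q}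
    (hi0 : v i0 = 0) :
    ∃ x : Fin (n + 1) → Polynomial ℂ, (∃ j, (x j).eval 0 ≠ 0) ∧ ∀ i, Meets x (ℓ i) (v i) := by
  classical
  have hy : ∀ s : ℕ, ∃ y : Fin (n + 1) → ℂ, (∀ j, s + 1 ≤ v j → ℓ j y = 0) ∧
      ∀ i, v i ≤ s → ℓ i y ≠ 0 := by
    intro s
    obtain ⟨U, hU⟩ : ∃ U : Submodule ℂ (Form n),
      U = Submodule.span ℂ (ℓ '' {j | s + 1 ≤ v j}) := ⟨_, rfl⟩
    obtain ⟨y, hy1, hy2⟩ := Module.Dual.exists_forall_mem_ne_zero_of_forall_exists
      (ι := {i // v i ≤ s}) (p := U.dualCoannihilator) (f := fun i => ℓ i.1) (by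
        rintro ⟨i, hi⟩
        by_contra hcon
        push Not at hcon
        have h1 : ℓ i ∈ U.dualCoannihilator.dualAnnihilator := by
          rw [Submodule.mem_dualAnnihilator]
          exact hcon
        rw [Subspace.dualCoannihilator_dualAnnihilator_eq, hU] at h1
        have := hflat (s + 1) i (by omega) h1
        omega)
    refine ⟨y, fun j hj => ?_, fun i hi => hy2 ⟨i, hi⟩⟩
    rw [Submodule.mem_dualCoannihilator] at hy1
    refine hy1 _ ?_
    rw [hU]
    exact Submodule.subset_span ⟨j, hj, rfl⟩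
  choose y hy1 hy2 using hy
  obtain ⟨μ, hμ⟩ : ∃ μ : ℕ, ∀ i, v i ≤ μ :=
    ⟨∑ i, v i, fun i => Finset.single_le_sum (f := v) (fun _ _ => Nat.zero_le _)
      (Finset.mem_univ i)⟩
  refine ⟨fun j => ∑ s ∈ Finset.range (μ + 1), Polynomial.C (y s j) * Polynomial.X ^ s, ?_,
    fun i => ?_⟩
  · have h1 : ℓ i0 (y 0) ≠ 0 := hy2 0 i0 (by omega)
    have h2 : y 0 ≠ 0 := by
      intro h
      rw [h, map_zero] at h1
      exact h1 rfl
    obtain ⟨j, hj⟩ := Function.ne_iff.1 h2
    refine ⟨j, ?_⟩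
    rw [Polynomial.eval_finset_sum, Finset.sum_eq_single 0]
    · simpa using hj
    · intro s _ hs
      simp [hs]
    · intro h
      exact absurd (Finset.mem_range.2 (by omega)) h
  · refine ⟨∑ s ∈ Finset.Ico (v i) (μ + 1), Polynomial.C (ℓ i (y s)) *
      Polynomial.X ^ (s - v i), ?_, ?_⟩
    · have e1 : ∀ s, ∑ j, Polynomial.C (ℓ i (Pi.single j 1)) *
          (Polynomial.C (y s j) * Polynomial.X ^ s) =
          Polynomial.C (ℓ i (y s)) * Polynomial.X ^ s := by
        intro s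
        have h1 : ∑ j, ℓ i (Pi.single j 1) * y s j = ℓ i (y s) := by
          conv_rhs => rw [LinearMap.pi_apply_eq_sum_univ (ℓ i) (y s)]
          refine Finset.sum_congr rfl fun j _ => ?_
          rw [smul_eq_mul, mul_comm]
          congr 2
          ext k
          simp [Pi.single_apply, eq_comm]
        rw [← h1, map_sum, Finset.sum_mul]
        refine Finset.sum_congr rfl fun j _ => ?_
        rw [Polynomial.C_mul, mul_assoc]
      simp_rw [Finset.mul_sum]
      rw [Finset.sum_comm]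
      simp_rw [e1]
      rw [Finset.range_eq_Ico, ← Finset.sum_Ico_consecutive _ (Nat.zero_le (v i))
        (by have := hμ i; omega), Finset.sum_eq_zero (s := Finset.Ico 0 (v i)), zero_add]
      · refine Finset.sum_congr rfl fun s hs => ?_
        rw [Finset.mem_Ico] at hs
        rw [mul_left_comm, ← pow_add]
        congr 2
        omega
      · intro s hs
        rw [Finset.mem_Ico] at hs
        rw [hy1 s i (by omega), map_zero, zero_mul]
    · rw [Polynomial.eval_finset_sum, Finset.sum_eq_single (v i)]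
      · simpa using hy2 (v i) i le_rfl
      · intro s hs hs'
        rw [Finset.mem_Ico] at hs
        have : s - v i ≠ 0 := by omega
        simp [this]
      · intro h
        exact absurd (Finset.mem_Ico.2 ⟨le_rfl, by have := hμ i; omega⟩) h

theorem highAt_of_germ (X : Cover n q r) (hF : X.Free) {K : Type} [Field K] [Algebra ℂ K]
    {x : Fin (n + 1) → K} {y : Fin r → K} (hK : X.FunctionField K x y)
    (hspan : Submodule.span ℂ (Set.range X.ℓ) = ⊤) {m : ℕ} (h : MultG X m) (P : Place ℂ K) :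
    HighAt X.ℓ x m P := by
  obtain ⟨h1, h2, h3⟩ := coords X hK
  intro a v hord hv0 hsp
  obtain ⟨-, hdiv⟩ := compat X hF hK h1 P a v hord hsp
  obtain ⟨i0, hi0⟩ : ∃ i0, v i0 = 0 := by
    by_contra hcon
    push Not at hcon
    apply hsp
    have h4 : {i | v i ≠ 0} = Set.univ := Set.eq_univ_of_forall hcon
    rw [h4, Set.image_univ]
    exact hspan
  obtain ⟨x', hx'1, hx'2⟩ := exists_arc (ℓ := X.ℓ) v (fun t i _ hi => by
    have h4 := ge_span P (a + t) (X.ℓ '' {j | t ≤ v j}) x (by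
      rintro _ ⟨j, hj, rfl⟩
      right
      rw [hord j]
      have : t ≤ v j := hj
      omega) (X.ℓ i) hi
    rcases h4 with h4 | h4
    · exact absurd h4 (h1 i)
    · rw [hord i] at h4
      omega) hi0
  exact h x' v hx'1 hx'2 hv0 hdiv

end Pool.Agent.TH122.PA
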