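import Pool.Agent.TH122.PA.Gt

/-!
Arrangements of pencil type: general type if some class of multiplicities `n + 1` does not occur.
-/

set_option autoImplicit false

open FF Pool.Agent.W603.LV Pool.Agent.W602.GT Pool.Agent.W602.Cov Pool.Agent.W602.Cov.G
open Pool.Agent.W168.CG.PGR Pool.Agent.TH152.AC Module

namespace Pool.Agent.TH122.PA

variable {n q : ℕ} {ℓ : Fin q → Form n} {c : Fin (n + 2) → Fin q}

/-- the tight classes -/
theorem tight (hn : 3 ≤ n) (hℓ : ∀ i, ℓ i ≠ 0) (hc : Circ ℓ c) {e : Fin q}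
    (he : Npar ℓ c e) {i j : Fin (n + 2)} (hij : i ≠ j) (hep : ℓ e ∈ W ℓ c {i, j})
    {T γ : ℕ} {w : Fin (n + 2) → ℕ} {s : Fin (n + 2) → ℤ} {sF U : ℤ}
    (hU : ((n : ℤ) + 1) ^ 2 = U) (hT : (T : ℤ) = 4 * (n + 1) * U) (hw : ∀ k, (w k : ℤ) = T - s k)
    (hsi : s i = 5 * U) (hsj : s j = 5 * U) (hs : ∀ k, 4 * U - n ≤ s k) (hsF : 4 * U - n ≤ sF)
    (hsum : ∑ k, s k = T + 10 * U - sF) (hγ : (γ : ℤ) = 10 * U - sF)
    {F : Finset (Fin q)} (hF : Proper ℓ F) :
    5 * U ≤ sl ℓ T (bt c w e γ e 0) F ∨
    (∃ k, k ≠ i ∧ k ≠ j ∧ CF c F = {k} ∧ rk ℓ F = 1 ∧ s k ≤ sl ℓ T (bt c w e γ e 0) F) ∨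
    (CF c F = {i, j} ∧ rk ℓ F = 2 ∧ sF ≤ sl ℓ T (bt c w e γ e 0) F) := by
  classical
  have hnz : (3 : ℤ) ≤ n := by exact_mod_cast hn
  have hU2 : (n : ℤ) ^ 2 + 2 * n + 1 = U := by rw [← hU]; ring
  have hUn : 4 * (n : ℤ) ≤ U := by nlinarith
  have hTU : 16 * U ≤ T := by rw [hT]; nlinarith
  have hsl : sl ℓ T (bt c w e γ e 0) F = T * (rk ℓ F - (CF c F).card) + ∑ k ∈ CF c F, s k -
      (if e ∈ F then 10 * U - sF else 0) := by
    rw [sl_bt, hγ]
    simp only [hw]
    rw [Finset.sum_sub_distrib, Finset.sum_const, nsmul_eq_mul]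
    push_cast
    simp only [ite_self]
    ring
  obtain ⟨h1, h2⟩ := card_props hc hF
  have h3 := one_le_rk hℓ hF.1
  have h1z : ((CF c F).card : ℤ) ≤ n := by exact_mod_cast h1
  have h2z : ((CF c F).card : ℤ) ≤ rk ℓ F := by exact_mod_cast h2
  have h3z : (1 : ℤ) ≤ rk ℓ F := by exact_mod_cast h3
  have h0z : (0 : ℤ) ≤ (CF c F).card := by positivity
  have hT0 : (0 : ℤ) ≤ T := by positivity
  have hA : ∀ A : Finset (Fin (n + 2)), (A.card : ℤ) * (4 * U - n) ≤ ∑ k ∈ A, s k := by
    intro A
    rw [← nsmul_eq_mul, ← Finset.sum_const]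
    exact Finset.sum_le_sum fun k _ => hs k
  have hAF := hA (CF c F)
  have hbase : 0 ≤ (T : ℤ) * (rk ℓ F - (CF c F).card) := mul_nonneg hT0 (by linarith)
  have hone : ((CF c F).card : ℤ) + 1 ≤ rk ℓ F →
      (T : ℤ) ≤ T * (rk ℓ F - (CF c F).card) := by
    intro h
    nlinarith
  have hpos : 0 ≤ ∑ k ∈ CF c F, s k := le_trans (mul_nonneg h0z (by linarith)) hAF
  rw [hsl]
  by_cases heF : e ∈ F
  · rw [if_pos heF]
    by_cases hW : ℓ e ∈ W ℓ c (CF c F)
    · rcases mem_W_of hc hij he hep h1 hW with ⟨h4, h5⟩ | ⟨h4, h5, h6⟩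
      · -- both in
        have h6 : ∑ k ∈ CF c F, s k = 10 * U + ∑ k ∈ ((CF c F).erase i).erase j, s k := by
          rw [← Finset.add_sum_erase _ _ h4, ← Finset.add_sum_erase ((CF c F).erase i) _
            (Finset.mem_erase.2 ⟨hij.symm, h5⟩), hsi, hsj]
          ring
        have h7 : (((CF c F).erase i).erase j).card = (CF c F).card - 1 - 1 := by
          rw [Finset.card_erase_of_mem (Finset.mem_erase.2 ⟨hij.symm, h5⟩),
            Finset.card_erase_of_mem h4]
        have h8 : ({i, j} : Finset (Fin (n + 2))) ⊆ CF c F := by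
          intro k hk
          rw [Finset.mem_insert, Finset.mem_singleton] at hk
          rcases hk with rfl | rfl
          · exact h4
          · exact h5
        have h9 := Finset.card_le_card h8
        rw [Finset.card_pair hij] at h9
        rw [h6]
        rcases Nat.lt_or_ge 2 (CF c F).card with h10 | h10
        · left
          have h11 : (1 : ℤ) ≤ (((CF c F).erase i).erase j).card := by
            rw [h7]
            have : 1 ≤ (CF c F).card - 1 - 1 := by omega
            exact_mod_cast this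
          have h12 := hA (((CF c F).erase i).erase j)
          have h13 : (1 : ℤ) * (4 * U - n) ≤ (((CF c F).erase i).erase j).card * (4 * U - n) :=
            mul_le_mul_of_nonneg_right h11 (by linarith)
          linarith
        · have h11 : (CF c F).card = 2 := le_antisymm h10 h9
          have h12 : CF c F = {i, j} := by
            symm
            apply Finset.eq_of_subset_of_card_le h8
            rw [Finset.card_pair hij, h11]
          have h13 : ∑ k ∈ ((CF c F).erase i).erase j, s k = 0 := by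
            have h14 : (((CF c F).erase i).erase j).card = 0 := by rw [h7, h11]
            rw [Finset.card_eq_zero.1 h14, Finset.sum_empty]
          rw [h13]
          rcases Nat.lt_or_ge 2 (rk ℓ F) with h14 | h14
          · left
            have h15 := hone (by rw [h11]; exact_mod_cast h14)
            linarith
          · right
            right
            refine ⟨h12, by omega, ?_⟩
            linarith
      · left
        have h7 : ∑ k ∈ CF c F, s k = T - sF := by
          have h8 : CF c F = (Finset.univ.erase i).erase j := by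
            apply Finset.eq_of_subset_of_card_le
            · intro k hk
              rw [Finset.mem_erase, Finset.mem_erase]
              refine ⟨?_, ?_, Finset.mem_univ _⟩
              · rintro rfl
                exact h6 hk
              · rintro rfl
                exact h5 hk
            · rw [Finset.card_erase_of_mem (Finset.mem_erase.2 ⟨hij.symm, Finset.mem_univ _⟩),
                Finset.card_erase_of_mem (Finset.mem_univ _), Finset.card_univ, Fintype.card_fin, h4]
              omega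
          have h9 := Finset.add_sum_erase Finset.univ s (Finset.mem_univ i)
          have h10 := Finset.add_sum_erase (Finset.univ.erase i) s
            (Finset.mem_erase.2 ⟨hij.symm, Finset.mem_univ j⟩)
          rw [h8]
          rw [hsi] at h9
          rw [hsj] at h10
          linarith
        rw [h7]
        linarith
    · left
      have h4 := hone (by exact_mod_cast rk_succ hc hF heF hW)
      linarith
  · rw [if_neg heF, sub_zero]
    rcases Nat.lt_trichotomy (CF c F).card 1 with h4 | h4 | h4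
    · left
      have h5 : (CF c F).card = 0 := by omega
      have h6 := hone (by rw [h5]; simpa using h3z)
      linarith
    · obtain ⟨k, hk⟩ := Finset.card_eq_one.1 h4
      have h5 : ∑ k ∈ CF c F, s k = s k := by rw [hk, Finset.sum_singleton]
      rw [h5]
      by_cases hki : k = i
      · left
        rw [hki, hsi]
        linarith
      by_cases hkj : k = j
      · left
        rw [hkj, hsj]
        linarith
      rcases Nat.lt_or_ge 1 (rk ℓ F) with h6 | h6
      · left
        have h7 := hone (by rw [h4]; exact_mod_cast h6)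
        have h8 := hs k
        linarith
      · right
        left
        exact ⟨k, hki, hkj, hk, by omega, by linarith⟩
    · left
      have h5 : (2 : ℤ) ≤ (CF c F).card := by exact_mod_cast h4
      have h6 : (2 : ℤ) * (4 * U - n) ≤ (CF c F).card * (4 * U - n) :=
        mul_le_mul_of_nonneg_right h5 (by linarith)
      linarith

section

variable {K : Type} [Field K] [Algebra ℂ K]

/-- the multiplicities are `n + 1` on the class of `D` and `0` elsewhere -/
def Only (ℓ : Fin q → Form n) (x : Fin (n + 1) → K) (D : Submodule ℂ (Form n)) : Prop :=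
  ∃ P : Place ℂ K, Divisorial n P ∧ ∃ (a : ℤ) (v : Fin q → ℕ),
    (∀ i, P.ord (lf (ℓ i) x) = a + v i) ∧ Submodule.span ℂ (ℓ '' {i | v i ≠ 0}) ≠ ⊤ ∧
    (∀ d, ℓ d ∈ D → v d = n + 1) ∧ ∀ d, ℓ d ∉ D → v d = 0

theorem general_of_tight (hn : 3 ≤ n) (hℓ : ∀ i, ℓ i ≠ 0) (hc : Circ ℓ c) {e : Fin q}
    (he : Npar ℓ c e) {i j : Fin (n + 2)} (hij : i ≠ j) (hep : ℓ e ∈ W ℓ c {i, j})
    {s : Fin (n + 2) → ℤ} {sF U : ℤ}
    (hU : ((n : ℤ) + 1) ^ 2 = U)
    (hsi : s i = 5 * U) (hsj : s j = 5 * U) (hs : ∀ k, 4 * U - n ≤ s k) (hsF : 4 * U - n ≤ sF)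
    (hs' : ∀ k, s k ≤ 5 * U) (hsF' : sF ≤ 5 * U)
    (hsum : ∑ k, s k = 4 * (n + 1) * U + 10 * U - sF)
    {x : Fin (n + 1) → K}
    (hlx : ∀ i, lf (ℓ i) x ≠ 0) (hx0 : x 0 ≠ 0)
    (hbas : IsTranscendenceBasis ℂ (fun j : Fin n => x j.succ / x 0))
    (hP : ∀ P : Place ℂ K, Divisorial n P → HighAt ℓ x (n + 1) P)
    (h1 : ∀ k, k ≠ i → k ≠ j → 4 * U + 1 ≤ s k ∨ ¬ Only ℓ x (W ℓ c {k}))
    (h2 : 4 * U + 1 ≤ sF ∨ ¬ Only ℓ x (W ℓ c {i, j})) : GeneralType ℂ K n := by
  classical
  have hnz : (3 : ℤ) ≤ n := by exact_mod_cast hn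
  have hU2 : (n : ℤ) ^ 2 + 2 * n + 1 = U := by rw [← hU]; ring
  have hUn : 4 * (n : ℤ) ≤ U := by nlinarith
  have hU0 : 0 ≤ U := by linarith
  obtain ⟨T, hT⟩ : ∃ T : ℕ, (T : ℤ) = 4 * (n + 1) * U := ⟨(4 * ((n : ℤ) + 1) * U).toNat, by
    rw [Int.toNat_of_nonneg]
    positivity⟩
  have hTU : 16 * U ≤ T := by rw [hT]; nlinarith
  obtain ⟨w, hw⟩ : ∃ w : Fin (n + 2) → ℕ, ∀ k, (w k : ℤ) = T - s k :=
    ⟨fun k => ((T : ℤ) - s k).toNat, fun k => by
      rw [Int.toNat_of_nonneg]
      have := hs' k
      linarith⟩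
  obtain ⟨γ, hγ⟩ : ∃ γ : ℕ, (γ : ℤ) = 10 * U - sF := ⟨(10 * U - sF).toNat, by
    rw [Int.toNat_of_nonneg]
    linarith⟩
  have htight : ∀ {F}, Proper ℓ F → _ := fun {F} hF => tight hn hℓ hc he hij hep (T := T) (γ := γ)
    (w := w) (s := s) (sF := sF) hU hT hw hsi hsj hs hsF (by rw [hT]; exact hsum) hγ (F := F) hF
  refine general_crit (span_of_circ hc) hlx hx0 hbas (β := bt c w e γ e 0) (T := T) ?_ ?_ ?_
  · have : (0 : ℤ) < T := by linarith
    exact_mod_cast this
  · rw [bt_total]
    have h3 : (((∑ k, w k) + γ + 0 : ℕ) : ℤ) = (((n + 1) * T : ℕ) : ℤ) := by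
      push_cast
      simp only [hw]
      rw [Finset.sum_sub_distrib, hsum, hγ, Finset.sum_const, Finset.card_univ, Fintype.card_fin,
        nsmul_eq_mul, hT]
      push_cast
      ring
    exact_mod_cast h3
  · intro P hPd a v hvi hv0 hsp μ hμ hμ'
    obtain ⟨i2, hi2⟩ := hμ'
    obtain ⟨i3, hi3⟩ := hP P hPd a v hvi hv0 hsp
    have hμN : n + 1 ≤ μ := hi3.trans (hμ i3)
    have hμz : ((n : ℤ) + 1) ≤ μ := by exact_mod_cast hμN
    have hprop : ∀ t ∈ Finset.Icc 1 μ, Proper ℓ (lev v t) := by
      intro t ht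
      rw [Finset.mem_Icc] at ht
      exact proper_lev ht.1 (i := i2) (by rw [hi2]; exact ht.2) hsp
    obtain ⟨g, hg⟩ : ∃ g : ℕ → ℤ, ∀ t, g t = sl ℓ T (bt c w e γ e 0) (lev v t) :=
      ⟨_, fun _ => rfl⟩
    have hlow : ∀ t ∈ Finset.Icc 1 μ, 4 * U - n ≤ g t := by
      intro t ht
      rw [hg]
      rcases htight (hprop t ht) with h3 | ⟨k, -, -, -, -, h3⟩ | ⟨-, -, h3⟩
      · linarith
      · exact (hs k).trans h3
      · exact hsF.trans h3
    have h1μ : 1 ∈ Finset.Icc 1 μ := Finset.mem_Icc.2 ⟨le_rfl, by omega⟩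
    simp only [← hg]
    by_cases hbig : ∃ t ∈ Finset.Icc 1 μ, 5 * U ≤ g t
    · obtain ⟨t0, ht0, ht0'⟩ := hbig
      rw [← Finset.add_sum_erase _ _ ht0]
      have h4 := Finset.sum_le_sum (s := (Finset.Icc 1 μ).erase t0) (f := fun _ => 4 * U - (n : ℤ))
        (g := g) fun t ht => hlow t (Finset.mem_of_mem_erase ht)
      rw [Finset.sum_const, Finset.card_erase_of_mem ht0, Nat.card_Icc, nsmul_eq_mul,
        Nat.add_sub_cancel] at h4
      have h5 : ((μ - 1 : ℕ) : ℤ) = μ - 1 := by
        have : 1 ≤ μ := by omega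
        push_cast [this]
        ring
      rw [h5] at h4
      rw [hT]
      obtain ⟨ν, hν⟩ : ∃ ν : ℤ, ν = μ - (n + 1) := ⟨_, rfl⟩
      have hν0 : 0 ≤ ν := by linarith
      have hμν : (μ : ℤ) = ν + (n + 1) := by linarith
      rw [hμν] at h4 ⊢
      have h6 : 0 ≤ ν * (4 * U - n - 1) := mul_nonneg hν0 (by linarith)
      nlinarith
    · push Not at hbig
      have htt : ∀ t ∈ Finset.Icc 1 μ,
          (∃ k, k ≠ i ∧ k ≠ j ∧ CF c (lev v t) = {k} ∧ rk ℓ (lev v t) = 1 ∧ s k ≤ g t) ∨
          (CF c (lev v t) = {i, j} ∧ rk ℓ (lev v t) = 2 ∧ sF ≤ g t) := by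
        intro t ht
        rcases htight (hprop t ht) with h3 | h3 | h3
        · exfalso
          have := hbig t ht
          rw [hg] at this
          linarith
        · left
          rw [hg]
          exact h3
        · right
          rw [hg]
          exact h3
      have hmono : ∀ t ∈ Finset.Icc 1 μ, CF c (lev v t) ⊆ CF c (lev v 1) := by
        intro t ht k hk
        rw [mem_CF, mem_lev] at hk ⊢
        rw [Finset.mem_Icc] at ht
        omega
      -- the final estimate
      have hfin : ∀ (D : Submodule ℂ (Form n)) (σ : ℤ), 4 * U - n ≤ σ →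
          (4 * U + 1 ≤ σ ∨ ¬ Only ℓ x D) → (∀ t ∈ Finset.Icc 1 μ, σ ≤ g t) →
          (∀ d, ℓ d ∈ D → v d = μ) → (∀ d, ℓ d ∉ D → v d = 0) →
          (T : ℤ) + μ ≤ ∑ t ∈ Finset.Icc 1 μ, g t := by
        intro D σ hσ hσ' hσg hv1 hv2
        have h4 := Finset.sum_le_sum hσg
        rw [Finset.sum_const, Nat.card_Icc, nsmul_eq_mul, Nat.add_sub_cancel] at h4
        refine le_trans ?_ h4
        rw [hT]
        rcases hσ' with hσ' | hσ'
        · have h5 : (μ : ℤ) * (4 * U + 1) ≤ μ * σ := mul_le_mul_of_nonneg_left hσ' (by positivity)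
          nlinarith
        · have h5 : μ ≠ n + 1 := by
            intro h6
            apply hσ'
            refine ⟨P, hPd, a, v, hvi, hsp, fun d hd => ?_, hv2⟩
            rw [hv1 d hd, h6]
          have h6 : ((n : ℤ) + 2) ≤ μ := by
            have : n + 2 ≤ μ := by omega
            exact_mod_cast this
          have h7 : (μ : ℤ) * (4 * U - n) ≤ μ * σ := mul_le_mul_of_nonneg_left hσ (by positivity)
          have h8 : ((n : ℤ) + 2) * (4 * U - n - 1) ≤ μ * (4 * U - n - 1) :=
            mul_le_mul_of_nonneg_right h6 (by linarith)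
          nlinarith
      -- the support is contained in the span of the level
      have hsup : ∀ d, v d ≠ 0 → ℓ d ∈ Submodule.span ℂ (ℓ '' (lev v 1 : Set (Fin q))) := by
        intro d hd
        exact Submodule.subset_span ⟨d, mem_lev.2 (by omega), rfl⟩
      have hspan1 : rk ℓ (lev v 1) = (CF c (lev v 1)).card →
          Submodule.span ℂ (ℓ '' (lev v 1 : Set (Fin q))) = W ℓ c (CF c (lev v 1)) := by
        intro h4
        rcases rk_or hc (hprop 1 h1μ) with h5 | h5
        · exact h5.2
        · omega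
      have hμmem : μ ∈ Finset.Icc 1 μ := Finset.mem_Icc.2 ⟨by omega, le_rfl⟩
      have hval : ∀ (A : Finset (Fin (n + 2))), CF c (lev v μ) = A →
          ∀ d, ℓ d ∈ W ℓ c A → v d = μ := by
        intro A hA d hd
        have h4 := ge_span P (a + μ) ((fun k => ℓ (c k)) '' (A : Set (Fin (n + 2)))) x (by
          rintro _ ⟨k, hk, rfl⟩
          right
          have h5 : k ∈ CF c (lev v μ) := by
            rw [hA]
            exact hk
          rw [mem_CF, mem_lev] at h5
          change _ ≤ P.ord (lf (ℓ (c k)) x)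
          rw [hvi]
          have : (μ : ℤ) ≤ v (c k) := by exact_mod_cast h5
          linarith) (ℓ d) hd
        rcases h4 with h4 | h4
        · exact absurd h4 (hlx d)
        · rw [hvi] at h4
          have h5 := hμ d
          omega
      rcases htt 1 h1μ with ⟨k, hki, hkj, hk, hrk, -⟩ | ⟨hF1, hrk, -⟩
      · -- a class of the circuit
        have hall : ∀ t ∈ Finset.Icc 1 μ, CF c (lev v t) = {k} ∧ s k ≤ g t := by
          intro t ht
          have h4 := hmono t ht
          rw [hk] at h4
          rcases htt t ht with ⟨k', -, -, hk', -, h5⟩ | ⟨h5, -, -⟩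
          · rw [hk', Finset.singleton_subset_singleton] at h4
            subst h4
            exact ⟨hk', h5⟩
          · exfalso
            rw [h5] at h4
            have h6 := h4 (Finset.mem_insert_self i {j})
            rw [Finset.mem_singleton] at h6
            exact hki h6.symm
        refine hfin (W ℓ c {k}) (s k) (hs k) (h1 k hki hkj) (fun t ht => (hall t ht).2)
          (hval {k} (hall μ hμmem).1) fun d hd => ?_
        by_contra hd0
        apply hd
        have h4 := hsup d hd0
        rw [hspan1 (by rw [hrk, hk, Finset.card_singleton]), hk] at h4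
        exact h4
      · -- the pencil
        have hall : ∀ t ∈ Finset.Icc 1 μ, CF c (lev v t) = {i, j} ∧ sF ≤ g t := by
          intro t ht
          have h4 := hmono t ht
          rw [hF1] at h4
          rcases htt t ht with ⟨k', hk'i, hk'j, hk', -, h5⟩ | ⟨h5, -, h6⟩
          · exfalso
            rw [hk'] at h4
            have h6 := h4 (Finset.mem_singleton_self k')
            rw [Finset.mem_insert, Finset.mem_singleton] at h6
            rcases h6 with h6 | h6
            · exact hk'i h6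
            · exact hk'j h6
          · exact ⟨h5, h6⟩
        refine hfin (W ℓ c {i, j}) sF hsF h2 (fun t ht => (hall t ht).2)
          (hval {i, j} (hall μ hμmem).1) fun d hd => ?_
        by_contra hd0
        apply hd
        have h4 := hsup d hd0
        rw [hspan1 (by rw [hrk, hF1, Finset.card_pair hij]), hF1] at h4
        exact h4

/-- **General type for arrangements of pencil type.** -/
theorem general_of_pencil (hn : 3 ≤ n) (hℓ : ∀ i, ℓ i ≠ 0) (hc : Circ ℓ c) {e : Fin q}
    (he : Npar ℓ c e) {i j : Fin (n + 2)} (hij : i ≠ j) (hep : ℓ e ∈ W ℓ c {i, j})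
    {x : Fin (n + 1) → K}
    (hlx : ∀ i, lf (ℓ i) x ≠ 0) (hx0 : x 0 ≠ 0)
    (hbas : IsTranscendenceBasis ℂ (fun j : Fin n => x j.succ / x 0))
    (hP : ∀ P : Place ℂ K, Divisorial n P → HighAt ℓ x (n + 1) P)
    (h : (∃ k, k ≠ i ∧ k ≠ j ∧ ¬ Only ℓ x (W ℓ c {k})) ∨ ¬ Only ℓ x (W ℓ c {i, j})) :
    GeneralType ℂ K n := by
  classical
  have hnz : (3 : ℤ) ≤ n := by exact_mod_cast hn
  obtain ⟨U, hU⟩ : ∃ U : ℤ, ((n : ℤ) + 1) ^ 2 = U := ⟨_, rfl⟩
  have hU2 : (n : ℤ) ^ 2 + 2 * n + 1 = U := by rw [← hU]; ring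
  have hUn : 4 * (n : ℤ) ≤ U := by nlinarith
  -- the sum of a function with prescribed values at `i` and `j`
  have hsum : ∀ (f : Fin (n + 2) → ℤ), f i = 5 * U → f j = 5 * U →
      (∑ k, f k = 10 * U + ∑ k ∈ (Finset.univ.erase i).erase j, f k) := by
    intro f hi hj
    rw [← Finset.add_sum_erase _ _ (Finset.mem_univ i), ← Finset.add_sum_erase (Finset.univ.erase i)
      _ (Finset.mem_erase.2 ⟨hij.symm, Finset.mem_univ j⟩), hi, hj]
    ring
  have hcard : (((Finset.univ.erase i).erase j : Finset (Fin (n + 2))).card : ℤ) = n := by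
    rw [Finset.card_erase_of_mem (Finset.mem_erase.2 ⟨hij.symm, Finset.mem_univ _⟩),
      Finset.card_erase_of_mem (Finset.mem_univ _), Finset.card_univ, Fintype.card_fin]
    simp
  rcases h with ⟨k0, hk0i, hk0j, hk0⟩ | hF
  · let s : Fin (n + 2) → ℤ := fun k => if k = i ∨ k = j then 5 * U else
      if k = k0 then 4 * U - n else 4 * U + 1
    have hsi : s i = 5 * U := by simp [s]
    have hsj : s j = 5 * U := by simp [s]
    have hb : ∀ k, 4 * U - n ≤ s k ∧ s k ≤ 5 * U := by
      intro k
      simp only [s]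
      split_ifs <;> constructor <;> linarith
    refine general_of_tight hn hℓ hc he hij hep (s := s) (sF := 4 * U + 1) (U := U) hU hsi hsj
      (fun k => (hb k).1) (by linarith) (fun k => (hb k).2) (by linarith) ?_ hlx hx0 hbas hP ?_
      (Or.inl le_rfl)
    · rw [hsum s hsi hsj]
      have h1 : ∑ k ∈ (Finset.univ.erase i).erase j, s k =
          ∑ k ∈ (Finset.univ.erase i).erase j, ((4 * U + 1) - (if k = k0 then (n : ℤ) + 1 else 0)) := by
        refine Finset.sum_congr rfl fun k hk => ?_
        rw [Finset.mem_erase, Finset.mem_erase] at hk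
        simp only [s]
        rw [if_neg (by rintro (h | h); exacts [hk.2.1 h, hk.1 h])]
        split_ifs <;> ring
      rw [h1, Finset.sum_sub_distrib, Finset.sum_ite_eq', if_pos (Finset.mem_erase.2 ⟨hk0j,
        Finset.mem_erase.2 ⟨hk0i, Finset.mem_univ _⟩⟩), Finset.sum_const, nsmul_eq_mul, hcard]
      ring
    · intro k hki hkj
      by_cases hk : k = k0
      · right
        rw [hk]
        exact hk0
      · left
        simp only [s]
        rw [if_neg (by rintro (h | h); exacts [hki h, hkj h]), if_neg hk]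
  · let s : Fin (n + 2) → ℤ := fun k => if k = i ∨ k = j then 5 * U else 4 * U + 1
    have hsi : s i = 5 * U := by simp [s]
    have hsj : s j = 5 * U := by simp [s]
    have hb : ∀ k, 4 * U - n ≤ s k ∧ s k ≤ 5 * U := by
      intro k
      simp only [s]
      split_ifs <;> constructor <;> linarith
    refine general_of_tight hn hℓ hc he hij hep (s := s) (sF := 4 * U - n) (U := U) hU hsi hsj
      (fun k => (hb k).1) (by linarith) (fun k => (hb k).2) (by linarith) ?_ hlx hx0 hbas hP ?_
      (Or.inr hF)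
    · rw [hsum s hsi hsj]
      have h1 : ∑ k ∈ (Finset.univ.erase i).erase j, s k =
          ∑ k ∈ (Finset.univ.erase i).erase j, (4 * U + 1) := by
        refine Finset.sum_congr rfl fun k hk => ?_
        rw [Finset.mem_erase, Finset.mem_erase] at hk
        simp only [s]
        rw [if_neg (by rintro (h | h); exacts [hk.2.1 h, hk.1 h])]
      rw [h1, Finset.sum_const, nsmul_eq_mul, hcard]
      ring
    · intro k hki hkj
      left
      simp only [s]
      rw [if_neg (by rintro (h | h); exacts [hki h, hkj h])]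

end

end Pool.Agent.TH122.PA
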