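import Pool.Agent.TH122.PA.Wt

/-!
Arrangements which contain `n + 2` hyperplanes in general position and at least one more: general
type and Kodaira dimension at least one.
-/

set_option autoImplicit false

open FF Pool.Agent.W603.LV Pool.Agent.W602.GT Pool.Agent.W602.Cov Pool.Agent.W602.Cov.G
open Pool.Agent.W168.CG.PGR Pool.Agent.TH152.AC Module

namespace Pool.Agent.TH122.PA

variable {n q : ℕ} {ℓ : Fin q → Form n} {c : Fin (n + 2) → Fin q}

theorem span_of_circ (hc : Circ ℓ c) : Submodule.span ℂ (Set.range ℓ) = ⊤ := by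
  rw [eq_top_iff, ← (bas (⟨fun a => c ((0 : Fin (n + 2)).succAbove a), hc 0⟩ : Bases ℓ)).span_eq]
  apply Submodule.span_mono
  rintro _ ⟨a, rfl⟩
  rw [bas_apply]
  exact ⟨_, rfl⟩

section

variable {K : Type} [Field K] [Algebra ℂ K]

theorem general_of_not_pencil (hn : 3 ≤ n) (hℓ : ∀ i, ℓ i ≠ 0) (hc : Circ ℓ c) {e0 : Fin q}
    (he0 : Npar ℓ c e0) (hp : ¬ ∃ i j, i ≠ j ∧ Pencil ℓ c i j) {x : Fin (n + 1) → K}
    (hlx : ∀ i, lf (ℓ i) x ≠ 0) (hx0 : x 0 ≠ 0)
    (hbas : IsTranscendenceBasis ℂ (fun j : Fin n => x j.succ / x 0))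
    (hP : ∀ P : Place ℂ K, Divisorial n P → HighAt ℓ x (n + 1) P) : GeneralType ℂ K n := by
  classical
  obtain ⟨e, e', he, he', hab⟩ := exists_pair hn hc hℓ he0 hp
  obtain ⟨T, hT⟩ : ∃ T : ℕ, T = 2 * (n + 1) ^ 2 := ⟨_, rfl⟩
  obtain ⟨w, hw⟩ : ∃ w : ℕ, w + 2 * (n + 2) = T := ⟨T - 2 * (n + 2), by
    have : 2 * (n + 2) ≤ T := by rw [hT]; nlinarith
    omega⟩
  have hTz : (T : ℤ) = 2 * ((n : ℤ) + 1) ^ 2 := by rw [hT]; push_cast; ring
  have hwz : (w : ℤ) = T - 2 * (n + 2) := by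
    have : ((w + 2 * (n + 2) : ℕ) : ℤ) = T := by rw [hw]
    push_cast at this
    linarith
  have hnz : (3 : ℤ) ≤ n := by exact_mod_cast hn
  have hsl : ∀ F, Proper ℓ F →
      (2 * n + 3 : ℤ) ≤ sl ℓ T (bt c (fun _ => w) e (2 * n + 3) e' (2 * n + 3)) F := by
    intro F hF
    rw [sl_bt, Finset.sum_const, nsmul_eq_mul, hwz]
    obtain ⟨h1, h2⟩ := card_props hc hF
    have h3 := one_le_rk hℓ hF.1
    have h1z : ((CF c F).card : ℤ) ≤ n := by exact_mod_cast h1
    have h2z : ((CF c F).card : ℤ) ≤ rk ℓ F := by exact_mod_cast h2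
    have h3z : (1 : ℤ) ≤ rk ℓ F := by exact_mod_cast h3
    have h0z : (0 : ℤ) ≤ (CF c F).card := by positivity
    have hTpos : (0 : ℤ) ≤ T := by positivity
    have hsucc : (∃ d ∈ F, ℓ d ∉ W ℓ c (CF c F)) →
        (T : ℤ) * ((CF c F).card + 1) ≤ T * rk ℓ F := by
      rintro ⟨d, hd, hdW⟩
      have h4 := rk_succ hc hF hd hdW
      apply mul_le_mul_of_nonneg_left _ hTpos
      exact_mod_cast h4
    have h5 : (T : ℤ) * (CF c F).card ≤ T * rk ℓ F := mul_le_mul_of_nonneg_left h2z hTpos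
    have h6 : (T : ℤ) * 1 ≤ T * rk ℓ F := mul_le_mul_of_nonneg_left h3z hTpos
    by_cases heF : e ∈ F
    · by_cases heF' : e' ∈ F
      · rw [if_pos heF, if_pos heF']
        by_cases hW : ℓ e ∈ W ℓ c (CF c F) ∧ ℓ e' ∈ W ℓ c (CF c F)
        · have h7 := two_le (hℓ e) he hW.1
          have h8 : 3 ≤ (CF c F).card := by
            by_contra hcon
            have h9 : (CF c F).card = 2 := by omega
            obtain ⟨a, b, -, hAB⟩ := Finset.card_eq_two.1 h9
            rw [hAB] at hW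
            exact hab a b hW
          have h8z : (3 : ℤ) ≤ (CF c F).card := by exact_mod_cast h8
          push_cast
          nlinarith
        · have h7 := hsucc (by
            by_cases h8 : ℓ e ∈ W ℓ c (CF c F)
            · exact ⟨e', heF', fun h9 => hW ⟨h8, h9⟩⟩
            · exact ⟨e, heF, h8⟩)
          push_cast
          nlinarith
      · rw [if_pos heF, if_neg heF']
        by_cases hW : ℓ e ∈ W ℓ c (CF c F)
        · have h7 := two_le (hℓ e) he hW
          have h8z : (2 : ℤ) ≤ (CF c F).card := by exact_mod_cast h7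
          push_cast
          nlinarith
        · have h7 := hsucc ⟨e, heF, hW⟩
          push_cast
          nlinarith
    · by_cases heF' : e' ∈ F
      · rw [if_neg heF, if_pos heF']
        by_cases hW : ℓ e' ∈ W ℓ c (CF c F)
        · have h7 := two_le (hℓ e') he' hW
          have h8z : (2 : ℤ) ≤ (CF c F).card := by exact_mod_cast h7
          push_cast
          nlinarith
        · have h7 := hsucc ⟨e', heF', hW⟩
          push_cast
          nlinarith
      · rw [if_neg heF, if_neg heF']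
        rcases Nat.eq_zero_or_pos (CF c F).card with h7 | h7
        · rw [h7] at h5 ⊢
          push_cast
          nlinarith
        · have h8z : (1 : ℤ) ≤ (CF c F).card := by exact_mod_cast h7
          push_cast
          nlinarith
  refine general_crit (span_of_circ hc) hlx hx0 hbas (β := bt c (fun _ => w) e (2 * n + 3) e'
    (2 * n + 3)) (T := T) (by rw [hT]; positivity) ?_ ?_
  · rw [bt_total, Finset.sum_const, Finset.card_univ, Fintype.card_fin, smul_eq_mul]
    have h1 : (((n + 2) * w + (2 * n + 3) + (2 * n + 3) : ℕ) : ℤ) = (((n + 1) * T : ℕ) : ℤ) := by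
      push_cast
      rw [hwz, hTz]
      ring
    exact_mod_cast h1
  · intro P hPd a v hvi hv0 hsp μ hμ hμ'
    obtain ⟨i2, hi2⟩ := hμ'
    obtain ⟨i3, hi3⟩ := hP P hPd a v hvi hv0 hsp
    have hμN : n + 1 ≤ μ := hi3.trans (hμ i3)
    have h1 : ∀ t ∈ Finset.Icc 1 μ, (2 * n + 3 : ℤ) ≤
        sl ℓ T (bt c (fun _ => w) e (2 * n + 3) e' (2 * n + 3)) (lev v t) := by
      intro t ht
      rw [Finset.mem_Icc] at ht
      exact hsl _ (proper_lev ht.1 (i := i2) (by rw [hi2]; exact ht.2) hsp)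
    have h2 := Finset.sum_le_sum h1
    rw [Finset.sum_const, Nat.card_Icc] at h2
    refine le_trans ?_ h2
    rw [nsmul_eq_mul, Nat.add_sub_cancel, hTz]
    have h3 : ((n : ℤ) + 1) ≤ μ := by exact_mod_cast hμN
    nlinarith

theorem sl_add (T : ℕ) (β : Fin q → ℕ) (j : Fin q) (F : Finset (Fin q)) :
    sl ℓ T (β + (Pi.single j 1 : Fin q → ℕ)) F = sl ℓ T β F - (if j ∈ F then 1 else 0) := by
  classical
  unfold sl
  have h1 : ∑ i ∈ F, ((β + (Pi.single j 1 : Fin q → ℕ)) i : ℤ) =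
      ∑ i ∈ F, (β i : ℤ) + (if j ∈ F then 1 else 0) := by
    rw [← Finset.sum_ite_eq' F j (fun _ => (1 : ℤ)), ← Finset.sum_add_distrib]
    refine Finset.sum_congr rfl fun i _ => ?_
    by_cases hij : i = j
    · subst hij
      simp
    · simp [hij, Pi.single_eq_of_ne hij]
  rw [h1]
  ring

theorem kod_of_pencil (hn : 3 ≤ n) (hℓ : ∀ i, ℓ i ≠ 0) (hc : Circ ℓ c) {e : Fin q}
    (he : Npar ℓ c e) {i j : Fin (n + 2)} (hij : i ≠ j) (hep : ℓ e ∈ W ℓ c {i, j})
    {x : Fin (n + 1) → K}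
    (hlx : ∀ i, lf (ℓ i) x ≠ 0) (hx0 : x 0 ≠ 0)
    (hbas : IsTranscendenceBasis ℂ (fun j : Fin n => x j.succ / x 0))
    (hP : ∀ P : Place ℂ K, Divisorial n P → HighAt ℓ x (n + 1) P) :
    KodGe ℂ K n (fun _ => False) 1 := by
  classical
  have hnz : (3 : ℤ) ≤ n := by exact_mod_cast hn
  let w0 : Fin (n + 2) → ℕ := fun k => if k = i then n - 1 else n
  have hw0 : ∀ k, (w0 k : ℤ) = n - (if k = i then 1 else 0) := by
    intro k
    simp only [w0]
    split_ifs
    · omega
    · simp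
  have hsum : ∀ A : Finset (Fin (n + 2)), ∑ k ∈ A, (w0 k : ℤ) =
      n * A.card - (if i ∈ A then 1 else 0) := by
    intro A
    simp only [hw0]
    rw [Finset.sum_sub_distrib, Finset.sum_ite_eq', Finset.sum_const, nsmul_eq_mul]
    ring
  have hpar : ∀ t : ℂ, ℓ (c i) ≠ t • ℓ e := by
    intro t ht
    have ht0 : t ≠ 0 := by
      rintro rfl
      rw [zero_smul] at ht
      exact hℓ _ ht
    apply he i t⁻¹
    rw [ht, smul_smul, inv_mul_cancel₀ ht0, one_smul]
  have key : ∀ F, Proper ℓ F →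
      ((CF c F).card : ℤ) ≤ n ∧ 0 ≤ ((CF c F).card : ℤ) ∧
      ((1 : ℤ) ≤ rk ℓ F) ∧ (((CF c F).card : ℤ) ≤ rk ℓ F) ∧
      (e ∈ F → (((CF c F).card : ℤ) + 1 ≤ rk ℓ F) ∨
        (2 ≤ ((CF c F).card : ℤ) ∧ (i ∈ CF c F ∨ ((CF c F).card : ℤ) = n))) := by
    intro F hF
    obtain ⟨h1, h2⟩ := card_props hc hF
    refine ⟨by exact_mod_cast h1, by positivity, by exact_mod_cast one_le_rk hℓ hF.1,
      by exact_mod_cast h2, fun heF => ?_⟩
    by_cases hW : ℓ e ∈ W ℓ c (CF c F)
    · right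
      refine ⟨by exact_mod_cast two_le (hℓ e) he hW, ?_⟩
      rcases mem_W_of hc hij he hep h1 hW with ⟨h3, -⟩ | ⟨h3, -, -⟩
      · exact Or.inl h3
      · exact Or.inr (by exact_mod_cast h3)
    · left
      exact_mod_cast rk_succ hc hF heF hW
  refine kod_one (span_of_circ hc) hlx hx0 hbas (N := n + 1) (by omega) hP
    (β := bt c w0 e 1 e 0) (T := n + 1) (by omega) (i := c i) (e := e) hpar ?_ ?_ ?_
  · rw [bt_total]
    have h1 := hsum Finset.univ
    rw [Finset.card_univ, Fintype.card_fin, if_pos (Finset.mem_univ _)] at h1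
    have h2 : (((∑ k, w0 k) + 1 + 0 + 1 : ℕ) : ℤ) = (((n + 1) * (n + 1) : ℕ) : ℤ) := by
      push_cast
      push_cast at h1
      rw [h1]
      ring
    exact_mod_cast h2
  · intro F hF
    obtain ⟨h1, h2, h3, h4, h5⟩ := key F hF
    have hgoal : (1 : ℤ) ≤ sl ℓ (n + 1) (bt c w0 e 1 e 0 + (Pi.single (c i) 1 : Fin q → ℕ)) F := by
      rw [sl_add, sl_bt, hsum]
      have h6 : (i ∈ CF c F) ↔ c i ∈ F := mem_CF
      simp only [h6]
      clear h6
      push_cast
      by_cases heF : e ∈ F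
      · have h7 := h5 heF
        rcases h7 with h7 | ⟨h7, -⟩
        · split_ifs <;> nlinarith
        · split_ifs <;> nlinarith
      · rw [if_neg heF]
        rcases lt_or_ge 0 ((CF c F).card : ℤ) with h7 | h7
        · split_ifs <;> nlinarith
        · have h8 : ((CF c F).card : ℤ) = 0 := le_antisymm h7 h2
          rw [h8]
          split_ifs <;> nlinarith
    have h8 : (0 : ℤ) ≤ (n : ℤ) + 1 := by positivity
    push_cast
    nlinarith
  · intro F hF
    obtain ⟨h1, h2, h3, h4, h5⟩ := key F hF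
    have hgoal : (1 : ℤ) ≤ sl ℓ (n + 1) (bt c w0 e 1 e 0 + (Pi.single e 1 : Fin q → ℕ)) F := by
      rw [sl_add, sl_bt, hsum]
      push_cast
      by_cases heF : e ∈ F
      · have h7 := h5 heF
        rcases h7 with h7 | ⟨h7, h9 | h9⟩
        · split_ifs <;> nlinarith
        · rw [if_pos h9]
          split_ifs
          nlinarith
        · rw [h9] at h4 ⊢
          split_ifs <;> nlinarith
      · rw [if_neg heF]
        rcases lt_or_ge 0 ((CF c F).card : ℤ) with h7 | h7
        · split_ifs <;> nlinarith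
        · have h8 : ((CF c F).card : ℤ) = 0 := le_antisymm h7 h2
          rw [h8]
          split_ifs <;> nlinarith
    have h8 : (0 : ℤ) ≤ (n : ℤ) + 1 := by positivity
    push_cast
    nlinarith

end

end Pool.Agent.TH122.PA
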