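import Pool.Agent.TH122.PA.Tri

/-!
Pairs over an arrangement at the critical bound.
-/

set_option autoImplicit false

open FF Pool.Agent.W603.LV Pool.Agent.W602.GT Pool.Agent.W602.Cov Pool.Agent.W602.Cov.G
open Pool.Agent.W168.CG.PGR Pool.Agent.TH152.AC Module Pool.Agent.TH122.AB

namespace Pool.Agent.TH122.PA

variable {n q : ℕ} {ℓ : Fin q → Form n}

/-- weights with slack more than `1 / (n + 1)` -/
def Slack (ℓ : Fin q → Form n) : Prop :=
  ∃ (β : Fin q → ℕ) (T : ℕ), 0 < T ∧ ∑ i, β i = (n + 1) * T ∧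
    ∀ F, Proper ℓ F → (T : ℤ) + 1 ≤ ((n : ℤ) + 1) * sl ℓ T β F

theorem slack_no_circuit (hn : 1 ≤ n) (hℓ : ∀ i, ℓ i ≠ 0) (hr : ¬ Reducible ℓ)
    (hNC : ¬ ∃ c, Circ ℓ c) : Slack ℓ := by
  classical
  have hspan := Pool.Agent.W392.CG.span_top hn ℓ hr
  obtain ⟨p, hp⟩ := weights_no_circuit hn hℓ hr hNC
  have hne := exists_bases hspan
  have hpos : 0 < ∑ B, p B := by
    obtain ⟨B0⟩ := hne
    have hprop : Proper ℓ {B0.1 0} := by
      refine ⟨⟨_, Finset.mem_singleton_self _⟩, fun htop => ?_⟩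
      have h1 : Module.finrank ℂ (Submodule.span ℂ
          (ℓ '' (({B0.1 0} : Finset (Fin q)) : Set (Fin q)))) = n + 1 := by
        rw [htop, finrank_top, finrank_form]
      rw [Finset.coe_singleton, Set.image_singleton, finrank_span_singleton (hℓ _)] at h1
      omega
    have h1 := hp _ hprop
    by_contra hcon
    have h2 : ∑ B, p B = 0 := by omega
    rw [h2] at h1
    simp at h1
  refine ⟨fun i => ∑ B : Bases ℓ, p B * (Finset.univ.filter fun a => B.1 a = i).card, ∑ B, p B,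
    hpos, ?_, fun F hF => ?_⟩
  · rw [Finset.sum_comm]
    simp_rw [← Finset.mul_sum]
    have h1 : ∀ B : Bases ℓ, ∑ i, (Finset.univ.filter fun a => B.1 a = i).card = n + 1 := by
      intro B
      have h2 := Finset.card_eq_sum_card_fiberwise (f := B.1) (s := Finset.univ)
        (t := Finset.univ) (fun a _ => Finset.mem_univ _)
      rw [Finset.card_univ, Fintype.card_fin] at h2
      exact h2.symm
    simp_rw [h1]
    rw [← Finset.sum_mul, mul_comm]
  · have h1 := hp F hF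
    have h2 : ∑ i ∈ F, (∑ B : Bases ℓ, p B * (Finset.univ.filter fun a => B.1 a = i).card) =
        ∑ B : Bases ℓ, p B * cnt B.1 F := by
      rw [Finset.sum_comm]
      refine Finset.sum_congr rfl fun B _ => ?_
      rw [← Finset.mul_sum]
      congr 1
      unfold cnt
      have h3 := Finset.card_eq_sum_card_fiberwise (f := B.1)
        (s := Finset.univ.filter fun a => B.1 a ∈ F) (t := F)
        (fun a ha => (Finset.mem_filter.1 ha).2)
      rw [h3]
      refine Finset.sum_congr rfl fun i hi => ?_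
      congr 1
      ext a
      simp only [Finset.mem_filter, Finset.mem_univ, true_and]
      constructor
      · intro h
        exact ⟨by rw [h]; exact hi, h⟩
      · exact fun h => h.2
    have h4 : sl ℓ (∑ B, p B) (fun i => ∑ B : Bases ℓ, p B *
        (Finset.univ.filter fun a => B.1 a = i).card) F =
        ((∑ B, p B : ℕ) : ℤ) * rk ℓ F - ((∑ B : Bases ℓ, p B * cnt B.1 F : ℕ) : ℤ) := by
      unfold sl
      rw [← h2]
      push_cast
      rfl
    rw [h4]
    have h5 : (((n + 1) * (∑ B, p B * cnt B.1 F) + ∑ B, p B + 1 : ℕ) : ℤ) ≤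
        (((n + 1) * ((∑ B, p B) * rk ℓ F) : ℕ) : ℤ) := by exact_mod_cast h1
    push_cast at h5 ⊢
    linarith

theorem slack_not_pencil (hn : 3 ≤ n) (hℓ : ∀ i, ℓ i ≠ 0) {c : Fin (n + 2) → Fin q}
    (hc : Circ ℓ c) {e0 : Fin q}
    (he0 : Npar ℓ c e0) (hp : ¬ ∃ i j, i ≠ j ∧ Pencil ℓ c i j) : Slack ℓ := by
  classical
  obtain ⟨e, e', he, he', hab⟩ := exists_pair hn hc hℓ he0 hp
  obtain ⟨T, hT⟩ : ∃ T : ℕ, T = 2 * (n + 1) ^ 2 := ⟨_, rfl⟩
  obtain ⟨w, hw⟩ : ∃ w : ℕ, w + 2 * (n + 2) = T := ⟨T - 2 * (n + 2), by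
    have : 2 * (n + 2) ≤ T := by rw [hT]; nlinarith
    omega⟩
  have hTz : (T : ℤ) = 2 * ((n : ℤ) + 1) ^ 2 := by rw [hT]; push_cast; ring
  have hwz : (w : ℤ) = T - 2 * (n + 2) := by
    have : ((w + 2 * (n + 2) : ℕ) : ℤ) = T := by rw [hw]
    push_cast at this
    linarith
  have hnz : (3 : ℤ) ≤ n := by exact_mod_cast hn
  have hsl : ∀ F, Proper ℓ F →
      (2 * n + 3 : ℤ) ≤ sl ℓ T (bt c (fun _ => w) e (2 * n + 3) e' (2 * n + 3)) F := by
    intro F hF
    rw [sl_bt, Finset.sum_const, nsmul_eq_mul, hwz]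
    obtain ⟨h1, h2⟩ := card_props hc hF
    have h3 := one_le_rk hℓ hF.1
    have h1z : ((CF c F).card : ℤ) ≤ n := by exact_mod_cast h1
    have h2z : ((CF c F).card : ℤ) ≤ rk ℓ F := by exact_mod_cast h2
    have h3z : (1 : ℤ) ≤ rk ℓ F := by exact_mod_cast h3
    have h0z : (0 : ℤ) ≤ (CF c F).card := by positivity
    have hTpos : (0 : ℤ) ≤ T := by positivity
    have hsucc : (∃ d ∈ F, ℓ d ∉ W ℓ c (CF c F)) →
        (T : ℤ) * ((CF c F).card + 1) ≤ T * rk ℓ F := by
      rintro ⟨d, hd, hdW⟩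
      have h4 := rk_succ hc hF hd hdW
      apply mul_le_mul_of_nonneg_left _ hTpos
      exact_mod_cast h4
    have h5 : (T : ℤ) * (CF c F).card ≤ T * rk ℓ F := mul_le_mul_of_nonneg_left h2z hTpos
    have h6 : (T : ℤ) * 1 ≤ T * rk ℓ F := mul_le_mul_of_nonneg_left h3z hTpos
    by_cases heF : e ∈ F
    · by_cases heF' : e' ∈ F
      · rw [if_pos heF, if_pos heF']
        by_cases hW : ℓ e ∈ W ℓ c (CF c F) ∧ ℓ e' ∈ W ℓ c (CF c F)
        · have h7 := two_le (hℓ e) he hW.1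
          have h8 : 3 ≤ (CF c F).card := by
            by_contra hcon
            have h9 : (CF c F).card = 2 := by omega
            obtain ⟨a, b, -, hAB⟩ := Finset.card_eq_two.1 h9
            rw [hAB] at hW
            exact hab a b hW
          have h8z : (3 : ℤ) ≤ (CF c F).card := by exact_mod_cast h8
          push_cast
          nlinarith
        · have h7 := hsucc (by
            by_cases h8 : ℓ e ∈ W ℓ c (CF c F)
            · exact ⟨e', heF', fun h9 => hW ⟨h8, h9⟩⟩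
            · exact ⟨e, heF, h8⟩)
          push_cast
          nlinarith
      · rw [if_pos heF, if_neg heF']
        by_cases hW : ℓ e ∈ W ℓ c (CF c F)
        · have h7 := two_le (hℓ e) he hW
          have h8z : (2 : ℤ) ≤ (CF c F).card := by exact_mod_cast h7
          push_cast
          nlinarith
        · have h7 := hsucc ⟨e, heF, hW⟩
          push_cast
          nlinarith
    · by_cases heF' : e' ∈ F
      · rw [if_neg heF, if_pos heF']
        by_cases hW : ℓ e' ∈ W ℓ c (CF c F)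
        · have h7 := two_le (hℓ e') he' hW
          have h8z : (2 : ℤ) ≤ (CF c F).card := by exact_mod_cast h7
          push_cast
          nlinarith
        · have h7 := hsucc ⟨e', heF', hW⟩
          push_cast
          nlinarith
      · rw [if_neg heF, if_neg heF']
        rcases Nat.eq_zero_or_pos (CF c F).card with h7 | h7
        · rw [h7] at h5 ⊢
          push_cast
          nlinarith
        · have h8z : (1 : ℤ) ≤ (CF c F).card := by exact_mod_cast h7
          push_cast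
          nlinarith
  refine ⟨bt c (fun _ => w) e (2 * n + 3) e' (2 * n + 3), T, by rw [hT]; positivity, ?_,
    fun F hF => ?_⟩
  · rw [bt_total, Finset.sum_const, Finset.card_univ, Fintype.card_fin, smul_eq_mul]
    have h1 : (((n + 2) * w + (2 * n + 3) + (2 * n + 3) : ℕ) : ℤ) = (((n + 1) * T : ℕ) : ℤ) := by
      push_cast
      rw [hwz, hTz]
      ring
    exact_mod_cast h1
  · have h1 := hsl F hF
    have h2 : ((n : ℤ) + 1) * (2 * n + 3) ≤ ((n : ℤ) + 1) *
        sl ℓ T (bt c (fun _ => w) e (2 * n + 3) e' (2 * n + 3)) F :=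
      mul_le_mul_of_nonneg_left h1 (by positivity)
    refine le_trans ?_ h2
    rw [hTz]
    nlinarith

/-- The slack of an arrangement which is not reducible is more than `1 / (n + 1)` unless it
consists of `n + 2` hyperplanes in general position or is of pencil type. -/
theorem slack (hn : 3 ≤ n) (hℓ : ∀ i, ℓ i ≠ 0) (hr : ¬ Reducible ℓ) (hg : ¬ ∃ c, General ℓ c)
    (hp : ¬ ∃ c i j, PencilType ℓ c i j) : Slack ℓ := by
  classical
  by_cases hcirc : ∃ c, Circ ℓ c
  · obtain ⟨c, hc⟩ := hcirc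
    have he : ∃ e, Npar ℓ c e := by
      by_contra hcon
      apply hg
      refine ⟨c, hc, fun i => ?_⟩
      by_contra h4
      apply hcon
      refine ⟨i, fun k t h5 => h4 ⟨k, t, h5⟩⟩
    obtain ⟨e, he⟩ := he
    refine slack_not_pencil hn hℓ hc he ?_
    rintro ⟨i, j, hij, hP⟩
    apply hp
    refine ⟨c, i, j, hij, hc, fun d => ?_⟩
    have h1 := hP d
    unfold W Npar at h1
    rw [Finset.coe_insert, Finset.coe_singleton, Set.image_pair] at h1
    rcases h1 with h1 | h1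
    · left
      push Not at h1
      exact h1
    · exact Or.inr h1
  · exact slack_no_circuit (by omega) hℓ hr hcirc

variable {K : Type} [Field K] [Algebra ℂ K]

/-- sections of `N (K_X + Δ)` -/
def PSec (n : ℕ) (X : Set (Place ℂ K)) (δ : Place ℂ K → ℝ) (N : ℕ)
    (ω : (Fin n → Derivation ℂ K K) → K) : Prop :=
  IsPluri N ω ∧ ∀ P ∈ X, Divisorial n P → ∀ D : Fin n → Derivation ℂ K K,
    (∀ i, DerReg P (D i)) → ω D = 0 ∨ -(N * δ P) ≤ (P.ord (ω D) : ℝ)

theorem big_of_slack (hspan : Submodule.span ℂ (Set.range ℓ) = ⊤) (hs : Slack ℓ)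
    {x : Fin (n + 1) → K} (hlx : ∀ i, lf (ℓ i) x ≠ 0) (hx0 : x 0 ≠ 0)
    (hbas : IsTranscendenceBasis ℂ (fun j : Fin n => x j.succ / x 0))
    (X : Set (Place ℂ K)) (δ : Place ℂ K → ℝ) (hδ : ∀ P ∈ X, 0 ≤ δ P)
    (h : ∀ P ∈ X, Divisorial n P → ∀ (a : ℤ) (v : Fin q → ℕ),
      (∀ φ : Form n, lf φ x = 0 ∨ a ≤ P.ord (lf φ x)) →
      (∃ φ : Form n, lf φ x ≠ 0 ∧ P.ord (lf φ x) = a) →
      (∀ i, P.ord (lf (ℓ i) x) = a + v i) → v ≠ 0 →
        ∃ i, ((n : ℝ) + 1) * (1 - δ P) ≤ v i) :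
    ∃ N : ℕ, 0 < N ∧ ∃ ω : Fin (n + 1) → (Fin n → Derivation ℂ K K) → K,
      (∀ j, PSec n X δ N (ω j)) ∧
      ∃ D, ω 0 D ≠ 0 ∧ AlgebraicIndependent ℂ (fun i : Fin n => ω i.succ D / ω 0 D) := by
  obtain ⟨β0, T0, hT0, hβ0, hsl0⟩ := hs
  obtain ⟨B0⟩ := exists_bases hspan
  have i0 : Fin q := B0.1 0
  -- rescaled weights
  obtain ⟨β, hβdef⟩ : ∃ β : Fin q → ℕ, ∀ i, β i = (n + 1) * β0 i := ⟨_, fun _ => rfl⟩
  obtain ⟨T, hTdef⟩ : ∃ T : ℕ, T = (n + 1) * T0 := ⟨_, rfl⟩
  have hT : 0 < T := by rw [hTdef]; positivity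
  have hβ : ∑ i, β i = (n + 1) * T := by
    simp only [hβdef]
    rw [← Finset.mul_sum, hβ0, hTdef]
  have hsl : ∀ F, Proper ℓ F → (T0 : ℤ) + 1 ≤ sl ℓ T β F := by
    intro F hF
    refine (hsl0 F hF).trans (le_of_eq ?_)
    unfold sl
    have h1 : ∑ i ∈ F, (β i : ℤ) = ((n : ℤ) + 1) * ∑ i ∈ F, (β0 i : ℤ) := by
      rw [Finset.mul_sum]
      refine Finset.sum_congr rfl fun i _ => ?_
      rw [hβdef]
      push_cast
      ring
    rw [h1, hTdef]
    push_cast
    ring
  obtain ⟨D, hD⟩ := (bwb n K).2.2 x hx0 hbas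
  have hpf : sf ℓ x β T D ≠ 0 := div_ne_zero (pow_ne_zero _ hD) (dn_ne hlx β)
  refine ⟨T, hT, fun j D => sf ℓ x β T D * x j / lf (ℓ i0) x, fun j => ⟨?_, ?_⟩, D, ?_, ?_⟩
  · intro A D'
    change sf ℓ x β T _ * x j / lf (ℓ i0) x = _
    rw [sf_pluri x β T A D']
    ring
  · intro P hPX hP D hD
    change sf ℓ x β T D * x j / lf (ℓ i0) x = 0 ∨
      -(T * δ P) ≤ (P.ord (sf ℓ x β T D * x j / lf (ℓ i0) x) : ℝ)
    obtain ⟨a, v, hvi, hxj, hsp⟩ := place_data hspan hlx P i0
    have hfin : ∀ c : ℤ, Ge P c (sf ℓ x β T D) → -(T * δ P) ≤ ((c - v i0 : ℤ) : ℝ) →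
        sf ℓ x β T D * x j / lf (ℓ i0) x = 0 ∨
        -(T * δ P) ≤ (P.ord (sf ℓ x β T D * x j / lf (ℓ i0) x) : ℝ) := by
      intro c h3 h4
      have h5 := ge_div (hlx i0) (h3.mul (hxj j))
      rw [hvi i0] at h5
      rcases h5 with h5 | h5
      · exact Or.inl h5
      · right
        refine h4.trans ?_
        have h6 : c - v i0 ≤ P.ord (sf ℓ x β T D * x j / lf (ℓ i0) x) := by linarith
        exact_mod_cast h6
    obtain ⟨g1, g2⟩ := sf_ord hβ hspan hlx P a v hvi hxj D 1 (reg1 P hD).1 (reg1 P hD).2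
    by_cases hv0 : v = 0
    · refine hfin 0 (g1 hv0) ?_
      rw [hv0]
      simp only [Pi.zero_apply, Nat.cast_zero, sub_zero, Int.cast_zero]
      have h3 := hδ P hPX
      have h4 : (0 : ℝ) ≤ T * δ P := mul_nonneg (by positivity) h3
      linarith
    · -- the minimum of the orders
      obtain ⟨i1, hi1⟩ : ∃ i1, v i1 = 0 := by
        by_contra hcon
        push Not at hcon
        apply hsp
        have h3 : {i | v i ≠ 0} = Set.univ := Set.eq_univ_of_forall hcon
        rw [h3, Set.image_univ]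
        exact hspan
      have hall : ∀ φ : Form n, lf φ x = 0 ∨ a ≤ P.ord (lf φ x) := by
        intro φ
        refine ge_span P a (Set.range ℓ) x ?_ φ (by rw [hspan]; trivial)
        rintro _ ⟨i, rfl⟩
        right
        rw [hvi i]
        have : (0 : ℤ) ≤ v i := by positivity
        linarith
      obtain ⟨i3, hi3⟩ := h P hPX hP a v hall ⟨ℓ i1, hlx i1, by rw [hvi i1, hi1]; simp⟩ hvi hv0
      obtain ⟨i2, -, hmax⟩ := Finset.exists_max_image Finset.univ v ⟨i0, Finset.mem_univ _⟩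
      have hle : ∀ i, v i ≤ v i2 := fun i => hmax i (Finset.mem_univ i)
      refine hfin _ (g2 (v i2) hle) ?_
      have h3 : ∀ t ∈ Finset.Icc 1 (v i2), ((T0 : ℤ) + 1) ≤ sl ℓ T β (lev v t) := by
        intro t ht
        rw [Finset.mem_Icc] at ht
        exact hsl _ (proper_lev ht.1 (i := i2) ht.2 hsp)
      have h4 := Finset.sum_le_sum h3
      rw [Finset.sum_const, Nat.card_Icc, nsmul_eq_mul, Nat.add_sub_cancel] at h4
      have h5 : ((v i2 : ℕ) : ℝ) * ((T0 : ℝ) + 1) ≤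
          ((∑ t ∈ Finset.Icc 1 (v i2), sl ℓ T β (lev v t) : ℤ) : ℝ) := by exact_mod_cast h4
      have h6 : ((n : ℝ) + 1) * (1 - δ P) ≤ v i2 :=
        hi3.trans (by exact_mod_cast hle i3)
      have h7 : (v i0 : ℝ) ≤ v i2 := by exact_mod_cast hle i0
      have h8 : (T : ℝ) = ((n : ℝ) + 1) * T0 := by
        rw [hTdef]
        push_cast
        ring
      have h9 : (0 : ℝ) ≤ T0 := by positivity
      have h10 := mul_le_mul_of_nonneg_left h6 h9
      push_cast
      rw [h8]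
      push_cast at h5
      nlinarith
  · change sf ℓ x β T D * x 0 / lf (ℓ i0) x ≠ 0
    exact div_ne_zero (mul_ne_zero hpf hx0) (hlx i0)
  · have h0 := hlx i0
    have e : (fun i : Fin n => sf ℓ x β T D * x i.succ / lf (ℓ i0) x /
        (sf ℓ x β T D * x 0 / lf (ℓ i0) x)) = fun i : Fin n => x i.succ / x 0 := by
      funext i
      field_simp
    change AlgebraicIndependent ℂ (fun i : Fin n => sf ℓ x β T D * x i.succ / lf (ℓ i0) x /
        (sf ℓ x β T D * x 0 / lf (ℓ i0) x))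
    rw [e]
    exact hbas.1

end Pool.Agent.TH122.PA
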