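import Pool.Agent.TH152.AC.Fin
import Pool.Agent.TH122.AB.Circ

/-!
Pluricanonical forms with prescribed poles along the hyperplanes of an arrangement.
-/

set_option autoImplicit false

open FF Pool.Agent.W603.LV Pool.Agent.W602.GT Pool.Agent.W602.Cov Pool.Agent.W602.Cov.G
open Pool.Agent.W168.CG.PGR Pool.Agent.TH152.AC

namespace Pool.Agent.TH122.PA

variable {n q : ℕ} {ℓ : Fin q → Form n} {K : Type} [Field K] [Algebra ℂ K]

/-- the product of powers of the forms -/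
noncomputable def dn (ℓ : Fin q → Form n) (x : Fin (n + 1) → K) (β : Fin q → ℕ) : K :=
  ∏ i, lf (ℓ i) x ^ β i

/-- the pluricanonical form -/
noncomputable def sf (ℓ : Fin q → Form n) (x : Fin (n + 1) → K) (β : Fin q → ℕ) (T : ℕ)
    (D : Fin n → Derivation ℂ K K) : K := bw D x ^ T / dn ℓ x β

theorem dn_ne {x : Fin (n + 1) → K} (hx : ∀ i, lf (ℓ i) x ≠ 0) (β : Fin q → ℕ) :
    dn ℓ x β ≠ 0 :=
  Finset.prod_ne_zero_iff.2 fun _ _ => pow_ne_zero _ (hx _)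

theorem ord_dn (P : Place ℂ K) {x : Fin (n + 1) → K} (hx : ∀ i, lf (ℓ i) x ≠ 0)
    (β : Fin q → ℕ) : P.ord (dn ℓ x β) = ∑ i, (β i : ℤ) * P.ord (lf (ℓ i) x) := by
  unfold dn
  rw [ord_prod' P Finset.univ _ fun i _ => pow_ne_zero _ (hx i)]
  refine Finset.sum_congr rfl fun i _ => ?_
  rw [P.ord_pow]

theorem dn_scale (x : Fin (n + 1) → K) (β : Fin q → ℕ) (lam : K) :
    dn ℓ (fun j => lam * x j) β = lam ^ (∑ i, β i) * dn ℓ x β := by
  unfold dn
  rw [← Finset.prod_pow_eq_pow_sum, ← Finset.prod_mul_distrib]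
  refine Finset.prod_congr rfl fun i _ => ?_
  rw [lf_mul, mul_pow]

theorem sf_scale (x : Fin (n + 1) → K) {β : Fin q → ℕ} {T : ℕ} (hβ : ∑ i, β i = (n + 1) * T)
    (D : Fin n → Derivation ℂ K K) {lam : K} (hlam : lam ≠ 0) :
    sf ℓ (fun j => lam * x j) β T D = sf ℓ x β T D := by
  unfold sf
  rw [dn_scale, (bwa n K).1 D lam x, mul_pow, ← pow_mul, hβ,
    mul_div_mul_left _ _ (pow_ne_zero _ hlam)]

theorem sf_pluri (x : Fin (n + 1) → K) (β : Fin q → ℕ) (T : ℕ) :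
    IsPluri T (sf ℓ x β T) := by
  intro A D
  unfold sf
  rw [(bwa n K).2.1 A D x, mul_pow]
  ring

/-- the level sets -/
def lev (v : Fin q → ℕ) (t : ℕ) : Finset (Fin q) := Finset.univ.filter fun i => t ≤ v i

theorem mem_lev {v : Fin q → ℕ} {t : ℕ} {i : Fin q} : i ∈ lev v t ↔ t ≤ v i := by
  unfold lev
  rw [Finset.mem_filter]
  simp

/-- the slack of a set of hyperplanes -/
noncomputable def sl (ℓ : Fin q → Form n) (T : ℕ) (β : Fin q → ℕ) (F : Finset (Fin q)) : ℤ :=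
  T * rk ℓ F - ∑ i ∈ F, (β i : ℤ)

theorem layers (hne : Nonempty (Bases ℓ)) (T : ℕ) (β v : Fin q → ℕ) {μ : ℕ}
    (hμ : ∀ i, v i ≤ μ) : ∃ B' : Bases ℓ, ∑ t ∈ Finset.Icc 1 μ, sl ℓ T β (lev v t) ≤
      T * (∑ a, (v (B'.1 a) : ℤ)) - ∑ i, (β i : ℤ) * v i := by
  classical
  obtain ⟨B1⟩ := hne
  obtain ⟨B', -, hmax⟩ := Finset.exists_max_image (Finset.univ : Finset (Bases ℓ))
    (fun B => ∑ a, v (B.1 a)) ⟨B1, Finset.mem_univ _⟩
  refine ⟨B', ?_⟩
  have hfill : ∀ t, rk ℓ (lev v t) ≤ cnt B'.1 (lev v t) := fun t =>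
    fill v B' (fun B => hmax B (Finset.mem_univ _)) t
  have hlay : ∑ t ∈ Finset.Icc 1 μ, cnt B'.1 (lev v t) = ∑ a, v (B'.1 a) := by
    have e1 : ∀ t, cnt B'.1 (lev v t) = ∑ a, (if t ≤ v (B'.1 a) then 1 else 0) := by
      intro t
      unfold cnt
      rw [Finset.card_filter]
      refine Finset.sum_congr rfl fun a _ => ?_
      simp only [mem_lev]
    rw [Finset.sum_congr rfl fun t _ => e1 t, Finset.sum_comm]
    exact Finset.sum_congr rfl fun a _ => (layer (v (B'.1 a)) μ (hμ _)).symm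
  have hb : ∑ t ∈ Finset.Icc 1 μ, ∑ i ∈ lev v t, (β i : ℤ) = ∑ i, (β i : ℤ) * v i := by
    have e1 : ∀ t, ∑ i ∈ lev v t, (β i : ℤ) = ∑ i, (β i : ℤ) * (if t ≤ v i then 1 else 0) := by
      intro t
      unfold lev
      rw [Finset.sum_filter]
      refine Finset.sum_congr rfl fun i _ => ?_
      split_ifs <;> simp
    rw [Finset.sum_congr rfl fun t _ => e1 t, Finset.sum_comm]
    refine Finset.sum_congr rfl fun i _ => ?_
    rw [← Finset.mul_sum]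
    congr 1
    have h1 := layer (v i) μ (hμ i)
    have h2 : ((v i : ℕ) : ℤ) = ((∑ t ∈ Finset.Icc 1 μ, (if t ≤ v i then 1 else 0) : ℕ) : ℤ) := by
      rw [← h1]
    rw [h2]
    push_cast
    rfl
  unfold sl
  rw [Finset.sum_sub_distrib, hb, ← Finset.mul_sum]
  have h3 : (∑ t ∈ Finset.Icc 1 μ, (rk ℓ (lev v t) : ℤ)) ≤ ∑ a, (v (B'.1 a) : ℤ) := by
    have h4 : ∑ t ∈ Finset.Icc 1 μ, rk ℓ (lev v t) ≤ ∑ a, v (B'.1 a) := by
      rw [← hlay]
      exact Finset.sum_le_sum fun t _ => hfill t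
    exact_mod_cast h4
  have h5 : (T : ℤ) * (∑ t ∈ Finset.Icc 1 μ, (rk ℓ (lev v t) : ℤ)) ≤
      T * ∑ a, (v (B'.1 a) : ℤ) := mul_le_mul_of_nonneg_left h3 (by positivity)
  linarith

/-- the orders of the forms at a place -/
theorem place_data (hspan : Submodule.span ℂ (Set.range ℓ) = ⊤) {x : Fin (n + 1) → K}
    (hlx : ∀ i, lf (ℓ i) x ≠ 0) (P : Place ℂ K) (i0 : Fin q) :
    ∃ (a : ℤ) (v : Fin q → ℕ), (∀ i, P.ord (lf (ℓ i) x) = a + v i) ∧ (∀ j, Ge P a (x j)) ∧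
      Submodule.span ℂ (ℓ '' {i | v i ≠ 0}) ≠ ⊤ := by
  obtain ⟨i1, -, hmin⟩ := Finset.exists_min_image Finset.univ (fun i => P.ord (lf (ℓ i) x))
    ⟨i0, Finset.mem_univ _⟩
  obtain ⟨a, ha⟩ : ∃ a, a = P.ord (lf (ℓ i1) x) := ⟨_, rfl⟩
  obtain ⟨v, hvi⟩ : ∃ v : Fin q → ℕ, ∀ i, P.ord (lf (ℓ i) x) = a + v i := by
    refine ⟨fun i => (P.ord (lf (ℓ i) x) - a).toNat, fun i => ?_⟩
    have h3 := hmin i (Finset.mem_univ i)
    rw [Int.toNat_of_nonneg]
    · ring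
    · rw [ha]
      linarith
  have hi1 : v i1 = 0 := by
    have := hvi i1
    omega
  refine ⟨a, v, hvi, fun j => ?_, fun htop => ?_⟩
  · have h3 := ge_span P a (Set.range ℓ) x (by
      rintro _ ⟨i, rfl⟩
      right
      rw [hvi i]
      have : (0 : ℤ) ≤ v i := by positivity
      linarith) (LinearMap.proj j) (by rw [hspan]; trivial)
    rwa [lf_proj] at h3
  · have h3 := ge_span P (a + 1) (ℓ '' {i | v i ≠ 0}) x (by
      rintro _ ⟨i, hi, rfl⟩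
      right
      rw [hvi i]
      have : v i ≠ 0 := hi
      omega) (ℓ i1) (by rw [htop]; trivial)
    rcases h3 with h3 | h3
    · exact hlx i1 h3
    · rw [hvi i1, hi1] at h3
      omega

/-- the order of the forms, normalised coordinates -/
theorem sf_ge {β : Fin q → ℕ} {T : ℕ} {x : Fin (n + 1) → K}
    (hx : ∀ i, lf (ℓ i) x ≠ 0) (P : Place ℂ K) (v : Fin q → ℕ)
    (hord : ∀ i, P.ord (lf (ℓ i) x) = v i) (D : Fin n → Derivation ℂ K K) (e : ℕ)
    (h1 : ∀ f : Fin (n + 1) → K, (∀ j, f j ≠ 0) → Ge P ((∑ j, P.ord (f j)) - e) (bw D f))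
    (B' : Bases ℓ) :
    Ge P (T * (∑ a, (v (B'.1 a) : ℤ)) - (∑ i, (β i : ℤ) * v i) - T * e) (sf ℓ x β T D) := by
  have hord' := ord_dn P hx β
  simp only [hord] at hord'
  have hbw : Ge P ((∑ a, (v (B'.1 a) : ℤ)) - e) (bw D x) := by
    obtain ⟨c, hc⟩ : ∃ c : Matrix (Fin (n + 1)) (Fin (n + 1)) ℂ,
      c = Matrix.of fun a j : Fin (n + 1) => ℓ (B'.1 a) (Pi.single j 1) := ⟨_, rfl⟩
    have hdet : c.det ≠ 0 := by
      rw [hc]
      exact det_ne_zero (m := fun a => ℓ (B'.1 a)) B'.2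
    have e1 : bw D (fun a => lf (ℓ (B'.1 a)) x) = algebraMap ℂ K c.det * bw D x := by
      rw [← (bwa n K).2.2 c D x, hc]
      rfl
    have h3 := h1 (fun a => lf (ℓ (B'.1 a)) x) (fun a => hx (B'.1 a))
    rw [e1] at h3
    simp only [hord] at h3
    have h4 := (Ge.const (P := P) (c.det)⁻¹).mul h3
    rw [← mul_assoc, ← map_mul, inv_mul_cancel₀ hdet, map_one, one_mul, zero_add] at h4
    exact h4
  have h5 := ge_div (dn_ne hx β) (hbw.pow T)
  rw [hord'] at h5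
  refine h5.mono (le_of_eq ?_)
  ring

/-- the order of the forms -/
theorem sf_ord {β : Fin q → ℕ} {T : ℕ} (hβ : ∑ i, β i = (n + 1) * T)
    (hspan : Submodule.span ℂ (Set.range ℓ) = ⊤) {x : Fin (n + 1) → K}
    (hx : ∀ i, lf (ℓ i) x ≠ 0) (P : Place ℂ K) (a : ℤ) (v : Fin q → ℕ)
    (hvi : ∀ i, P.ord (lf (ℓ i) x) = a + v i) (hxj : ∀ j, Ge P a (x j))
    (D : Fin n → Derivation ℂ K K) (e : ℕ)
    (h1 : ∀ f : Fin (n + 1) → K, (∀ j, f j ≠ 0) → Ge P ((∑ j, P.ord (f j)) - e) (bw D f))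
    (h2 : ∀ f : Fin (n + 1) → K, (∀ j, P.Reg (f j)) → P.Reg (bw D f)) :
    (v = 0 → Ge P 0 (sf ℓ x β T D)) ∧
    ∀ μ, (∀ i, v i ≤ μ) →
      Ge P (∑ t ∈ Finset.Icc 1 μ, sl ℓ T β (lev v t) - T * e) (sf ℓ x β T D) := by
  obtain ⟨π, hπ0, hπ⟩ := P.surj
  have hlam : π ^ (-a) ≠ 0 := zpow_ne_zero _ hπ0
  have hordlam : P.ord (π ^ (-a)) = -a := by rw [P.ord_zpow, hπ, mul_one]
  let x' : Fin (n + 1) → K := fun j => π ^ (-a) * x j
  have hx' : ∀ i, lf (ℓ i) x' ≠ 0 := by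
    intro i
    change lf (ℓ i) (fun j => π ^ (-a) * x j) ≠ 0
    rw [lf_mul]
    exact mul_ne_zero hlam (hx i)
  have hord' : ∀ i, P.ord (lf (ℓ i) x') = v i := by
    intro i
    change P.ord (lf (ℓ i) (fun j => π ^ (-a) * x j)) = v i
    rw [lf_mul, P.ord_mul hlam (hx i), hordlam, hvi i]
    ring
  have hscale : sf ℓ x' β T D = sf ℓ x β T D := sf_scale x hβ D hlam
  refine ⟨fun hv0 => ?_, fun μ hμ => ?_⟩
  · have hreg : ∀ j, P.Reg (x' j) := by
      intro j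
      have h5 : Ge P (-a) (π ^ (-a)) := Or.inr (le_of_eq hordlam.symm)
      have h6 := h5.mul (hxj j)
      rw [neg_add_cancel] at h6
      exact h6
    have h3 : Ge P 0 (bw D x') := h2 x' hreg
    have h4 := ge_div (dn_ne hx' β) (h3.pow T)
    rw [ord_dn P hx' β] at h4
    simp only [hord', hv0] at h4
    rw [← hscale]
    simpa [sf] using h4
  · obtain ⟨B', hB'⟩ := layers (exists_bases hspan) T β v hμ
    have h3 := sf_ge (β := β) (T := T) hx' P v hord' D e h1 B'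
    rw [hscale] at h3
    exact h3.mono (by linarith)

/-- **A criterion for general type.** -/
theorem general_crit (hspan : Submodule.span ℂ (Set.range ℓ) = ⊤) {x : Fin (n + 1) → K}
    (hlx : ∀ i, lf (ℓ i) x ≠ 0) (hx0 : x 0 ≠ 0)
    (hbas : IsTranscendenceBasis ℂ (fun j : Fin n => x j.succ / x 0)) {β : Fin q → ℕ} {T : ℕ}
    (hT : 0 < T) (hβ : ∑ i, β i = (n + 1) * T)
    (hcrit : ∀ P : Place ℂ K, Divisorial n P → ∀ (a : ℤ) (v : Fin q → ℕ),
      (∀ i, P.ord (lf (ℓ i) x) = a + v i) → v ≠ 0 → Submodule.span ℂ (ℓ '' {i | v i ≠ 0}) ≠ ⊤ →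
      ∀ μ, (∀ i, v i ≤ μ) → (∃ i, v i = μ) →
        (T : ℤ) + μ ≤ ∑ t ∈ Finset.Icc 1 μ, sl ℓ T β (lev v t)) :
    GeneralType ℂ K n := by
  obtain ⟨B0⟩ := exists_bases hspan
  have i0 : Fin q := B0.1 0
  obtain ⟨D, hD⟩ := (bwb n K).2.2 x hx0 hbas
  have hpf : sf ℓ x β T D ≠ 0 := div_ne_zero (pow_ne_zero _ hD) (dn_ne hlx β)
  refine ⟨trdeg_of_basis hbas, T, hT,
    fun j D => sf ℓ x β T D * x j / lf (ℓ i0) x, ?_, ?_, D, ?_, ?_⟩
  · intro j A D'
    change sf ℓ x β T _ * x j / lf (ℓ i0) x = _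
    rw [sf_pluri x β T A D']
    ring
  · intro P hP j D hD
    change P.Reg (sf ℓ x β T D * x j / lf (ℓ i0) x)
    obtain ⟨a, v, hvi, hxj, hsp⟩ := place_data hspan hlx P i0
    have hfin : ∀ c : ℤ, Ge P c (sf ℓ x β T D) → (v i0 : ℤ) ≤ c →
        P.Reg (sf ℓ x β T D * x j / lf (ℓ i0) x) := by
      intro c h3 h4
      have h5 := ge_div (hlx i0) (h3.mul (hxj j))
      rw [hvi i0] at h5
      exact h5.mono (by linarith)
    obtain ⟨g1, g2⟩ := sf_ord hβ hspan hlx P a v hvi hxj D 1 (reg1 P hD).1 (reg1 P hD).2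
    by_cases hv0 : v = 0
    · exact hfin 0 (g1 hv0) (by rw [hv0]; simp)
    · obtain ⟨i2, -, hmax⟩ := Finset.exists_max_image Finset.univ v ⟨i0, Finset.mem_univ _⟩
      have hle : ∀ i, v i ≤ v i2 := fun i => hmax i (Finset.mem_univ i)
      refine hfin _ (g2 (v i2) hle) ?_
      have h3 := hcrit P hP a v hvi hv0 hsp (v i2) hle ⟨i2, rfl⟩
      have h4 : (v i0 : ℤ) ≤ v i2 := by exact_mod_cast hle i0
      push_cast
      linarith
  · change sf ℓ x β T D * x 0 / lf (ℓ i0) x ≠ 0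
    exact div_ne_zero (mul_ne_zero hpf hx0) (hlx i0)
  · have h0 := hlx i0
    have e : (fun i : Fin n => sf ℓ x β T D * x i.succ / lf (ℓ i0) x /
        (sf ℓ x β T D * x 0 / lf (ℓ i0) x)) = fun i : Fin n => x i.succ / x 0 := by
      funext i
      field_simp
    change AlgebraicIndependent ℂ (fun i : Fin n => sf ℓ x β T D * x i.succ / lf (ℓ i0) x /
        (sf ℓ x β T D * x 0 / lf (ℓ i0) x))
    rw [e]
    exact hbas.1

theorem proper_lev {v : Fin q → ℕ} {t : ℕ} (ht : 1 ≤ t) {i : Fin q} (hi : t ≤ v i)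
    (hsp : Submodule.span ℂ (ℓ '' {i | v i ≠ 0}) ≠ ⊤) : Proper ℓ (lev v t) := by
  refine ⟨⟨i, mem_lev.2 hi⟩, fun htop => hsp ?_⟩
  rw [eq_top_iff, ← htop]
  apply Submodule.span_mono
  apply Set.image_mono
  intro i hi
  have hi' : t ≤ v i := mem_lev.1 hi
  show v i ≠ 0
  omega

/-- **A criterion for sections.** -/
theorem sec_crit (hspan : Submodule.span ℂ (Set.range ℓ) = ⊤) {x : Fin (n + 1) → K}
    (hlx : ∀ i, lf (ℓ i) x ≠ 0) {N : ℕ} (hN : 0 < N)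
    (hP : ∀ P : Place ℂ K, Divisorial n P → HighAt ℓ x N P) {β : Fin q → ℕ} {T : ℕ}
    (hβ : ∑ i, β i = (n + 1) * T) (hsl : ∀ F, Proper ℓ F → (T : ℤ) ≤ N * sl ℓ T β F) :
    LogSec ℂ K n T (fun _ => False) (sf ℓ x β T) := by
  obtain ⟨B0⟩ := exists_bases hspan
  have i0 : Fin q := B0.1 0
  have hN' : (0 : ℤ) < N := by exact_mod_cast hN
  have hT' : (0 : ℤ) ≤ T := by positivity
  have hlow : ∀ (v : Fin q → ℕ), Submodule.span ℂ (ℓ '' {i | v i ≠ 0}) ≠ ⊤ →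
      ∀ i2, (∀ i, v i ≤ v i2) →
      (v i2 : ℤ) * T ≤ N * ∑ t ∈ Finset.Icc 1 (v i2), sl ℓ T β (lev v t) := by
    intro v hsp i2 hle
    have h1 : ∀ t ∈ Finset.Icc 1 (v i2), (T : ℤ) ≤ N * sl ℓ T β (lev v t) := by
      intro t ht
      rw [Finset.mem_Icc] at ht
      exact hsl _ (proper_lev ht.1 ht.2 hsp)
    have h2 := Finset.sum_le_sum h1
    rw [Finset.sum_const, Nat.card_Icc, ← Finset.mul_sum] at h2
    simpa using h2
  refine ⟨sf_pluri x β T, ?_, ?_⟩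
  · intro P _ D hD
    change Ge P 0 (sf ℓ x β T D)
    obtain ⟨a, v, hvi, hxj, hsp⟩ := place_data hspan hlx P i0
    obtain ⟨g1, g2⟩ := sf_ord hβ hspan hlx P a v hvi hxj D 0 (log0 P hD).1 (log0 P hD).2
    obtain ⟨i2, -, hmax⟩ := Finset.exists_max_image Finset.univ v ⟨i0, Finset.mem_univ _⟩
    have hle : ∀ i, v i ≤ v i2 := fun i => hmax i (Finset.mem_univ i)
    refine (g2 _ hle).mono ?_
    have h1 := hlow v hsp i2 hle
    have h2 : (0 : ℤ) ≤ N * ∑ t ∈ Finset.Icc 1 (v i2), sl ℓ T β (lev v t) :=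
      le_trans (by positivity) h1
    have h3 := nonneg_of_mul_nonneg_right h2 hN'
    push_cast
    linarith
  · intro P hPd _ D hD
    change Ge P 0 (sf ℓ x β T D)
    obtain ⟨a, v, hvi, hxj, hsp⟩ := place_data hspan hlx P i0
    obtain ⟨g1, g2⟩ := sf_ord hβ hspan hlx P a v hvi hxj D 1 (reg1 P hD).1 (reg1 P hD).2
    by_cases hv0 : v = 0
    · exact g1 hv0
    obtain ⟨i2, -, hmax⟩ := Finset.exists_max_image Finset.univ v ⟨i0, Finset.mem_univ _⟩
    have hle : ∀ i, v i ≤ v i2 := fun i => hmax i (Finset.mem_univ i)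
    refine (g2 _ hle).mono ?_
    obtain ⟨i3, hi3⟩ := hP P hPd a v hvi hv0 hsp
    have h1 := hlow v hsp i2 hle
    have h2 : (N : ℤ) ≤ v i2 := by exact_mod_cast hi3.trans (hle i3)
    have h3 : (N : ℤ) * T ≤ v i2 * T := mul_le_mul_of_nonneg_right h2 hT'
    have h4 : (N : ℤ) * T ≤ N * ∑ t ∈ Finset.Icc 1 (v i2), sl ℓ T β (lev v t) := h3.trans h1
    have h5 := le_of_mul_le_mul_left h4 hN'
    push_cast
    linarith

/-- the quotient of two forms which are not proportional is transcendental -/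
theorem quot_ind {x : Fin (n + 1) → K} (hx0 : x 0 ≠ 0)
    (hind : AlgebraicIndependent ℂ (fun j : Fin n => x j.succ / x 0)) {φ ψ : Form n}
    (hψ : ψ ≠ 0) (hpar : ∀ t : ℂ, φ ≠ t • ψ) : Transcendental ℂ (lf φ x / lf ψ x) := by
  intro halg
  have hψx : lf ψ x ≠ 0 := lf_ne hx0 hind hψ
  have hint : IsIntegral ℂ (lf φ x / lf ψ x) := halg.isIntegral
  obtain ⟨t, ht⟩ := minpoly.mem_range_of_degree_eq_one ℂ (lf φ x / lf ψ x)
    (IsAlgClosed.degree_eq_one_of_irreducible ℂ (minpoly.irreducible hint))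
  rw [eq_div_iff hψx] at ht
  refine lf_ne hx0 hind (φ := φ - t • ψ) (fun h0 => hpar t (sub_eq_zero.1 h0)) ?_
  have h1 : lf (φ - t • ψ) x = lf φ x - algebraMap ℂ K t * lf ψ x := by
    rw [← Pool.Agent.TH122.AB.lf_smul]
    unfold lf
    rw [← Finset.sum_sub_distrib]
    refine Finset.sum_congr rfl fun j _ => ?_
    rw [LinearMap.sub_apply, map_sub, sub_mul]
  rw [h1, ht, sub_self]

/-- **A criterion for Kodaira dimension at least one.** -/
theorem kod_one (hspan : Submodule.span ℂ (Set.range ℓ) = ⊤) {x : Fin (n + 1) → K}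
    (hlx : ∀ i, lf (ℓ i) x ≠ 0) (hx0 : x 0 ≠ 0)
    (hbas : IsTranscendenceBasis ℂ (fun j : Fin n => x j.succ / x 0)) {N : ℕ} (hN : 0 < N)
    (hP : ∀ P : Place ℂ K, Divisorial n P → HighAt ℓ x N P) {β : Fin q → ℕ} {T : ℕ}
    (hT : 0 < T) {i e : Fin q} (hpar : ∀ t : ℂ, ℓ i ≠ t • ℓ e)
    (hβ : ∑ k, β k + 1 = (n + 1) * T)
    (h1 : ∀ F, Proper ℓ F → (T : ℤ) ≤ N * sl ℓ T (β + (Pi.single i 1 : Fin q → ℕ)) F)
    (h2 : ∀ F, Proper ℓ F → (T : ℤ) ≤ N * sl ℓ T (β + (Pi.single e 1 : Fin q → ℕ)) F) :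
    KodGe ℂ K n (fun _ => False) 1 := by
  have hsum : ∀ j : Fin q, ∑ k, (β + (Pi.single j 1 : Fin q → ℕ)) k = (n + 1) * T := by
    intro j
    rw [← hβ]
    simp [Finset.sum_add_distrib]
  have hdn : ∀ j : Fin q, dn ℓ x (β + (Pi.single j 1 : Fin q → ℕ)) = dn ℓ x β * lf (ℓ j) x := by
    intro j
    unfold dn
    simp only [Pi.add_apply, pow_add]
    rw [Finset.prod_mul_distrib]
    congr 1
    rw [Finset.prod_eq_single j]
    · simp
    · intro b _ hb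
      rw [Pi.single_eq_of_ne hb, pow_zero]
    · intro h
      exact absurd (Finset.mem_univ _) h
  obtain ⟨D, hD⟩ := (bwb n K).2.2 x hx0 hbas
  refine ⟨T, hT, fun j => if j = 0 then sf ℓ x (β + (Pi.single i 1 : Fin q → ℕ)) T else
    sf ℓ x (β + (Pi.single e 1 : Fin q → ℕ)) T, fun j => ?_, D, ?_, ?_⟩
  · by_cases hj : j = 0
    · simp only [hj, if_true]
      exact sec_crit hspan hlx hN hP (hsum i) h1
    · simp only [hj, if_false]
      exact sec_crit hspan hlx hN hP (hsum e) h2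
  · simp only [if_true]
    exact div_ne_zero (pow_ne_zero _ hD) (dn_ne hlx _)
  · rw [algebraicIndependent_unique_type_iff]
    have h3 := quot_ind hx0 hbas.1 (φ := ℓ i) (ψ := ℓ e) (by
      intro h0
      have := hlx e
      rw [h0] at this
      exact this (by simp [lf])) hpar
    have h4 : (if (default : Fin 1).succ = 0 then sf ℓ x (β + (Pi.single i 1 : Fin q → ℕ)) T else
        sf ℓ x (β + (Pi.single e 1 : Fin q → ℕ)) T) D / (if (0 : Fin 2) = 0 then sf ℓ x (β + (Pi.single i 1 : Fin q → ℕ)) T else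
        sf ℓ x (β + (Pi.single e 1 : Fin q → ℕ)) T) D = lf (ℓ i) x / lf (ℓ e) x := by
      rw [if_neg (Fin.succ_ne_zero _), if_pos rfl]
      unfold sf
      rw [hdn, hdn]
      have h5 := dn_ne hlx β
      have h6 := hlx i
      have h7 := hlx e
      have h8 : bw D x ^ T ≠ 0 := pow_ne_zero _ hD
      field_simp
    exact h4 ▸ h3

end Pool.Agent.TH122.PA
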