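import Pool.Agent.TH122.PA.Fin
import Pool.Agent.TH122.PA.Ew

/-!
The final trichotomy.
-/

set_option autoImplicit false
set_option linter.overlappingInstances false

open FF Pool.Agent.W603.LV Pool.Agent.W602.GT Pool.Agent.W602.Cov
open Pool.Agent.W602.Cov.Cover Pool.Agent.W602.Cov.G Pool.Agent.TH152.AC Pool.Agent.TH122.AB

namespace Pool.Agent.TH122.PA

variable {n q r : ℕ}

/-- The hyperplanes `c k` are in general position, and each other hyperplane of the arrangement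
contains the intersection of the hyperplanes `c i` and `c j`. -/
def PencilType (ℓ : Fin q → Form n) (c : Fin (n + 2) → Fin q) (i j : Fin (n + 2)) : Prop :=
  i ≠ j ∧ (∀ k : Fin (n + 2), LinearIndependent ℂ fun a => ℓ (c (k.succAbove a))) ∧
    ∀ d, (∃ (k : Fin (n + 2)) (t : ℂ), ℓ d = t • ℓ (c k)) ∨
      ℓ d ∈ Submodule.span ℂ {ℓ (c i), ℓ (c j)}

open scoped Classical in
/-- For each `m ≠ i, j` the multiplicities `n + 1` for the hyperplane `c m` and `0` for the others
are compatible with the equations of `X`. -/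
def Comp (X : Cover n q r) (c : Fin (n + 2) → Fin q) (i j : Fin (n + 2)) : Prop :=
  ∀ m, m ≠ i → m ≠ j → ∀ k,
    X.m k ∣ ∑ d, X.e k d * (if ∃ t : ℂ, X.ℓ d = t • X.ℓ (c m) then n + 1 else 0)

theorem trichotomy (hn : 3 ≤ n) (X : Cover n q r) (hF : X.Free) {K : Type} [Field K]
    [Algebra ℂ K] {x : Fin (n + 1) → K} {y : Fin r → K} (hK : X.FunctionField K x y)
    (h : Mult X (n + 1)) (hg : ¬ ∃ c, General X.ℓ c) :
    (Reducible X.ℓ ∧ Ruled ℂ K ∧ ¬ Psef ℂ K n (fun _ => False)) ∨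
      (¬ Reducible X.ℓ ∧ (∃ c i j, PencilType X.ℓ c i j ∧ Comp X c i j) ∧
        KodGe ℂ K n (fun _ => False) 1 ∧
        Pool.Agent.W619.TW.NumLe ℂ K n (fun _ => False) 1) ∨
      (¬ Reducible X.ℓ ∧ (¬ ∃ c i j, PencilType X.ℓ c i j ∧ Comp X c i j) ∧
        GeneralType ℂ K n) := by
  classical
  obtain ⟨h1, h2, h3⟩ := coords X hK
  by_cases hr : Reducible X.ℓ
  · have hru := ruled X hF hK hr
    exact Or.inl ⟨hr, hru, not_psef_of_ruled (trdeg_of_basis h3) hru⟩
  right
  -- the dichotomy for a circuit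
  have hdi : ∀ c : Fin (n + 2) → Fin q, Circ X.ℓ c →
      ((∃ i j, PencilType X.ℓ c i j ∧ Comp X c i j) ∧
        KodGe ℂ K n (fun _ => False) 1 ∧
        Pool.Agent.W619.TW.NumLe ℂ K n (fun _ => False) 1) ∨
      ((¬ ∃ i j, PencilType X.ℓ c i j ∧ Comp X c i j) ∧ GeneralType ℂ K n) := by
    intro c hc
    have he : ∃ e, Npar X.ℓ c e := by
      by_contra hcon
      apply hg
      refine ⟨c, hc, fun i => ?_⟩
      by_contra h4
      apply hcon
      refine ⟨i, fun k t h5 => h4 ⟨k, t, h5⟩⟩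
    obtain ⟨e, he⟩ := he
    have hiff : ∀ i j, (i ≠ j ∧ Pencil X.ℓ c i j ∧ ∀ m, m ≠ i → m ≠ j → ∀ k, X.m k ∣
        (n + 1) * ∑ d ∈ Finset.univ.filter (fun d => ∃ t : ℂ, X.ℓ d = t • X.ℓ (c m)), X.e k d) ↔
        (PencilType X.ℓ c i j ∧ Comp X c i j) := by
      intro i j
      have hP : Pencil X.ℓ c i j ↔ ∀ d, (∃ (k : Fin (n + 2)) (t : ℂ), X.ℓ d = t • X.ℓ (c k)) ∨
          X.ℓ d ∈ Submodule.span ℂ {X.ℓ (c i), X.ℓ (c j)} := by
        unfold Pencil W Npar
        refine forall_congr' fun d => ?_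
        rw [Finset.coe_insert, Finset.coe_singleton, Set.image_pair]
        refine or_congr ?_ Iff.rfl
        push Not
        rfl
      have hC : (∀ m, m ≠ i → m ≠ j → ∀ k, X.m k ∣ (n + 1) *
          ∑ d ∈ Finset.univ.filter (fun d => ∃ t : ℂ, X.ℓ d = t • X.ℓ (c m)), X.e k d) ↔
          Comp X c i j := by
        unfold Comp
        have e1 : ∀ m k, (n + 1) *
            ∑ d ∈ Finset.univ.filter (fun d => ∃ t : ℂ, X.ℓ d = t • X.ℓ (c m)), X.e k d =
            ∑ d, X.e k d * (if ∃ t : ℂ, X.ℓ d = t • X.ℓ (c m) then n + 1 else 0) := by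
          intro m k
          rw [Finset.sum_filter, Finset.mul_sum]
          refine Finset.sum_congr rfl fun d _ => ?_
          split_ifs <;> ring
        simp only [e1]
      unfold PencilType
      rw [hC, hP]
      constructor
      · rintro ⟨h5, h6, h7⟩
        exact ⟨⟨h5, hc, h6⟩, h7⟩
      · rintro ⟨⟨h5, -, h6⟩, h7⟩
        exact ⟨h5, h6, h7⟩
    have hd := dichotomy hn X hF hK h hc he
      (fun m => Finset.univ.filter (fun d => ∃ t : ℂ, X.ℓ d = t • X.ℓ (c m)))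
      (fun m d => by simp)
    simp only [hiff] at hd
    exact hd
  by_cases hex : ∃ c i j, PencilType X.ℓ c i j ∧ Comp X c i j
  · left
    refine ⟨hr, hex, ?_⟩
    obtain ⟨c, i, j, h4, h5⟩ := hex
    rcases hdi c h4.2.1 with h6 | h6
    · exact h6.2
    · exact absurd ⟨i, j, h4, h5⟩ h6.1
  · right
    refine ⟨hr, hex, ?_⟩
    by_cases hcirc : ∃ c, Circ X.ℓ c
    · obtain ⟨c, hc⟩ := hcirc
      rcases hdi c hc with h6 | h6
      · exact absurd ⟨c, h6.1⟩ hex
      · exact h6.2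
    · exact general_of_no_circuit (by omega) X.hℓ hr hcirc h1 h2 h3 fun P _ =>
        highAt_of_mult X hF hK h P

end Pool.Agent.TH122.PA
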