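import Pool.Agent.TH122.PA.Germ

/-!
The trichotomies for multiplicities of germs of curves.
-/

set_option autoImplicit false
set_option linter.overlappingInstances false

open FF Pool.Agent.W603.LV Pool.Agent.W602.GT Pool.Agent.W602.Cov
open Pool.Agent.W602.Cov.Cover Pool.Agent.W602.Cov.G Pool.Agent.TH152.AC Pool.Agent.TH122.AB

namespace Pool.Agent.TH122.PA

variable {n q r : ℕ}

theorem dichotomyP (hn : 3 ≤ n) (X : Cover n q r) (hF : X.Free) {K : Type} [Field K] [Algebra ℂ K]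
    {x : Fin (n + 1) → K} {y : Fin r → K} (hK : X.FunctionField K x y)
    (hP : ∀ P : Place ℂ K, Divisorial n P → HighAt X.ℓ x (n + 1) P)
    {c : Fin (n + 2) → Fin q} (hc : Circ X.ℓ c) {e : Fin q} (he : Npar X.ℓ c e)
    (CC : Fin (n + 2) → Finset (Fin q)) (hC : ∀ m d, d ∈ CC m ↔ ∃ t : ℂ, X.ℓ d = t • X.ℓ (c m)) :
    ((∃ i j, i ≠ j ∧ Pencil X.ℓ c i j ∧ ∀ m, m ≠ i → m ≠ j → ∀ k,
        X.m k ∣ (n + 1) * ∑ d ∈ CC m, X.e k d) ∧
      KodGe ℂ K n (fun _ => False) 1 ∧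
      Pool.Agent.W619.TW.NumLe ℂ K n (fun _ => False) 1) ∨
    ((¬ ∃ i j, i ≠ j ∧ Pencil X.ℓ c i j ∧ ∀ m, m ≠ i → m ≠ j → ∀ k,
        X.m k ∣ (n + 1) * ∑ d ∈ CC m, X.e k d) ∧ GeneralType ℂ K n) := by
  classical
  obtain ⟨h1, h2, h3⟩ := coords X hK
  have hmem : ∀ {i j}, Pencil X.ℓ c i j → X.ℓ e ∈ W X.ℓ c {i, j} := fun hp =>
    (hp e).resolve_left fun h4 => h4 he
  by_cases hcase : ∃ i j, i ≠ j ∧ Pencil X.ℓ c i j ∧ ∀ m, m ≠ i → m ≠ j → ∀ k,
        X.m k ∣ (n + 1) * ∑ d ∈ CC m, X.e k d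
  · left
    refine ⟨hcase, ?_⟩
    obtain ⟨i, j, hij, hp, hcomp⟩ := hcase
    have hkod := kod_of_pencil hn X.hℓ hc he hij (hmem hp) h1 h2 h3 hP
    refine ⟨hkod, ?_⟩
    obtain ⟨n, rfl⟩ : ∃ n', n = n' + 2 := ⟨n - 2, by omega⟩
    exact nu_pencil X hF hK hc hij hp CC hC hcomp (psef_of_kod hkod)
  · right
    refine ⟨hcase, ?_⟩
    by_cases hp : ∃ i j, i ≠ j ∧ Pencil X.ℓ c i j
    · obtain ⟨i, j, hij, hp⟩ := hp
      have h4 : ∃ m, m ≠ i ∧ m ≠ j ∧ ∃ k, ¬ X.m k ∣ (n + 1) * ∑ d ∈ CC m, X.e k d := by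
        by_contra hcon
        push Not at hcon
        exact hcase ⟨i, j, hij, hp, hcon⟩
      obtain ⟨m, hmi, hmj, k, hk⟩ := h4
      refine general_of_pencil hn X.hℓ hc he hij (hmem hp) h1 h2 h3 hP
        (Or.inl ⟨m, hmi, hmj, ?_⟩)
      rintro ⟨P, hPd, a, v, hord, hsp, hv1, hv2⟩
      apply hk
      obtain ⟨-, h5⟩ := compat X hF hK h1 P a v hord hsp
      have h6 : (n + 1) * ∑ d ∈ CC m, X.e k d = ∑ d, X.e k d * v d := by
        rw [Finset.mul_sum, ← Finset.sum_subset (Finset.subset_univ (CC m))]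
        · refine Finset.sum_congr rfl fun d hd => ?_
          obtain ⟨t, ht⟩ := (hC m d).1 hd
          rw [hv1 d (by
            rw [ht]
            exact Submodule.smul_mem _ _ (Submodule.subset_span ⟨m, by simp, rfl⟩)), mul_comm]
        · intro d _ hd
          rw [hv2 d (fun hdW => hd ?_), mul_zero]
          unfold W at hdW
          rw [Finset.coe_singleton, Set.image_singleton] at hdW
          obtain ⟨t, ht⟩ := Submodule.mem_span_singleton.1 hdW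
          exact (hC m d).2 ⟨t, ht.symm⟩
      rw [h6]
      exact h5 k
    · exact general_of_not_pencil hn X.hℓ hc he hp h1 h2 h3 hP

theorem trichotomyP (hn : 3 ≤ n) (X : Cover n q r) (hF : X.Free) {K : Type} [Field K]
    [Algebra ℂ K] {x : Fin (n + 1) → K} {y : Fin r → K} (hK : X.FunctionField K x y)
    
    (h : ¬ Reducible X.ℓ → ∀ P : Place ℂ K, Divisorial n P → HighAt X.ℓ x (n + 1) P)
    (hg : ¬ ∃ c, General X.ℓ c) :
    (Reducible X.ℓ ∧ Ruled ℂ K ∧ ¬ Psef ℂ K n (fun _ => False)) ∨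
      (¬ Reducible X.ℓ ∧ (∃ c i j, PencilType X.ℓ c i j ∧ Comp X c i j) ∧
        KodGe ℂ K n (fun _ => False) 1 ∧
        Pool.Agent.W619.TW.NumLe ℂ K n (fun _ => False) 1) ∨
      (¬ Reducible X.ℓ ∧ (¬ ∃ c i j, PencilType X.ℓ c i j ∧ Comp X c i j) ∧
        GeneralType ℂ K n) := by
  classical
  obtain ⟨h1, h2, h3⟩ := coords X hK
  by_cases hr : Reducible X.ℓ
  · have hru := ruled X hF hK hr
    exact Or.inl ⟨hr, hru, not_psef_of_ruled (trdeg_of_basis h3) hru⟩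
  right
  -- the dichotomy for a circuit
  have hdi : ∀ c : Fin (n + 2) → Fin q, Circ X.ℓ c →
      ((∃ i j, PencilType X.ℓ c i j ∧ Comp X c i j) ∧
        KodGe ℂ K n (fun _ => False) 1 ∧
        Pool.Agent.W619.TW.NumLe ℂ K n (fun _ => False) 1) ∨
      ((¬ ∃ i j, PencilType X.ℓ c i j ∧ Comp X c i j) ∧ GeneralType ℂ K n) := by
    intro c hc
    have he : ∃ e, Npar X.ℓ c e := by
      by_contra hcon
      apply hg
      refine ⟨c, hc, fun i => ?_⟩
      by_contra h4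
      apply hcon
      refine ⟨i, fun k t h5 => h4 ⟨k, t, h5⟩⟩
    obtain ⟨e, he⟩ := he
    have hiff : ∀ i j, (i ≠ j ∧ Pencil X.ℓ c i j ∧ ∀ m, m ≠ i → m ≠ j → ∀ k, X.m k ∣
        (n + 1) * ∑ d ∈ Finset.univ.filter (fun d => ∃ t : ℂ, X.ℓ d = t • X.ℓ (c m)), X.e k d) ↔
        (PencilType X.ℓ c i j ∧ Comp X c i j) := by
      intro i j
      have hP : Pencil X.ℓ c i j ↔ ∀ d, (∃ (k : Fin (n + 2)) (t : ℂ), X.ℓ d = t • X.ℓ (c k)) ∨
          X.ℓ d ∈ Submodule.span ℂ {X.ℓ (c i), X.ℓ (c j)} := by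
        unfold Pencil W Npar
        refine forall_congr' fun d => ?_
        rw [Finset.coe_insert, Finset.coe_singleton, Set.image_pair]
        refine or_congr ?_ Iff.rfl
        push Not
        rfl
      have hC : (∀ m, m ≠ i → m ≠ j → ∀ k, X.m k ∣ (n + 1) *
          ∑ d ∈ Finset.univ.filter (fun d => ∃ t : ℂ, X.ℓ d = t • X.ℓ (c m)), X.e k d) ↔
          Comp X c i j := by
        unfold Comp
        have e1 : ∀ m k, (n + 1) *
            ∑ d ∈ Finset.univ.filter (fun d => ∃ t : ℂ, X.ℓ d = t • X.ℓ (c m)), X.e k d =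
            ∑ d, X.e k d * (if ∃ t : ℂ, X.ℓ d = t • X.ℓ (c m) then n + 1 else 0) := by
          intro m k
          rw [Finset.sum_filter, Finset.mul_sum]
          refine Finset.sum_congr rfl fun d _ => ?_
          split_ifs <;> ring
        simp only [e1]
      unfold PencilType
      rw [hC, hP]
      constructor
      · rintro ⟨h5, h6, h7⟩
        exact ⟨⟨h5, hc, h6⟩, h7⟩
      · rintro ⟨⟨h5, -, h6⟩, h7⟩
        exact ⟨h5, h6, h7⟩
    have hd := dichotomyP hn X hF hK (h hr) hc he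
      (fun m => Finset.univ.filter (fun d => ∃ t : ℂ, X.ℓ d = t • X.ℓ (c m)))
      (fun m d => by simp)
    simp only [hiff] at hd
    exact hd
  by_cases hex : ∃ c i j, PencilType X.ℓ c i j ∧ Comp X c i j
  · left
    refine ⟨hr, hex, ?_⟩
    obtain ⟨c, i, j, h4, h5⟩ := hex
    rcases hdi c h4.2.1 with h6 | h6
    · exact h6.2
    · exact absurd ⟨i, j, h4, h5⟩ h6.1
  · right
    refine ⟨hr, hex, ?_⟩
    by_cases hcirc : ∃ c, Circ X.ℓ c
    · obtain ⟨c, hc⟩ := hcirc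
      rcases hdi c hc with h6 | h6
      · exact absurd ⟨c, h6.1⟩ hex
      · exact h6.2
    · exact general_of_no_circuit (by omega) X.hℓ hr hcirc h1 h2 h3 (h hr)


theorem trichotomyG (hn : 3 ≤ n) (X : Cover n q r) (hF : X.Free) {K : Type} [Field K]
    [Algebra ℂ K] {x : Fin (n + 1) → K} {y : Fin r → K} (hK : X.FunctionField K x y)
    (h : MultG X (n + 1)) (hg : ¬ ∃ c, General X.ℓ c) :
    (Reducible X.ℓ ∧ Ruled ℂ K ∧ ¬ Psef ℂ K n (fun _ => False)) ∨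
      (¬ Reducible X.ℓ ∧ (∃ c i j, PencilType X.ℓ c i j ∧ Comp X c i j) ∧
        KodGe ℂ K n (fun _ => False) 1 ∧
        Pool.Agent.W619.TW.NumLe ℂ K n (fun _ => False) 1) ∨
      (¬ Reducible X.ℓ ∧ (¬ ∃ c i j, PencilType X.ℓ c i j ∧ Comp X c i j) ∧
        GeneralType ℂ K n) :=
  trichotomyP hn X hF hK (fun hr P _ => highAt_of_germ X hF hK
    (Pool.Agent.W392.CG.span_top (by omega) X.ℓ hr) h P) hg

theorem trichotomyG2 (hn : 1 ≤ n) (X : Cover n q r) (hF : X.Free) {K : Type} [Field K]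
    [Algebra ℂ K] {x : Fin (n + 1) → K} {y : Fin r → K} (hK : X.FunctionField K x y)
    (h : MultG X (n + 2)) :
    (Reducible X.ℓ ∧ Ruled ℂ K ∧ ¬ Psef ℂ K n (fun _ => False)) ∨
      (¬ Reducible X.ℓ ∧ (∃ c, General X.ℓ c ∧ Calabi X c) ∧
        KodGe ℂ K n (fun _ => False) 0 ∧
        Pool.Agent.W619.TW.NumLe ℂ K n (fun _ => False) 0) ∨
      (¬ Reducible X.ℓ ∧ (¬ ∃ c, General X.ℓ c ∧ Calabi X c) ∧ GeneralType ℂ K n) := by
  classical
  obtain ⟨h1, h2, h3⟩ := coords X hK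
  by_cases hr : Reducible X.ℓ
  · have hru := ruled X hF hK hr
    exact Or.inl ⟨hr, hru, not_psef_of_ruled (trdeg_of_basis h3) hru⟩
  right
  have hP : ∀ P : Place ℂ K, HighAt X.ℓ x (n + 2) P := highAt_of_germ X hF hK
    (Pool.Agent.W392.CG.span_top hn X.ℓ hr) h
  by_cases hcy : ∃ c, General X.ℓ c ∧ Calabi X c
  · left
    obtain ⟨c, hc, hcal⟩ := hcy
    exact ⟨hr, ⟨c, hc, hcal⟩, kodGe_zero hn X.hℓ hr h1 h2 h3 _ fun P _ _ => hP P,
      nu_le' hn X hF hK hc hcal⟩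
  · refine Or.inr ⟨hr, hcy, ?_⟩
    by_cases hg : ∃ c, General X.ℓ c
    · obtain ⟨c, hc⟩ := hg
      have hcal : ¬ Calabi X c := fun hcal => hcy ⟨c, hc, hcal⟩
      unfold Calabi at hcal
      push Not at hcal
      obtain ⟨j0, k, hk⟩ := hcal
      refine general_of_circuit hc h1 h2 h3 (fun P _ => hP P) j0
        fun P _ a v hord hsp hv1 hv2 => hk ?_
      obtain ⟨-, h4⟩ := compat X hF hK h1 P a v hord hsp
      have h5 : ∀ i, X.e k i * (if ∃ t : ℂ, X.ℓ i = t • X.ℓ (c j0) then n + 2 else 0) =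
          X.e k i * v i := by
        intro i
        by_cases hi : ∃ t : ℂ, X.ℓ i = t • X.ℓ (c j0)
        · rw [if_pos hi, hv1 i hi]
        · rw [if_neg hi, hv2 i hi]
      rw [Finset.sum_congr rfl fun i _ => h5 i]
      exact h4 k
    · exact general_of_strict hn X.hℓ hr hg h1 h2 h3 fun P _ => hP P

end Pool.Agent.TH122.PA
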